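import Pool.Agent.K3h51.Li.Pair
import Pool.Agent.H986R2.K4.All

set_option autoImplicit false

/-!
# Positivity of the Li coefficients of `ξ^(n)` up to `exp (κ n)`, `κ < 8`
-/

namespace Pool.Agent.K3h51.Li

open Complex Filter Topology Metric
open Pool.Agent.H24R2.JP (XX)
open Pool.Agent.H24R2.DZ (bad)

theorem sum_lower {Z : Multiset ℂ} {T : ℝ} {k : ℕ} (hS : Strp Z)
    (hline : ∀ ρ ∈ Z, |ρ.im| ≤ T → ρ.re = 0) (hT : 1 ≤ T) (hk : (k : ℝ) ≤ T ^ 2)
    (S : Finset ℂ) (hSZ : ∀ ρ ∈ S, ρ ∈ Z) :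
    ∑ ρ ∈ S, EE k ρ - 5 * k ^ 2 / (2 * T ^ 2) * As Z T ≤ (Z.map (EE k)).sum := by
  set F : ℂ → ℝ := fun ρ => 5 * k ^ 2 / (2 * T ^ 2) * (1 / ‖(T : ℂ) - ρ‖ ^ 2) with hF
  have hF0 : ∀ ρ, 0 ≤ F ρ := fun ρ => by rw [hF]; positivity
  have hEF : ∀ ρ ∈ Z, 0 ≤ EE k ρ + F ρ := by
    intro ρ hρ
    rcases le_or_gt |ρ.im| T with h | h
    · exact add_nonneg (EE_nonneg k (hline ρ hρ h)) (hF0 ρ)
    · have h1 := EE_far (hS ρ hρ) hT hk h.le
      have h2 : (k : ℝ) ^ 2 / (2 * ρ.im ^ 4) ≤ F ρ := by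
        have e : ‖(T : ℂ) - ρ‖ ^ 2 = (T - ρ.re) ^ 2 + ρ.im ^ 2 := by
          rw [← Complex.normSq_eq_norm_sq, Complex.normSq_apply]
          simp
          ring
        obtain ⟨a1, a2⟩ := abs_le.1 (hS ρ hρ)
        have hTsq : T ^ 2 ≤ ρ.im ^ 2 := by
          rw [← sq_abs ρ.im]
          exact pow_le_pow_left₀ (by linarith) h.le 2
        have himp : 1 ≤ ρ.im ^ 2 := by nlinarith
        have hd : ‖(T : ℂ) - ρ‖ ^ 2 ≤ 5 * ρ.im ^ 2 := by
          rw [e]
          nlinarith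
        have hd0 : 0 < ‖(T : ℂ) - ρ‖ ^ 2 := by
          rw [e]
          nlinarith [sq_nonneg (T - ρ.re)]
        rw [hF]
        simp only
        have e2 : 5 * (k : ℝ) ^ 2 / (2 * T ^ 2) * (1 / ‖(T : ℂ) - ρ‖ ^ 2) =
            (k : ℝ) ^ 2 * (5 / (2 * T ^ 2 * ‖(T : ℂ) - ρ‖ ^ 2)) := by
          field_simp
        have e3 : (k : ℝ) ^ 2 / (2 * ρ.im ^ 4) = (k : ℝ) ^ 2 * (1 / (2 * ρ.im ^ 4)) := by ring
        rw [e2, e3]
        refine mul_le_mul_of_nonneg_left ?_ (by positivity)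
        have him4 : 0 < ρ.im ^ 4 := by
          have e4 : ρ.im ^ 4 = (ρ.im ^ 2) ^ 2 := by ring
          rw [e4]
          exact pow_pos (by linarith) 2
        rw [div_le_div_iff₀ (by linarith) (by positivity)]
        have : T ^ 2 * ‖(T : ℂ) - ρ‖ ^ 2 ≤ ρ.im ^ 2 * (5 * ρ.im ^ 2) :=
          mul_le_mul hTsq hd hd0.le (by positivity)
        nlinarith
      linarith
  have hle : S.val ≤ Z := (Multiset.le_iff_subset S.nodup).2 fun ρ hρ => hSZ ρ hρ
  obtain ⟨W, hW⟩ := Multiset.le_iff_exists_add.1 hle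
  have h1 : (Z.map fun ρ => EE k ρ + F ρ).sum =
      (Z.map (EE k)).sum + 5 * k ^ 2 / (2 * T ^ 2) * As Z T := by
    rw [Multiset.sum_map_add]
    congr 1
    unfold As
    rw [← Multiset.sum_map_mul_left]
  have h2 : ∑ ρ ∈ S, EE k ρ ≤ (Z.map fun ρ => EE k ρ + F ρ).sum := by
    have e : (Z.map fun ρ => EE k ρ + F ρ).sum =
        (S.val.map fun ρ => EE k ρ + F ρ).sum + (W.map fun ρ => EE k ρ + F ρ).sum := by
      rw [hW, Multiset.map_add, Multiset.sum_add]
    rw [e]
    have h3 : 0 ≤ (W.map fun ρ => EE k ρ + F ρ).sum := by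
      refine Multiset.sum_nonneg fun x hx => ?_
      obtain ⟨ρ, hρ, rfl⟩ := Multiset.mem_map.1 hx
      exact hEF ρ (by rw [hW]; exact Multiset.mem_add.2 (Or.inr hρ))
    have h4 : ∑ ρ ∈ S, EE k ρ ≤ (S.val.map fun ρ => EE k ρ + F ρ).sum :=
      Finset.sum_le_sum fun ρ _ => by linarith [hF0 ρ]
    linarith
  linarith

/-- Lower bound for the Li coefficient. -/
theorem lc_lower {n k : ℕ} {T : ℝ} (hk1 : 1 ≤ k) (hT : 10 ≤ T) (hk : (k : ℝ) ≤ T ^ 2)
    (hline : ∀ ρ, iteratedDeriv n XX ρ = 0 → |ρ.im| ≤ T → ρ.re = 0)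
    (S : Finset ℂ) (hS : ∀ ρ ∈ S, iteratedDeriv n XX ρ = 0) :
    1 / 2 * ∑ ρ ∈ S, EE k ρ - 5 * k ^ 2 / (2 * T ^ 3) * (GG n T).re ≤ (lc n k).re := by
  obtain ⟨Z, c, h⟩ := ap n
  have h1 := (Complex.continuous_re.tendsto _).comp (lc_lim h k)
  have hTr : ((T : ℝ) : ℂ).re = T := Complex.ofReal_re T
  have h2 := (Complex.continuous_re.tendsto _).comp
    (gs_lim h (ff_ne (n := n) (z := (T : ℂ)) (by rw [hTr]; linarith)))
  have h3 : Tendsto (fun N => 1 / 2 * ∑ ρ ∈ S, EE k ρ - 5 * k ^ 2 / (2 * T ^ 3) * (gs (Z N) T).re)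
      atTop (𝓝 (1 / 2 * ∑ ρ ∈ S, EE k ρ - 5 * k ^ 2 / (2 * T ^ 3) * (GG n T).re)) :=
    tendsto_const_nhds.sub (h2.const_mul _)
  refine le_of_tendsto_of_tendsto h3 h1 ?_
  have h4 : ∀ᶠ N in atTop, ∀ ρ ∈ S, ρ ∈ Z N := by
    rw [Finset.eventually_all]
    exact fun ρ hρ => h.ex ρ (hS ρ hρ)
  filter_upwards [h4] with N hN
  have h5 := sum_lower (k := k) (h.strp N) (fun ρ hρ => hline ρ (h.zero N ρ hρ)) (by linarith) hk S hN
  have h6 := Ss_pair (h.neg N) (k - 1)
  rw [show k - 1 + 1 = k by omega] at h6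
  simp only [Function.comp_apply]
  rw [h6]
  have h7 := as_le (h.strp N) (T : ℂ)
  rw [hTr] at h7
  have h8 := as_nonneg (Z N) (T : ℂ)
  have h9 : T / 2 * As (Z N) T ≤ (gs (Z N) T).re := by
    refine le_trans ?_ h7
    exact mul_le_mul_of_nonneg_right (by linarith) h8
  have h10 : 5 * (k : ℝ) ^ 2 / (4 * T ^ 2) * As (Z N) T ≤
      5 * k ^ 2 / (2 * T ^ 3) * (gs (Z N) T).re := by
    have e : 5 * (k : ℝ) ^ 2 / (4 * T ^ 2) * As (Z N) T =
        5 * k ^ 2 / (2 * T ^ 3) * (T / 2 * As (Z N) T) := by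
      field_simp
      ring
    rw [e]
    exact mul_le_mul_of_nonneg_left h9 (by positivity)
  have e2 : 5 * (k : ℝ) ^ 2 / (2 * T ^ 2) * As (Z N) T =
      2 * (5 * (k : ℝ) ^ 2 / (4 * T ^ 2) * As (Z N) T) := by
    field_simp
    ring
  linarith

theorem exp_beats (c A B : ℝ) (hc : 0 < c) : ∃ n1 : ℕ, ∀ n : ℕ, n1 ≤ n → A * n + B < Real.exp (c * n) := by
  have h1 := Real.tendsto_exp_div_pow_atTop 1
  have h2 : Tendsto (fun n : ℕ => c * (n : ℝ)) atTop atTop :=
    tendsto_natCast_atTop_atTop.const_mul_atTop hc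
  have h3 := h1.comp h2
  have h4 := h3.eventually_gt_atTop ((|A| + |B|) / c)
  obtain ⟨n1, hn1⟩ := eventually_atTop.1 h4
  refine ⟨max n1 1, fun n hn => ?_⟩
  have h5 := hn1 n (le_trans (le_max_left _ _) hn)
  have hn0 : (1 : ℝ) ≤ n := by exact_mod_cast le_trans (le_max_right _ _) hn
  simp only [Function.comp_apply, pow_one] at h5
  rw [div_lt_div_iff₀ hc (by positivity)] at h5
  have h6 : (|A| + |B|) * n < Real.exp (c * n) := by
    have : (|A| + |B|) * (c * n) = ((|A| + |B|) * n) * c := by ring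
    rw [this] at h5
    exact lt_of_mul_lt_mul_right h5 hc.le
  have h7 : A ≤ |A| := le_abs_self A
  have h8 : B ≤ |B| := le_abs_self B
  have h9 := abs_nonneg B
  nlinarith

/-- the height with a given phase -/
theorem phase {T x : ℝ} (hT : 100000 ≤ T) (hx2 : 2 / T ≤ x) (hx1 : x ≤ 35 / T) :
    ∃ γs : ℝ, T / 70 ≤ γs ∧ γs ≤ T / 2 ∧ Th γs = x := by
  have hT0 : 0 < T := by linarith
  have hp3 := Real.pi_gt_three
  have hx0 : 0 < x := lt_of_lt_of_le (by positivity) hx2
  have hxs : x ≤ 1 / 1000 := by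
    refine hx1.trans ?_
    rw [div_le_div_iff₀ hT0 (by norm_num)]
    linarith
  have ht1 : x / 2 ≤ Real.tan (x / 2) := Real.le_tan (by linarith) (by linarith)
  have ht2 : Real.tan (x / 2) ≤ x := by
    have h3 := half_le_arctan hx0.le (by linarith)
    have h4 := Real.strictMonoOn_tan.monotoneOn (a := x / 2) (b := Real.arctan x)
      ⟨by linarith, by linarith⟩ ⟨Real.neg_pi_div_two_lt_arctan x, Real.arctan_lt_pi_div_two x⟩ h3
    rwa [Real.tan_arctan] at h4
  obtain ⟨τ, hτ⟩ : ∃ τ, τ = Real.tan (x / 2) := ⟨_, rfl⟩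
  rw [← hτ] at ht1 ht2
  have hτ0 : 0 < τ := by linarith
  refine ⟨1 / (2 * τ), ?_, ?_, ?_⟩
  · rw [div_le_div_iff₀ (by norm_num) (by positivity)]
    have : τ * T ≤ 35 := by
      calc τ * T ≤ x * T := mul_le_mul_of_nonneg_right ht2 hT0.le
        _ ≤ 35 / T * T := mul_le_mul_of_nonneg_right hx1 hT0.le
        _ = 35 := by field_simp
    linarith
  · rw [div_le_div_iff₀ (by positivity) (by norm_num)]
    have : 1 ≤ τ * T := by
      calc 1 = (2 / T) / 2 * T := by field_simp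
        _ ≤ x / 2 * T := by
            apply mul_le_mul_of_nonneg_right _ hT0.le
            linarith
        _ ≤ τ * T := mul_le_mul_of_nonneg_right ht1 hT0.le
    linarith
  · unfold Th
    have : 1 / (2 * (1 / (2 * τ))) = τ := by
      field_simp
    rw [this, hτ, Real.arctan_tan (by linarith) (by linarith)]
    ring

open Pool.Agent.H986R2.K4 in
/-- **Forward theorem** -/
theorem forward {κ' κ : ℝ} (hκ' : 1 ≤ κ') (hU : Pool.Agent.H986R2.K4.UpTo κ') (hκ0 : κ < 2 * κ') :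
    ∃ N : ℕ, ∀ n k : ℕ, N ≤ n → 1 ≤ k → (k : ℝ) ≤ Real.exp (κ * n) → 0 < (lc n k).re := by
  obtain ⟨N0, hN0⟩ := hU
  obtain ⟨n1, hn1⟩ := zero_near hκ'
  obtain ⟨C, hC, hGG⟩ := GG0_real
  -- the gap
  set g : ℝ := 2 * κ' - κ with hg
  have hg0 : 0 < g := by linarith
  -- conditions on n
  obtain ⟨n2, hn2⟩ := exp_beats κ' 0 100000 (by linarith)
  obtain ⟨n3, hn3⟩ := exp_beats κ' (100 * (C + 1) * κ') 0 (by linarith)
  obtain ⟨n4, hn4⟩ := exp_beats g (5 * (C + 1) * κ') 0 hg0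
  obtain ⟨n5, hn5⟩ := exp_beats g 0 1000000 hg0
  refine ⟨N0 + n1 + n2 + n3 + n4 + n5, fun n k hn hk1 hk => ?_⟩
  have b2 := hn2 n (by omega)
  have b3 := hn3 n (by omega)
  have b4 := hn4 n (by omega)
  have b5 := hn5 n (by omega)
  set T : ℝ := Real.exp (κ' * n) with hTd
  have hn0 : (0 : ℝ) ≤ n := Nat.cast_nonneg n
  have hT : 100000 < T := by linarith
  have hT0 : 0 < T := by linarith
  have hlogT : Real.log T = κ' * n := Real.log_exp _
  have hk0 : (1 : ℝ) ≤ k := by exact_mod_cast hk1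
  have hkT : (k : ℝ) * Real.exp (g * n) ≤ T ^ 2 := by
    have : T ^ 2 = Real.exp (κ * n) * Real.exp (g * n) := by
      rw [hTd, ← Real.exp_nat_mul, ← Real.exp_add, hg]
      congr 1
      push_cast
      ring
    rw [this]
    exact mul_le_mul_of_nonneg_right hk (Real.exp_pos _).le
  have hge : 1 ≤ Real.exp (g * n) := Real.one_le_exp (by positivity)
  have hkT2 : (k : ℝ) ≤ T ^ 2 := by nlinarith
  have hline : ∀ ρ, iteratedDeriv n XX ρ = 0 → |ρ.im| ≤ T → ρ.re = 0 := by
    intro ρ hρ h1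
    by_contra h2
    exact hN0 n (by omega) ρ h1 ⟨hρ, Or.inl h2⟩
  have hGn : (GG n T).re ≤ (C + 1) * (κ' * n) := by
    have hTr : ((T : ℝ) : ℂ).re = T := Complex.ofReal_re T
    have h1 := GG_sub_le n (z := (T : ℂ)) (by rw [hTr]; linarith)
    rw [hTr] at h1
    have h2 := (abs_le.1 ((Complex.abs_re_le_norm _).trans h1)).2
    rw [Complex.sub_re] at h2
    have h3 := hGG T (by linarith)
    rw [hlogT] at h3
    have h4 : (n : ℝ) / (T - 1 / 2) ≤ κ' * n := by
      rw [div_le_iff₀ (by linarith)]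
      have h5 : (n : ℝ) ≤ κ' * n := by nlinarith
      have h6 : κ' * n * 1 ≤ κ' * n * (T - 1 / 2) :=
        mul_le_mul_of_nonneg_left (by linarith) (by linarith)
      linarith
    linarith
  have hGn0 : 0 ≤ (GG n T).re := GG_re_nonneg n (by rw [Complex.ofReal_re]; linarith)
  have hnear : ∀ t : ℝ, T / 200 ≤ t → t ≤ T → ∃ ρ, iteratedDeriv n XX ρ = 0 ∧ |ρ.im - t| ≤ 100 :=
    hn1 n (by omega)
  have hLow := fun S hS => lc_lower (n := n) (k := k) (T := T) hk1 (by linarith) hkT2 hline S hS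
  have hnear2 : ∀ t : ℝ, T / 200 ≤ t → t ≤ T - 100 →
      ∃ γ : ℝ, iteratedDeriv n XX (I * γ) = 0 ∧ |γ - t| ≤ 100 := by
    intro t h1 h2
    obtain ⟨ρ, h3, h4⟩ := hnear t h1 (by linarith)
    obtain ⟨h5, h6⟩ := abs_le.1 h4
    have h7 : ρ.re = 0 := hline ρ h3 (by rw [abs_le]; constructor <;> linarith)
    refine ⟨ρ.im, ?_, h4⟩
    have : I * (ρ.im : ℂ) = ρ := by
      apply Complex.ext
      · simp [h7]
      · simp
    rw [this]
    exact h3
  rcases le_or_gt (k : ℝ) T with hkk | hkk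
  · -- small k
    obtain ⟨γ, h1, h2⟩ := hnear2 (3 / 4 * T) (by linarith) (by linarith)
    obtain ⟨h3, h4⟩ := abs_le.1 h2
    have hγ1 : T / 2 ≤ γ := by linarith
    have hγ2 : γ ≤ T := by linarith
    have hγ0 : 0 < γ := by linarith
    have h5 := hLow {I * (γ : ℂ)} (by
      intro ρ hρ
      rw [Finset.mem_singleton] at hρ
      rw [hρ]
      exact h1)
    rw [Finset.sum_singleton, EE_line k hγ0] at h5
    obtain ⟨h6, h7⟩ := Th_bound (γ := γ) (by linarith)
    have h8 : 1 / (2 * T) ≤ Th γ := by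
      refine le_trans ?_ h6
      apply div_le_div_of_nonneg_left (by norm_num) (by linarith) (by linarith)
    have h9 : Th γ ≤ 2 / T := by
      refine h7.trans ?_
      rw [div_le_div_iff₀ hγ0 hT0]
      linarith
    have hx1 : k / (2 * T) ≤ k * Th γ := by
      have : (k : ℝ) / (2 * T) = k * (1 / (2 * T)) := by ring
      rw [this]
      exact mul_le_mul_of_nonneg_left h8 (by linarith)
    have hx0 : 0 ≤ k / (2 * T) := by positivity
    have hx2 : k * Th γ ≤ 2 := by
      calc (k : ℝ) * Th γ ≤ k * (2 / T) := mul_le_mul_of_nonneg_left h9 (by linarith)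
        _ = 2 * (k / T) := by ring
        _ ≤ 2 * 1 := by
            apply mul_le_mul_of_nonneg_left _ (by norm_num)
            rw [div_le_one hT0]
            exact hkk
        _ = 2 := by norm_num
    have hp3 := Real.pi_gt_three
    have hp4 := Real.pi_lt_d2
    have h10 := Real.cos_le_one_sub_mul_cos_sq (x := k * Th γ) (by
      rw [abs_of_nonneg (by linarith)]
      linarith)
    have h11 : 1 / 5 * (k / (2 * T)) ^ 2 ≤ 2 / Real.pi ^ 2 * (k * Th γ) ^ 2 := by
      have h12 : 1 / 5 ≤ 2 / Real.pi ^ 2 := by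
        rw [div_le_div_iff₀ (by norm_num) (by positivity)]
        nlinarith
      have h13 : (k / (2 * T)) ^ 2 ≤ (k * Th γ) ^ 2 := pow_le_pow_left₀ hx0 hx1 2
      exact mul_le_mul h12 h13 (by positivity) (by positivity)
    have h14 : 5 * (k : ℝ) ^ 2 / (2 * T ^ 3) * (GG n T).re < 1 / 5 * (k / (2 * T)) ^ 2 := by
      have e1 : 1 / 5 * ((k : ℝ) / (2 * T)) ^ 2 = 5 * (k : ℝ) ^ 2 / (2 * T ^ 3) * (T / 50) := by
        field_simp
        ring
      rw [e1]
      apply mul_lt_mul_of_pos_left _ (by positivity)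
      linarith
    linarith
  · -- large k
    set y : ℝ := k / T with hy
    have hy1 : 1 < y := by rw [hy, lt_div_iff₀ hT0]; linarith
    set M : ℕ := ⌈y⌉₊ with hM
    have hM1 : y ≤ M := Nat.le_ceil y
    have hM2 : (M : ℝ) < y + 1 := Nat.ceil_lt_add_one (by linarith)
    have hp3 := Real.pi_gt_three
    have hp4 := Real.pi_lt_d2
    -- phases
    have hph : ∀ i : ℕ, i < M → ∃ γ : ℝ, 0 < γ ∧ iteratedDeriv n XX (I * γ) = 0 ∧
        |k * Th γ - Real.pi * (2 * (M + i) + 1)| ≤ 1 := by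
      intro i hi
      have hi' : (i : ℝ) + 1 ≤ M := by exact_mod_cast hi
      have hi0 : (0 : ℝ) ≤ i := Nat.cast_nonneg i
      set φ : ℝ := Real.pi * (2 * (M + i) + 1) with hφ
      have hφ1 : 2 * y ≤ φ := by rw [hφ]; nlinarith
      have hφ2 : φ ≤ 35 * y := by
        have : 2 * ((M : ℝ) + i) + 1 ≤ 4 * y + 3 := by linarith
        rw [hφ]
        nlinarith
      have hφ0 : 0 < φ := by linarith
      set x : ℝ := φ / k with hx
      have hkp : (0 : ℝ) < k := by linarith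
      have hkx : k * x = φ := by rw [hx]; field_simp
      have hyT : y * T = k := by rw [hy]; field_simp
      have hx1 : x ≤ 35 / T := by
        rw [hx, div_le_div_iff₀ hkp hT0]
        calc φ * T ≤ 35 * y * T := mul_le_mul_of_nonneg_right hφ2 hT0.le
          _ = 35 * k := by rw [mul_assoc, hyT]
      have hx2 : 2 / T ≤ x := by
        rw [hx, div_le_div_iff₀ hT0 hkp]
        calc 2 * (k : ℝ) = 2 * y * T := by rw [mul_assoc, hyT]
          _ ≤ φ * T := mul_le_mul_of_nonneg_right hφ1 hT0.le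
      have hx0 : 0 < x := by positivity
      obtain ⟨γs, hγ1, hγ2, hTh⟩ := phase (by linarith) hx2 hx1
      obtain ⟨γ, h1, h2⟩ := hnear2 γs (by linarith) (by linarith)
      obtain ⟨h3, h4⟩ := abs_le.1 h2
      have hγp : T / 100 ≤ γ := by linarith
      have hγ0 : 0 < γ := by linarith
      have hγs0 : 0 < γs := by linarith
      refine ⟨γ, hγ0, h1, ?_⟩
      have h5 := Th_lip (a := γ) (b := γs) hγ0 (by linarith)
      rw [hTh] at h5
      have e1 : k * Th γ - φ = k * (Th γ - x) := by rw [mul_sub, hkx]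
      rw [e1, abs_mul, abs_of_pos hkp]
      have h6 : |γ - γs| / (γ * γs) ≤ 1000000 / T ^ 2 := by
        rw [div_le_div_iff₀ (by positivity) (by positivity)]
        have h7 : T / 100 * (T / 100) ≤ γ * γs :=
          mul_le_mul hγp (by linarith) (by positivity) hγ0.le
        calc |γ - γs| * T ^ 2 ≤ 100 * T ^ 2 := mul_le_mul_of_nonneg_right h2 (by positivity)
          _ = 1000000 * (T / 100 * (T / 100)) := by ring
          _ ≤ 1000000 * (γ * γs) := mul_le_mul_of_nonneg_left h7 (by norm_num)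
      have h8 : (k : ℝ) * (1000000 / T ^ 2) ≤ 1 := by
        rw [← mul_div_assoc, div_le_one (by positivity)]
        nlinarith
      calc (k : ℝ) * |Th γ - x| ≤ k * (1000000 / T ^ 2) :=
            mul_le_mul_of_nonneg_left (h5.trans h6) hkp.le
        _ ≤ 1 := h8
    choose! γf hγf using hph
    -- the finite set of zeros
    set S : Finset ℂ := (Finset.range M).image (fun i => I * (γf i : ℂ)) with hSd
    have hinj : Set.InjOn (fun i => I * (γf i : ℂ)) (Finset.range M) := by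
      intro i hi j hj hij
      rw [Finset.coe_range, Set.mem_Iio] at hi hj
      have e1 : γf i = γf j := by
        have := mul_left_cancel₀ I_ne_zero hij
        exact_mod_cast this
      have a1 := (hγf i hi).2.2
      have a2 := (hγf j hj).2.2
      rw [e1] at a1
      have a3 : |Real.pi * (2 * (M + i) + 1) - Real.pi * (2 * (M + j) + 1)| ≤ 2 := by
        have e2 : Real.pi * (2 * ((M : ℝ) + i) + 1) - Real.pi * (2 * (M + j) + 1) =
            (k * Th (γf j) - Real.pi * (2 * (M + j) + 1)) -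
            (k * Th (γf j) - Real.pi * (2 * (M + i) + 1)) := by ring
        rw [e2]
        refine (abs_sub _ _).trans ?_
        linarith
      have e3 : Real.pi * (2 * ((M : ℝ) + i) + 1) - Real.pi * (2 * (M + j) + 1) =
          2 * Real.pi * ((i : ℝ) - j) := by ring
      rw [e3, abs_mul, abs_of_pos (by positivity)] at a3
      have a4 : |(i : ℝ) - j| < 1 := by
        by_contra hc
        push Not at hc
        nlinarith
      have a5 : |((i : ℤ) - j : ℤ)| < 1 := by exact_mod_cast a4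
      rw [Int.abs_lt_one_iff] at a5
      omega
    have hS0 : ∀ ρ ∈ S, iteratedDeriv n XX ρ = 0 := by
      intro ρ hρ
      obtain ⟨i, hi, rfl⟩ := Finset.mem_image.1 hρ
      exact (hγf i (Finset.mem_range.1 hi)).2.1
    have h5 := hLow S hS0
    have h6 : (2 : ℝ) * M ≤ ∑ ρ ∈ S, EE k ρ := by
      rw [hSd, Finset.sum_image hinj]
      have : ∀ i ∈ Finset.range M, (2 : ℝ) ≤ EE k (I * (γf i : ℂ)) := by
        intro i hi
        obtain ⟨a1, a2, a3⟩ := hγf i (Finset.mem_range.1 hi)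
        rw [EE_line k a1]
        have a4 : Real.cos (k * Th (γf i)) = -Real.cos (k * Th (γf i) -
            Real.pi * (2 * (M + i) + 1)) := by
          have e1 : k * Th (γf i) = (k * Th (γf i) - Real.pi * (2 * (M + i) + 1)) + Real.pi +
              ((M + i : ℕ) : ℝ) * (2 * Real.pi) := by
            push_cast
            ring
          conv_lhs => rw [e1]
          rw [Real.cos_add_nat_mul_two_pi, Real.cos_add_pi]
        have a5 : 0 ≤ Real.cos (k * Th (γf i) - Real.pi * (2 * (M + i) + 1)) := by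
          obtain ⟨a6, a7⟩ := abs_le.1 a3
          apply Real.cos_nonneg_of_mem_Icc
          constructor <;> linarith
        linarith
      have h7 := Finset.card_nsmul_le_sum (Finset.range M) (fun i => EE k (I * (γf i : ℂ))) 2 this
      rw [Finset.card_range, nsmul_eq_mul] at h7
      linarith
    have h7 : 5 * (k : ℝ) ^ 2 / (2 * T ^ 3) * (GG n T).re < y := by
      have e1 : y = 5 * (k : ℝ) ^ 2 / (2 * T ^ 3) * (2 * T ^ 2 / (5 * k)) := by
        rw [hy]
        field_simp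
      rw [e1]
      apply mul_lt_mul_of_pos_left _ (by positivity)
      rw [lt_div_iff₀ (by positivity)]
      have h8 : (GG n T).re * (5 * k) ≤ (C + 1) * (κ' * n) * (5 * k) :=
        mul_le_mul_of_nonneg_right hGn (by positivity)
      have h9 : 5 * (C + 1) * κ' * n * k < T ^ 2 := by
        have : 5 * (C + 1) * κ' * n * k < Real.exp (g * n) * k := by
          apply mul_lt_mul_of_pos_right _ (by linarith)
          linarith
        linarith
      nlinarith
    linarith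

end Pool.Agent.K3h51.Li
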