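import Pool.Agent.H24R2.DZ.Strip
import Pool.Agent.TH803.LG.AppF

set_option autoImplicit false

/-!
# Symmetric multisets of zeros approximating the derivatives of `XX`
-/

namespace Pool.Agent.K3h51.Li

open Complex Filter Topology Polynomial Metric
open Pool.Agent.H24R2.JP (XX FF TI b1 xder had_split had_base had_lim grow gam)
open Pool.Agent.H24R2.JP.B1h (XX_diff XX_conj XX_neg iter_conj)

/-- Hadamard factorisation (genus 0) by polynomials; zeros in large discs are roots. -/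
theorem had' (f : ℂ → ℂ) (K : ℝ) (hf : Differentiable ℂ f) (h0 : f 0 ≠ 0)
    (hsym : ∀ x, f ((starRingEnd ℂ) x) = (starRingEnd ℂ) (f x))
    (hb : ∀ x, ‖f x‖ ≤ Real.exp (K * (1 + ‖x‖) ^ (3 / 4 : ℝ))) :
    ∃ P : ℕ → ℝ[X], (∀ (N : ℕ) (x : ℂ), aeval x (P N) = 0 → f x = 0) ∧
      (∀ (N : ℕ) (x : ℂ), ‖x‖ < (N : ℝ) + 1 → f x = 0 → aeval x (P N) = 0) ∧
      TendstoLocallyUniformly (fun (N : ℕ) (x : ℂ) => aeval x (P N)) f atTop := by
  set K' : ℝ := max K 0 with hK'
  have hK0 : 0 ≤ K' := le_max_right _ _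
  have hbr : ∀ r : ℝ, ∀ w : ℂ, ‖w‖ ≤ r → ‖f w‖ ≤ Real.exp (K' * (1 + r) ^ (3/4 : ℝ)) := by
    intro r w hw
    refine (hb w).trans (Real.exp_le_exp.2 ?_)
    calc K * (1 + ‖w‖) ^ (3/4 : ℝ) ≤ K' * (1 + ‖w‖) ^ (3/4 : ℝ) :=
          mul_le_mul_of_nonneg_right (le_max_left _ _)
            (Real.rpow_nonneg (by linarith [norm_nonneg w]) _)
      _ ≤ K' * (1 + r) ^ (3/4 : ℝ) :=
          mul_le_mul_of_nonneg_left (Real.rpow_le_rpow (by linarith [norm_nonneg w])
            (by linarith) (by norm_num)) hK0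
  have h00 : ((f 0).re : ℂ) = f 0 := by
    apply Complex.conj_eq_iff_re.1
    rw [← hsym, map_zero]
  have hre0 : (f 0).re ≠ 0 := by
    intro h
    apply h0
    rw [← h00, h]
    simp
  set c : ℝ := |Real.log ‖f 0‖| with hc
  have main : ∀ N : ℕ, ∃ (P : ℝ[X]) (L : ℂ → ℂ), (∀ w, aeval w P = 0 → f w = 0) ∧
      ∀ w : ℂ, ‖w‖ < (N : ℝ) + 1 → f w = aeval w P * cexp (L w) ∧
        ‖L w‖ ≤ 2 * (K' * (1 + 2 * ((N : ℝ) + 1)) ^ (3/4 : ℝ) + c) *
          (‖w‖ / (((N : ℝ) + 1) - ‖w‖)) := by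
    intro N
    have hρ : 0 < (N : ℝ) + 1 := by positivity
    obtain ⟨n, hn⟩ := exists_nat_ge
      (∑ᶠ u, (MeromorphicOn.divisor f (closedBall 0 ((N : ℝ) + 1)) u : ℝ) * 1)
    obtain ⟨P, G, hG, hG0, hGb, hFG, hnz⟩ := had_split (M := K' * (1 + 2 * ((N : ℝ) + 1)) ^
      (3/4 : ℝ)) hρ n f hf h0 hsym (fun w hw => hbr _ w (by simpa using hw)) hn
    obtain ⟨L, hA, hL⟩ := had_base hG hρ (fun u hu => hnz u (ball_subset_closedBall hu))
      (fun w hw => hGb w (ball_subset_closedBall (ball_subset_ball (by linarith) hw)))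
    refine ⟨Polynomial.C (f 0).re * P, L, ?_, ?_⟩
    · intro w hw
      rw [map_mul, aeval_C, Complex.coe_algebraMap] at hw
      rw [hFG w]
      rcases mul_eq_zero.1 hw with h | h
      · exact absurd (by exact_mod_cast h) hre0
      · rw [h, zero_mul]
    · intro w hw
      obtain ⟨h1, h2⟩ := hL w hw
      constructor
      · rw [hFG w, h1, hG0, map_mul, aeval_C, Complex.coe_algebraMap, h00]
        ring
      · refine h2.trans ?_
        apply mul_le_mul_of_nonneg_right _ (div_nonneg (norm_nonneg _) (by linarith))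
        rw [hG0]
        have := neg_abs_le (Real.log ‖f 0‖)
        linarith
  choose P L h1 h2 using main
  refine ⟨P, h1, fun N x hx hx0 => ?_, ?_⟩
  · have h := (h2 N x hx).1
    rw [hx0] at h
    rcases mul_eq_zero.1 h.symm with h | h
    · exact h
    · exact absurd h (Complex.exp_ne_zero _)
  rw [Metric.tendstoLocallyUniformly_iff]
  intro ε hε x
  set r : ℝ := ‖x‖ + 1 with hr
  have hr0 : 0 < r := by positivity
  set B : ℝ := Real.exp (K' * (1 + r) ^ (3/4 : ℝ)) with hB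
  have hB0 : 0 < B := Real.exp_pos _
  refine ⟨ball 0 r, ?_, ?_⟩
  · apply isOpen_ball.mem_nhds
    simp [hr]
  have hδ : 0 < min 1 (ε / (2 * B)) := by positivity
  filter_upwards [had_lim hK0 hr0 (abs_nonneg (Real.log ‖f 0‖)) hδ] with N hN
  intro y hy
  have hyr : ‖y‖ < r := by simpa using hy
  obtain ⟨hN1, hN2⟩ := hN
  obtain ⟨h3, h4⟩ := h2 N y (hyr.trans hN1)
  have h5 : ‖y‖ / (((N : ℝ) + 1) - ‖y‖) ≤ r / (((N : ℝ) + 1) - r) := by
    apply div_le_div₀ hr0.le hyr.le (by linarith) (by linarith)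
  have h6 : 0 ≤ 2 * (K' * (1 + 2 * ((N : ℝ) + 1)) ^ (3/4 : ℝ) + c) := by positivity
  have h7 : ‖L N y‖ < min 1 (ε / (2 * B)) :=
    lt_of_le_of_lt (h4.trans (mul_le_mul_of_nonneg_left h5 h6)) hN2
  have h8 : ‖L N y‖ < 1 := h7.trans_le (min_le_left _ _)
  have h9 : ‖L N y‖ < ε / (2 * B) := h7.trans_le (min_le_right _ _)
  have h10 : aeval y (P N) = f y * cexp (-(L N y)) := by
    rw [h3, mul_assoc, ← Complex.exp_add]
    simp
  rw [dist_eq_norm, h10]
  have h11 : f y - f y * cexp (-(L N y)) = -(f y * (cexp (-(L N y)) - 1)) := by ring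
  rw [h11, norm_neg, norm_mul]
  have h12 : ‖cexp (-(L N y)) - 1‖ ≤ 2 * ‖-(L N y)‖ :=
    Complex.norm_exp_sub_one_le (by rw [norm_neg]; exact h8.le)
  rw [norm_neg] at h12
  have h13 : ‖f y‖ ≤ B := hbr r y hyr.le
  calc ‖f y‖ * ‖cexp (-(L N y)) - 1‖ ≤ B * (2 * ‖L N y‖) :=
        mul_le_mul h13 h12 (norm_nonneg _) hB0.le
    _ < B * (2 * (ε / (2 * B))) := by
        apply mul_lt_mul_of_pos_left _ hB0
        linarith
    _ = ε := by field_simp

/-- The `n`-th derivative is `z ^ (n % 2)` times an entire function of `z ^ 2`. -/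
theorem splitG (n : ℕ) : ∃ G : ℂ → ℂ, Differentiable ℂ G ∧
    ∀ z, iteratedDeriv n XX z = z ^ (n % 2) * G (z ^ 2) := by
  have hx := xder b1
  have hF := b1.1
  rcases Nat.even_or_odd' n with ⟨m, rfl | rfl⟩
  · refine ⟨fun x => 4 ^ m * TI (1 / 2) m (iteratedDeriv m FF) x, ?_, fun z => ?_⟩
    · exact (Pool.Agent.H24R2.JP.OpBase.TI_diff _ _
        (Pool.Agent.H24R2.JP.OpBase.diff_iter hF m)).const_mul _
    · rw [(hx m z).1, Nat.mul_mod_right, pow_zero, one_mul]
  · refine ⟨fun x => 2 * 4 ^ m * TI (3 / 2) m (iteratedDeriv (m + 1) FF) x, ?_, fun z => ?_⟩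
    · exact (Pool.Agent.H24R2.JP.OpBase.TI_diff _ _
        (Pool.Agent.H24R2.JP.OpBase.diff_iter hF (m + 1))).const_mul _
    · rw [(hx m z).2]
      have : (2 * m + 1) % 2 = 1 := by omega
      rw [this]
      ring

theorem ff_diff (n : ℕ) : Differentiable ℂ (iteratedDeriv n XX) :=
  Pool.Agent.H24R2.JP.OpBase.diff_iter XX_diff n

theorem ff_conj (n : ℕ) (z : ℂ) :
    iteratedDeriv n XX ((starRingEnd ℂ) z) = (starRingEnd ℂ) (iteratedDeriv n XX z) :=
  iter_conj XX XX_conj n z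

theorem ff_strip {n : ℕ} {z : ℂ} (h : iteratedDeriv n XX z = 0) : |z.re| ≤ 1 / 2 :=
  Pool.Agent.H24R2.DZ.strip n z h

theorem ff_ne {n : ℕ} {z : ℂ} (h : 1 / 2 < z.re) : iteratedDeriv n XX z ≠ 0 := fun h0 => by
  have h1 := ff_strip h0
  have h2 := le_abs_self z.re
  linarith

theorem ff_growth (n : ℕ) : ∃ K : ℝ, 0 ≤ K ∧ ∀ z : ℂ,
    ‖iteratedDeriv n XX z‖ ≤ Real.exp (K * (1 + ‖z‖ ^ 2) ^ (3 / 4 : ℝ)) := by
  obtain ⟨K, hK0, hK⟩ := Pool.Agent.TH803.LG.XX_growth
  have hfac : (1 : ℝ) ≤ n.factorial := by exact_mod_cast n.factorial_pos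
  have hlog : 0 ≤ Real.log n.factorial := Real.log_nonneg hfac
  refine ⟨Real.log n.factorial + 3 * K, by positivity, fun z => ?_⟩
  have hbase : 1 ≤ (1 + ‖z‖ ^ 2) ^ (3 / 4 : ℝ) :=
    Real.one_le_rpow (by nlinarith [sq_nonneg ‖z‖]) (by norm_num)
  have h1 : ∀ w ∈ sphere z 1, ‖XX w‖ ≤ Real.exp (3 * K * (1 + ‖z‖ ^ 2) ^ (3 / 4 : ℝ)) := by
    intro w hw
    refine (hK w).trans (Real.exp_le_exp.2 ?_)
    have hw1 : ‖w‖ ≤ ‖z‖ + 1 := by
      have h2 : ‖w - z‖ = 1 := by simpa [dist_eq_norm] using hw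
      calc ‖w‖ = ‖z + (w - z)‖ := by congr 1; ring
        _ ≤ ‖z‖ + ‖w - z‖ := norm_add_le _ _
        _ = ‖z‖ + 1 := by rw [h2]
    have h3 : 1 + ‖w‖ ^ 2 ≤ 3 * (1 + ‖z‖ ^ 2) := by
      have : ‖w‖ ^ 2 ≤ (‖z‖ + 1) ^ 2 := pow_le_pow_left₀ (norm_nonneg _) hw1 2
      nlinarith [sq_nonneg (‖z‖ - 1)]
    have h4 : (1 + ‖w‖ ^ 2) ^ (3 / 4 : ℝ) ≤ 3 * (1 + ‖z‖ ^ 2) ^ (3 / 4 : ℝ) := by
      calc (1 + ‖w‖ ^ 2) ^ (3 / 4 : ℝ) ≤ (3 * (1 + ‖z‖ ^ 2)) ^ (3 / 4 : ℝ) :=
            Real.rpow_le_rpow (by positivity) h3 (by norm_num)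
        _ = 3 ^ (3 / 4 : ℝ) * (1 + ‖z‖ ^ 2) ^ (3 / 4 : ℝ) :=
            Real.mul_rpow (by norm_num) (by positivity)
        _ ≤ 3 * (1 + ‖z‖ ^ 2) ^ (3 / 4 : ℝ) := by
            refine mul_le_mul_of_nonneg_right ?_ (by positivity)
            calc (3 : ℝ) ^ (3 / 4 : ℝ) ≤ 3 ^ (1 : ℝ) :=
                  Real.rpow_le_rpow_of_exponent_le (by norm_num) (by norm_num)
              _ = 3 := Real.rpow_one 3
    nlinarith
  have h2 := Complex.norm_iteratedDeriv_le_of_forall_mem_sphere_norm_le n (c := z) (R := 1)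
    (f := XX) one_pos (XX_diff.diffContOnCl) h1
  rw [one_pow, div_one] at h2
  refine h2.trans ?_
  have h3 : (n.factorial : ℝ) = Real.exp (Real.log n.factorial) :=
    (Real.exp_log (by linarith)).symm
  conv_lhs => rw [h3]
  rw [← Real.exp_add]
  apply Real.exp_le_exp.2
  nlinarith

/-- a square root function -/
noncomputable def rt (x : ℂ) : ℂ := x ^ (((2 : ℕ) : ℂ)⁻¹)

theorem rt_sq (x : ℂ) : rt x ^ 2 = x := Complex.cpow_nat_inv_pow x (by norm_num)

/-- Approximation of `f` by products over symmetric multisets of its zeros. -/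
structure Ap (f : ℂ → ℂ) (Z : ℕ → Multiset ℂ) (c : ℕ → ℂ) : Prop where
  zero : ∀ N, ∀ ρ ∈ Z N, f ρ = 0
  ex : ∀ ρ, f ρ = 0 → ∀ᶠ N in atTop, ρ ∈ Z N
  neg : ∀ N, (Z N).map (fun ρ => -ρ) = Z N
  lim : TendstoLocallyUniformly (fun (N : ℕ) (z : ℂ) => c N * ((Z N).map (fun ρ => z - ρ)).prod) f atTop

theorem ap (n : ℕ) : ∃ Z c, Ap (iteratedDeriv n XX) Z c := by
  obtain ⟨G, hG, hfG⟩ := splitG n
  obtain ⟨K, hK0, hK⟩ := ff_growth n
  set e : ℕ := n % 2 with he
  have hG1 : G 1 ≠ 0 := by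
    intro h
    have h1 := hfG 1
    rw [one_pow, one_pow, one_mul, h] at h1
    exact ff_ne (n := n) (z := 1) (by norm_num) h1
  have hsym : ∀ x, G ((starRingEnd ℂ) x) = (starRingEnd ℂ) (G x) := by
    have h : (fun x => G ((starRingEnd ℂ) x)) = fun x => (starRingEnd ℂ) (G x) := by
      apply Continuous.ext_on (dense_compl_singleton (0 : ℂ))
        (hG.continuous.comp Complex.continuous_conj) (Complex.continuous_conj.comp hG.continuous)
      intro x hx
      obtain ⟨z, rfl⟩ := Pool.Agent.TH803.LG.exists_sq x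
      have hz : z ≠ 0 := by
        rintro rfl
        exact hx (by simp)
      have h1 := ff_conj n z
      rw [hfG, hfG, map_mul, map_pow, ← map_pow (starRingEnd ℂ) z 2] at h1
      exact mul_left_cancel₀ (pow_ne_zero _ ((_root_.map_ne_zero _).2 hz)) h1
    exact fun x => congrFun h x
  obtain ⟨B, hB⟩ := (isCompact_closedBall (0 : ℂ) 1).exists_bound_of_continuousOn
    hG.continuous.continuousOn
  have hB1 : 1 ≤ |B| + 1 := by linarith [abs_nonneg B]
  have hlB : 0 ≤ Real.log (|B| + 1) := Real.log_nonneg hB1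
  set K2 : ℝ := K + Real.log (|B| + 1) with hK2
  have hK20 : 0 ≤ K2 := by positivity
  have hGg : ∀ x, ‖G x‖ ≤ Real.exp (K2 * (1 + ‖x‖) ^ (3 / 4 : ℝ)) := by
    intro x
    have hb1 : 1 ≤ (1 + ‖x‖) ^ (3 / 4 : ℝ) :=
      Real.one_le_rpow (by linarith [norm_nonneg x]) (by norm_num)
    rcases le_total ‖x‖ 1 with hx | hx
    · have h1 : ‖G x‖ ≤ B := hB x (by simpa using hx)
      have h2 : B ≤ Real.exp (Real.log (|B| + 1)) := by
        rw [Real.exp_log (by linarith)]
        linarith [le_abs_self B]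
      refine (h1.trans h2).trans (Real.exp_le_exp.2 ?_)
      have : Real.log (|B| + 1) ≤ K2 := by rw [hK2]; linarith
      nlinarith
    · obtain ⟨z, rfl⟩ := Pool.Agent.TH803.LG.exists_sq x
      have hz1 : 1 ≤ ‖z‖ := by
        rw [norm_pow] at hx
        by_contra hc
        push Not at hc
        nlinarith [norm_nonneg z]
      have h1 := hK z
      rw [hfG, norm_mul, norm_pow] at h1
      have h2 : ‖G (z ^ 2)‖ ≤ ‖z‖ ^ e * ‖G (z ^ 2)‖ :=
        le_mul_of_one_le_left (norm_nonneg _) (one_le_pow₀ hz1)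
      refine (h2.trans h1).trans (Real.exp_le_exp.2 ?_)
      rw [norm_pow] at hb1 ⊢
      have : K ≤ K2 := by rw [hK2]; linarith
      exact mul_le_mul_of_nonneg_right this (by positivity)
  obtain ⟨P, hP1, hP2, hP3⟩ := had' (fun x => G (x + 1)) (K2 * 2)
    (hG.comp (differentiable_id.add_const 1)) (by simpa using hG1)
    (fun x => by
      have e1 : (starRingEnd ℂ) x + 1 = (starRingEnd ℂ) (x + 1) := by simp
      show G ((starRingEnd ℂ) x + 1) = _
      rw [e1, hsym])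
    (fun x => by
      refine (hGg (x + 1)).trans (Real.exp_le_exp.2 ?_)
      rw [mul_assoc K2 2]
      refine mul_le_mul_of_nonneg_left ?_ hK20
      have h1 : 1 + ‖x + 1‖ ≤ 2 * (1 + ‖x‖) := by
        have := norm_add_le x 1
        rw [norm_one] at this
        linarith [norm_nonneg x]
      calc (1 + ‖x + 1‖) ^ (3 / 4 : ℝ) ≤ (2 * (1 + ‖x‖)) ^ (3 / 4 : ℝ) :=
            Real.rpow_le_rpow (by positivity) h1 (by norm_num)
        _ = 2 ^ (3 / 4 : ℝ) * (1 + ‖x‖) ^ (3 / 4 : ℝ) := Real.mul_rpow (by norm_num) (by positivity)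
        _ ≤ 2 * (1 + ‖x‖) ^ (3 / 4 : ℝ) := by
            refine mul_le_mul_of_nonneg_right ?_ (by positivity)
            calc (2 : ℝ) ^ (3 / 4 : ℝ) ≤ 2 ^ (1 : ℝ) :=
                  Real.rpow_le_rpow_of_exponent_le (by norm_num) (by norm_num)
              _ = 2 := Real.rpow_one 2)
  set p : ℕ → ℂ[X] := fun N => ((P N).map (algebraMap ℝ ℂ)).comp (X - C 1) with hp
  have hpe : ∀ N x, (p N).eval x = aeval (x - 1) (P N) := by
    intro N x
    rw [hp]
    simp only [eval_comp, eval_sub, eval_X, eval_C, eval_map_algebraMap]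
  have hroot : ∀ N x, (p N).eval x = 0 → G x = 0 := by
    intro N x hx
    rw [hpe] at hx
    have := hP1 N _ hx
    simpa using this
  have hroot2 : ∀ (N : ℕ) (x : ℂ), ‖x - 1‖ < (N : ℝ) + 1 → G x = 0 → (p N).eval x = 0 := by
    intro N x h1 h2
    rw [hpe]
    exact hP2 N _ h1 (by simpa using h2)
  have hp0 : ∀ N, p N ≠ 0 := by
    intro N h
    apply hG1
    apply hroot N
    rw [h, eval_zero]
  have hplim : TendstoLocallyUniformly (fun (N : ℕ) (x : ℂ) => (p N).eval x) G atTop := by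
    have h1 := hP3.comp (fun x : ℂ => x - 1) (by fun_prop)
    have e1 : ((fun x => G (x + 1)) ∘ fun x : ℂ => x - 1) = G := by
      funext x
      simp
    rw [e1] at h1
    refine h1.congr (fun N x => ?_)
    simp only [Function.comp_apply, hpe]
  set R : ℕ → Multiset ℂ := fun N => (p N).roots with hR
  have hmemR : ∀ N x, x ∈ R N ↔ (p N).eval x = 0 := by
    intro N x
    rw [hR]
    simp only [mem_roots (hp0 N), IsRoot.def]
  refine ⟨fun N => Multiset.replicate e 0 + ((R N).map rt + (R N).map (fun x => -rt x)),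
    fun N => (p N).leadingCoeff, ?_, ?_, ?_, ?_⟩
  · intro N ρ hρ
    rw [hfG]
    rcases Multiset.mem_add.1 hρ with h | h
    · have h1 := Multiset.eq_of_mem_replicate h
      have h2 : e ≠ 0 := by
        rintro h3
        rw [h3] at h
        simp at h
      rw [h1, zero_pow h2, zero_mul]
    · rcases Multiset.mem_add.1 h with h | h
      · obtain ⟨x, hx, rfl⟩ := Multiset.mem_map.1 h
        rw [rt_sq, hroot N x ((hmemR N x).1 hx), mul_zero]
      · obtain ⟨x, hx, rfl⟩ := Multiset.mem_map.1 h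
        rw [neg_sq, rt_sq, hroot N x ((hmemR N x).1 hx), mul_zero]
  · intro ρ hρ
    rw [hfG] at hρ
    rcases mul_eq_zero.1 hρ with h | h
    · have h1 : ρ = 0 := by
        by_contra hne
        exact (pow_ne_zero _ hne) h
      have h2 : e ≠ 0 := by
        rintro h3
        rw [h3, pow_zero] at h
        exact one_ne_zero h
      refine Eventually.of_forall fun N => ?_
      rw [h1]
      refine Multiset.mem_add.2 (Or.inl ?_)
      exact Multiset.mem_replicate.2 ⟨h2, rfl⟩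
    · have h3 : ∀ᶠ N : ℕ in atTop, ‖ρ ^ 2 - 1‖ < (N : ℝ) + 1 := by
        filter_upwards [eventually_ge_atTop ⌈‖ρ ^ 2 - 1‖⌉₊] with N hN
        have := Nat.le_ceil ‖ρ ^ 2 - 1‖
        have h4 : ((⌈‖ρ ^ 2 - 1‖⌉₊ : ℕ) : ℝ) ≤ N := by exact_mod_cast hN
        linarith
      filter_upwards [h3] with N hN
      have h4 : ρ ^ 2 ∈ R N := (hmemR N _).2 (hroot2 N _ hN h)
      have h5 : ρ ^ 2 = rt (ρ ^ 2) ^ 2 := (rt_sq _).symm
      refine Multiset.mem_add.2 (Or.inr (Multiset.mem_add.2 ?_))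
      rcases sq_eq_sq_iff_eq_or_eq_neg.1 h5 with h6 | h6
      · left
        exact Multiset.mem_map.2 ⟨_, h4, h6.symm⟩
      · right
        exact Multiset.mem_map.2 ⟨_, h4, h6.symm⟩
  · intro N
    rw [Multiset.map_add, Multiset.map_add, Multiset.map_replicate, Multiset.map_map,
      Multiset.map_map, neg_zero]
    congr 1
    rw [add_comm]
    congr 1
    apply Multiset.map_congr rfl
    intro x _
    simp
  · have hprod : ∀ N z, (p N).leadingCoeff * ((Multiset.replicate e 0 +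
        ((R N).map rt + (R N).map (fun x => -rt x))).map (fun ρ => z - ρ)).prod =
        z ^ e * (p N).eval (z ^ 2) := by
      intro N z
      rw [Multiset.map_add, Multiset.map_add, Multiset.prod_add, Multiset.prod_add,
        Multiset.map_replicate, Multiset.prod_replicate, sub_zero, Multiset.map_map,
        Multiset.map_map, ← Multiset.prod_map_mul]
      have h1 := (IsAlgClosed.splits (p N)).eq_prod_roots
      conv_rhs => rw [h1]
      rw [eval_mul, eval_C, eval_multiset_prod, Multiset.map_map]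
      have h2 : ((R N).map fun i => ((fun ρ => z - ρ) ∘ rt) i * ((fun ρ => z - ρ) ∘ fun x => -rt x) i) =
          (R N).map ((eval (z ^ 2)) ∘ fun a => X - C a) := by
        apply Multiset.map_congr rfl
        intro x _
        simp only [Function.comp_apply, eval_sub, eval_X, eval_C]
        have := rt_sq x
        linear_combination -this
      rw [h2]
      ring
    have h1 : TendstoLocallyUniformly (fun (_ : ℕ) (z : ℂ) => z ^ e) (fun z => z ^ e) atTop := by
      rw [Metric.tendstoLocallyUniformly_iff]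
      intro ε hε x
      exact ⟨Set.univ, univ_mem, Eventually.of_forall fun N y _ => by simpa using hε⟩
    have h2 := hplim.comp (fun z : ℂ => z ^ 2) (by fun_prop)
    have h3 := h1.mul₀ h2 (by fun_prop) (hG.continuous.comp (by fun_prop))
    have h4 : ((fun z : ℂ => z ^ e) * (G ∘ fun z => z ^ 2)) = iteratedDeriv n XX := by
      funext z
      rw [hfG]
      rfl
    rw [h4] at h3
    refine h3.congr (fun N z => ?_)
    rw [hprod]
    rfl

end Pool.Agent.K3h51.Li
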