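import Pool.Agent.K3h51.Li.Sum

set_option autoImplicit false

/-!
# The logarithmic derivatives of the derivatives of `XX`
-/

namespace Pool.Agent.K3h51.Li

open Complex Filter Topology Metric
open Pool.Agent.H24R2.JP (XX)

noncomputable def GG (n : ℕ) : ℂ → ℂ := logDeriv (iteratedDeriv n XX)

theorem re_term (z ρ : ℂ) : (1 / (z - ρ)).re = (z.re - ρ.re) * (1 / ‖z - ρ‖ ^ 2) := by
  rw [one_div, Complex.inv_re, Complex.normSq_eq_norm_sq, Complex.sub_re]
  ring

theorem re_sum (Z : Multiset ℂ) (f : ℂ → ℂ) :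
    ((Z.map f).sum).re = (Z.map fun z => (f z).re).sum := by
  induction Z using Multiset.induction_on with
  | empty => simp
  | cons a Z ih => simp [ih]

theorem gs_re (Z : Multiset ℂ) (z : ℂ) :
    (gs Z z).re = (Z.map fun ρ => (z.re - ρ.re) * (1 / ‖z - ρ‖ ^ 2)).sum := by
  unfold gs
  rw [re_sum]
  congr 1
  exact Multiset.map_congr rfl fun ρ _ => re_term z ρ

def Strp (Z : Multiset ℂ) : Prop := ∀ ρ ∈ Z, |ρ.re| ≤ 1 / 2

theorem as_nonneg (Z : Multiset ℂ) (z : ℂ) : 0 ≤ As Z z := by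
  unfold As
  refine Multiset.sum_nonneg fun x hx => ?_
  obtain ⟨ρ, _, rfl⟩ := Multiset.mem_map.1 hx
  positivity

theorem as_le {Z : Multiset ℂ} (h : Strp Z) (z : ℂ) :
    (z.re - 1 / 2) * As Z z ≤ (gs Z z).re := by
  rw [gs_re]
  unfold As
  rw [← Multiset.sum_map_mul_left]
  refine Multiset.sum_map_le_sum_map _ _ fun ρ hρ => ?_
  have h1 := (abs_le.1 (h ρ hρ)).2
  refine mul_le_mul_of_nonneg_right (by linarith) (by positivity)

theorem le_as {Z : Multiset ℂ} (h : Strp Z) (z : ℂ) :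
    (gs Z z).re ≤ (z.re + 1 / 2) * As Z z := by
  rw [gs_re]
  unfold As
  rw [← Multiset.sum_map_mul_left]
  refine Multiset.sum_map_le_sum_map _ _ fun ρ hρ => ?_
  have h1 := (abs_le.1 (h ρ hρ)).1
  refine mul_le_mul_of_nonneg_right (by linarith) (by positivity)

theorem dgs_le (Z : Multiset ℂ) (z : ℂ) :
    ‖-(Z.map fun ρ => 1 / (z - ρ) ^ 2).sum‖ ≤ As Z z := by
  rw [norm_neg]
  refine (norm_multiset_sum_le _).trans ?_
  rw [Multiset.map_map]
  unfold As
  refine Multiset.sum_map_le_sum_map _ _ fun ρ _ => ?_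
  simp only [Function.comp_apply, norm_div, norm_one, norm_pow]
  exact le_rfl

theorem Ap.strp {n : ℕ} {Z : ℕ → Multiset ℂ} {c : ℕ → ℂ} (h : Ap (iteratedDeriv n XX) Z c) (N : ℕ) :
    Strp (Z N) := fun ρ hρ => ff_strip (h.zero N ρ hρ)

theorem GG_apply (n : ℕ) (z : ℂ) :
    GG n z = iteratedDeriv (n + 1) XX z / iteratedDeriv n XX z := by
  unfold GG
  rw [logDeriv_apply, iteratedDeriv_succ]

theorem GG_deriv_le (n : ℕ) {z : ℂ} (hz : 1 / 2 < z.re) :
    (z.re - 1 / 2) * ‖deriv (GG n) z‖ ≤ (GG n z).re := by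
  obtain ⟨Z, c, h⟩ := ap n
  have h0 := ff_ne (n := n) hz
  have h1 := (gs_lim h h0)
  have h2 := (Complex.continuous_re.tendsto _).comp h1
  have h3 := ((dgs_lim h h0).norm).const_mul (z.re - 1 / 2)
  refine le_of_tendsto_of_tendsto h3 h2 (Eventually.of_forall fun N => ?_)
  refine (mul_le_mul_of_nonneg_left (dgs_le (Z N) z) (by linarith)).trans ?_
  exact as_le (h.strp N) z

theorem GG_re_nonneg (n : ℕ) {z : ℂ} (hz : 1 / 2 < z.re) : 0 ≤ (GG n z).re :=
  le_trans (mul_nonneg (by linarith) (norm_nonneg _)) (GG_deriv_le n hz)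

theorem GG_ne (n : ℕ) {z : ℂ} (hz : 1 / 2 < z.re) : GG n z ≠ 0 := by
  rw [GG_apply]
  exact div_ne_zero (ff_ne hz) (ff_ne hz)

theorem GG_succ (n : ℕ) {z : ℂ} (hz : 1 / 2 < z.re) :
    GG (n + 1) z = GG n z + deriv (GG n) z / GG n z := by
  have h0 := ff_ne (n := n) hz
  have h1 := ff_ne (n := n + 1) hz
  have d0 : HasDerivAt (iteratedDeriv n XX) (iteratedDeriv (n + 1) XX z) z := by
    have := (ff_diff n z).hasDerivAt
    rwa [← iteratedDeriv_succ] at this
  have d1 : HasDerivAt (iteratedDeriv (n + 1) XX) (iteratedDeriv (n + 2) XX z) z := by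
    have := (ff_diff (n + 1) z).hasDerivAt
    rwa [← iteratedDeriv_succ] at this
  have e : GG n = iteratedDeriv (n + 1) XX / iteratedDeriv n XX := by
    funext w
    rw [GG_apply]
    rfl
  have d2 := d1.div d0 h0
  rw [← e] at d2
  rw [d2.deriv, GG_apply, GG_apply]
  field_simp
  ring

theorem GG_sub_le (n : ℕ) {z : ℂ} (hz : 1 / 2 < z.re) :
    ‖GG n z - GG 0 z‖ ≤ n / (z.re - 1 / 2) := by
  induction n with
  | zero => simp
  | succ n ih =>
    have hx : 0 < z.re - 1 / 2 := by linarith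
    have h1 : ‖deriv (GG n) z / GG n z‖ ≤ 1 / (z.re - 1 / 2) := by
      rw [norm_div, div_le_div_iff₀ (norm_pos_iff.2 (GG_ne n hz)) hx]
      have h2 := GG_deriv_le n hz
      have h3 := Complex.re_le_norm (GG n z)
      linarith
    have e : GG (n + 1) z - GG 0 z = (GG n z - GG 0 z) + deriv (GG n) z / GG n z := by
      rw [GG_succ n hz]
      ring
    rw [e]
    refine (norm_add_le _ _).trans ?_
    push_cast
    rw [add_div]
    exact add_le_add ih h1

theorem GG_conj (n : ℕ) (z : ℂ) : GG n ((starRingEnd ℂ) z) = (starRingEnd ℂ) (GG n z) := by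
  rw [GG_apply, GG_apply, ff_conj, ff_conj, map_div₀]

theorem GG_real (n : ℕ) (x : ℝ) : ((GG n x).re : ℂ) = GG n x := by
  apply Complex.conj_eq_iff_re.1
  rw [← GG_conj, Complex.conj_ofReal]

/-! ## The real axis -/

theorem pr_grow {Z : Multiset ℂ} (h : Strp Z) {x : ℝ} (hx : 10 ≤ x) :
    ‖pr Z x‖ * Real.exp (x ^ 2 / 5 * As Z x) ≤ ‖pr Z ((2 * x : ℝ) : ℂ)‖ := by
  induction Z using Multiset.induction_on with
  | empty => simp [pr, As]
  | cons a Z ih =>
    have h1 : |a.re| ≤ 1 / 2 := h a (Multiset.mem_cons_self a Z)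
    have h2 := ih fun ρ hρ => h ρ (Multiset.mem_cons_of_mem hρ)
    have e1 : ∀ z, pr (a ::ₘ Z) z = (z - a) * pr Z z := by
      intro z
      unfold pr
      rw [Multiset.map_cons, Multiset.prod_cons]
    have e2 : As (a ::ₘ Z) x = 1 / ‖(x : ℂ) - a‖ ^ 2 + As Z x := by
      unfold As
      rw [Multiset.map_cons, Multiset.sum_cons]
    obtain ⟨h3, h4⟩ := abs_le.1 h1
    have n1 : ‖(x : ℂ) - a‖ ^ 2 = (x - a.re) ^ 2 + a.im ^ 2 := by
      rw [← Complex.normSq_eq_norm_sq, Complex.normSq_apply]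
      simp
      ring
    have n2 : ‖((2 * x : ℝ) : ℂ) - a‖ ^ 2 = (2 * x - a.re) ^ 2 + a.im ^ 2 := by
      rw [← Complex.normSq_eq_norm_sq, Complex.normSq_apply]
      simp
      ring
    have hd : 0 < ‖(x : ℂ) - a‖ ^ 2 := by
      rw [n1]
      nlinarith [sq_nonneg a.im]
    have key : ‖(x : ℂ) - a‖ * Real.exp (x ^ 2 / 5 * (1 / ‖(x : ℂ) - a‖ ^ 2)) ≤
        ‖((2 * x : ℝ) : ℂ) - a‖ := by
      have h5 : ‖(x : ℂ) - a‖ ^ 2 * Real.exp (x ^ 2 / 5 * (1 / ‖(x : ℂ) - a‖ ^ 2)) ^ 2 ≤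
          ‖((2 * x : ℝ) : ℂ) - a‖ ^ 2 := by
        rw [← Real.exp_nat_mul]
        set d : ℝ := ‖(x : ℂ) - a‖ ^ 2 with hdd
        set y : ℝ := (3 * x ^ 2 - 2 * x * a.re) / d with hy
        have hyd : y * d = 3 * x ^ 2 - 2 * x * a.re := by rw [hy]; field_simp
        have hy2 : 2 * x ^ 2 / d ≤ y := by
          rw [hy]
          apply div_le_div_of_nonneg_right _ hd.le
          nlinarith
        have hy0 : 0 ≤ y := le_trans (by positivity) hy2
        have hy4 : y ≤ 4 := by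
          rw [hy, div_le_iff₀ hd, n1]
          nlinarith [sq_nonneg a.im]
        have h6 : y / 5 ≤ Real.log (1 + y) := by
          have := Real.one_sub_inv_le_log_of_pos (show 0 < 1 + y by linarith)
          refine le_trans ?_ this
          have h7 : 1 - (1 + y)⁻¹ = y / (1 + y) := by
            field_simp
            ring
          rw [h7]
          apply div_le_div_of_nonneg_left hy0 (by linarith) (by linarith)
        have h8 : ((2 : ℕ) : ℝ) * (x ^ 2 / 5 * (1 / d)) ≤ Real.log (1 + y) := by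
          refine le_trans ?_ h6
          push_cast
          have : 2 * (x ^ 2 / 5 * (1 / d)) = 2 * x ^ 2 / d / 5 := by ring
          rw [this]
          linarith
        have h9 : Real.exp (((2 : ℕ) : ℝ) * (x ^ 2 / 5 * (1 / d))) ≤ 1 + y := by
          rw [← Real.le_log_iff_exp_le (by linarith)]
          exact h8
        calc d * Real.exp (((2 : ℕ) : ℝ) * (x ^ 2 / 5 * (1 / d))) ≤ d * (1 + y) :=
              mul_le_mul_of_nonneg_left h9 hd.le
          _ = _ := by rw [n2]; nlinarith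
      rw [← mul_pow] at h5
      exact le_of_sq_le_sq h5 (norm_nonneg _)
    rw [e1, e1, e2, norm_mul, norm_mul, mul_add, Real.exp_add]
    calc ‖(x : ℂ) - a‖ * ‖pr Z x‖ * (Real.exp (x ^ 2 / 5 * (1 / ‖(x : ℂ) - a‖ ^ 2)) *
          Real.exp (x ^ 2 / 5 * As Z x)) = (‖(x : ℂ) - a‖ *
          Real.exp (x ^ 2 / 5 * (1 / ‖(x : ℂ) - a‖ ^ 2))) * (‖pr Z x‖ *
          Real.exp (x ^ 2 / 5 * As Z x)) := by ring
      _ ≤ _ := mul_le_mul key h2 (by positivity) (norm_nonneg _)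

theorem pr_mono {Z : Multiset ℂ} (h : Strp Z) {x : ℝ} (hx : 10 ≤ x) :
    ‖pr Z (10 : ℝ)‖ ≤ ‖pr Z x‖ := by
  induction Z using Multiset.induction_on with
  | empty => simp [pr]
  | cons a Z ih =>
    have h1 : |a.re| ≤ 1 / 2 := h a (Multiset.mem_cons_self a Z)
    have h2 := ih fun ρ hρ => h ρ (Multiset.mem_cons_of_mem hρ)
    have e1 : ∀ z, pr (a ::ₘ Z) z = (z - a) * pr Z z := by
      intro z
      unfold pr
      rw [Multiset.map_cons, Multiset.prod_cons]
    obtain ⟨h3, h4⟩ := abs_le.1 h1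
    rw [e1, e1, norm_mul, norm_mul]
    refine mul_le_mul ?_ h2 (norm_nonneg _) (norm_nonneg _)
    refine le_of_sq_le_sq ?_ (norm_nonneg _)
    rw [← Complex.normSq_eq_norm_sq, ← Complex.normSq_eq_norm_sq, Complex.normSq_apply,
      Complex.normSq_apply]
    simp only [Complex.sub_re, Complex.sub_im, Complex.ofReal_re, Complex.ofReal_im]
    nlinarith

theorem lim_at {f : ℂ → ℂ} {Z : ℕ → Multiset ℂ} {c : ℕ → ℂ} (h : Ap f Z c) (z : ℂ) :
    Tendsto (fun N => ‖c N‖ * ‖pr (Z N) z‖) atTop (𝓝 ‖f z‖) := by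
  have h1 := ((tendstoLocallyUniformlyOn_univ.2 h.lim').tendsto_at (Set.mem_univ z)).norm
  simpa only [norm_mul] using h1

theorem GG0_real_aux {x : ℝ} (hx : 10 ≤ x) :
    ‖XX (10 : ℝ)‖ * Real.exp (x / 10 * (GG 0 x).re) ≤ ‖XX ((2 * x : ℝ) : ℂ)‖ := by
  obtain ⟨Z, c, h⟩ := ap 0
  have hz : (1 / 2 : ℝ) < ((x : ℝ) : ℂ).re := by rw [Complex.ofReal_re]; linarith
  have h0 := ff_ne (n := 0) hz
  have h1 := (Complex.continuous_re.tendsto _).comp (gs_lim h h0)
  have h2 : Tendsto (fun N => ‖c N‖ * ‖pr (Z N) (10 : ℝ)‖ *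
      Real.exp (x / 10 * (gs (Z N) x).re)) atTop
      (𝓝 (‖iteratedDeriv 0 XX (10 : ℝ)‖ * Real.exp (x / 10 * (GG 0 x).re))) := by
    refine (lim_at h _).mul ?_
    exact (Real.continuous_exp.tendsto _).comp (h1.const_mul (x / 10))
  have h3 := lim_at h ((2 * x : ℝ) : ℂ)
  rw [iteratedDeriv_zero] at h2 h3
  refine le_of_tendsto_of_tendsto h2 h3 (Eventually.of_forall fun N => ?_)
  have h4 := pr_grow (h.strp N) hx
  have h5 := pr_mono (h.strp N) hx
  have h6 := le_as (h.strp N) (x : ℂ)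
  rw [Complex.ofReal_re] at h6
  have h7 := as_nonneg (Z N) x
  have h8 : x / 10 * (gs (Z N) x).re ≤ x ^ 2 / 5 * As (Z N) x := by
    have : x / 10 * (gs (Z N) x).re ≤ x / 10 * ((x + 1 / 2) * As (Z N) x) :=
      mul_le_mul_of_nonneg_left h6 (by positivity)
    refine this.trans ?_
    have : x / 10 * ((x + 1 / 2) * As (Z N) x) = (x / 10 * (x + 1 / 2)) * As (Z N) x := by ring
    rw [this]
    refine mul_le_mul_of_nonneg_right ?_ h7
    nlinarith
  simp only
  calc ‖c N‖ * ‖pr (Z N) (10 : ℝ)‖ * Real.exp (x / 10 * (gs (Z N) x).re)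
      ≤ ‖c N‖ * ‖pr (Z N) x‖ * Real.exp (x ^ 2 / 5 * As (Z N) x) := by
        gcongr
    _ = ‖c N‖ * (‖pr (Z N) x‖ * Real.exp (x ^ 2 / 5 * As (Z N) x)) := by ring
    _ ≤ _ := mul_le_mul_of_nonneg_left h4 (norm_nonneg _)

theorem XX_real_growth : ∃ C : ℝ, 1 ≤ C ∧ ∀ x : ℝ, 10 ≤ x →
    ‖XX ((2 * x : ℝ) : ℂ)‖ ≤ Real.exp (C * (x * Real.log x)) := by
  obtain ⟨A, -, hA⟩ := Pool.Agent.Helper242.KK.Ph_upper
  obtain ⟨C, hC, hb⟩ := Pool.Agent.Helper242.KK.FT_upper
    Pool.Agent.Helper242.KK.continuous_Ph hA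
  refine ⟨5 + 3 * C, by linarith, fun x hx => ?_⟩
  have h0 : (1 / 2 : ℂ) + ((2 * x : ℝ) : ℂ) ≠ 0 := by
    intro h
    have := congrArg Complex.re h
    simp at this
    linarith
  have h1 : (1 / 2 : ℂ) + ((2 * x : ℝ) : ℂ) ≠ 1 := by
    intro h
    have := congrArg Complex.re h
    simp at this
    linarith
  rw [Pool.Agent.H24R2.JP.XX_eq_FT_aux _ h0 h1, norm_mul]
  have e2 := hb (-I * ((2 * x : ℝ) : ℂ))
  have him : |(-I * ((2 * x : ℝ) : ℂ)).im| = 2 * x := by
    have : (-I * ((2 * x : ℝ) : ℂ)).im = -(2 * x) := by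
      simp
    rw [this, abs_neg, abs_of_nonneg (by linarith)]
  rw [him] at e2
  have hlx : 1 ≤ Real.log x := by
    rw [Real.le_log_iff_exp_le (by linarith)]
    have := Real.exp_one_lt_d9
    linarith
  have h8 : (8 : ℝ) ≤ Real.exp 3 := by
    have : (2 : ℝ) ≤ Real.exp 1 := by
      have := Real.add_one_le_exp (1 : ℝ); linarith
    have h := pow_le_pow_left₀ (by norm_num) this 3
    rw [← Real.exp_nat_mul] at h
    norm_num at h
    exact h
  have hlog : Real.log (2 + 2 * x) ≤ 2 * Real.log x := by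
    have : 2 + 2 * x ≤ x ^ 2 := by nlinarith
    have h2 := Real.log_le_log (by linarith) this
    rw [Real.log_pow] at h2
    push_cast at h2
    exact h2
  calc ‖(8 : ℂ)‖ * ‖Pool.Agent.Helper242.KK.FT Pool.Agent.Helper242.KK.Ph
        (-I * ((2 * x : ℝ) : ℂ))‖
      ≤ Real.exp 3 * Real.exp (2 * x / 2 * Real.log (2 + 2 * x) + C * (1 + 2 * x)) := by
        apply mul_le_mul _ e2 (norm_nonneg _) (Real.exp_pos _).le
        simpa using h8
    _ = Real.exp (3 + (2 * x / 2 * Real.log (2 + 2 * x) + C * (1 + 2 * x))) := by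
        rw [← Real.exp_add]
    _ ≤ Real.exp ((5 + 3 * C) * (x * Real.log x)) := by
        apply Real.exp_le_exp.2
        have h2 : 2 * x / 2 * Real.log (2 + 2 * x) ≤ 2 * (x * Real.log x) := by
          have : x * Real.log (2 + 2 * x) ≤ x * (2 * Real.log x) :=
            mul_le_mul_of_nonneg_left hlog (by linarith)
          linarith
        have h3 : x ≤ x * Real.log x := by nlinarith
        have h4 : C * (1 + 2 * x) ≤ C * (3 * (x * Real.log x)) := by
          apply mul_le_mul_of_nonneg_left _ hC.le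
          linarith
        linarith

/-- `XX'/XX` on the real axis is `O(log x)` -/
theorem GG0_real : ∃ C : ℝ, 1 ≤ C ∧ ∀ x : ℝ, 10 ≤ x → (GG 0 x).re ≤ C * Real.log x := by
  obtain ⟨C, hC, hb⟩ := XX_real_growth
  have h10 : 0 < ‖XX (10 : ℝ)‖ := by
    rw [norm_pos_iff]
    have := ff_ne (n := 0) (z := ((10 : ℝ) : ℂ)) (by rw [Complex.ofReal_re]; norm_num)
    rwa [iteratedDeriv_zero] at this
  set a : ℝ := |Real.log ‖XX (10 : ℝ)‖| with ha
  have ha0 : 0 ≤ a := abs_nonneg _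
  refine ⟨10 * C + a, by linarith, fun x hx => ?_⟩
  have h1 := (GG0_real_aux hx).trans (hb x hx)
  have h2 : ‖XX (10 : ℝ)‖ = Real.exp (Real.log ‖XX (10 : ℝ)‖) := (Real.exp_log h10).symm
  rw [h2, ← Real.exp_add, Real.exp_le_exp] at h1
  have h3 : -a ≤ Real.log ‖XX (10 : ℝ)‖ := neg_abs_le _
  have hlx : 1 ≤ Real.log x := by
    rw [Real.le_log_iff_exp_le (by linarith)]
    have := Real.exp_one_lt_d9
    linarith
  have h4 : x / 10 * (GG 0 x).re ≤ x / 10 * ((10 * C + a) * Real.log x) := by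
    have h5 : a ≤ x / 10 * (a * Real.log x) := by
      have h6 : 1 ≤ x / 10 * Real.log x := by nlinarith
      nlinarith
    nlinarith
  exact le_of_mul_le_mul_left h4 (by positivity)

end Pool.Agent.K3h51.Li
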