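import Pool.Agent.K3h51.Li.B
import Pool.Agent.H24R2.DZ.XB

set_option autoImplicit false

/-!
# Zeros in every interval of bounded length
-/

namespace Pool.Agent.K3h51.Li

open Complex Filter Topology Metric
open Pool.Agent.H24R2.JP (XX)

theorem base (R : ℝ) : ∃ K T0 : ℝ, 0 ≤ K ∧ 1 ≤ T0 ∧ ∀ t x : ℝ, T0 ≤ t → 10 ≤ x → x ≤ R →
    ‖GG 0 (I * t + x) - ((Real.log t / 2 : ℝ) : ℂ)‖ ≤ K := by
  obtain ⟨K, T0, h1, h2⟩ := Pool.Agent.H24R2.DZ.xb R
  refine ⟨|K|, T0, abs_nonneg _, h1, fun t x ht hx hxR => ?_⟩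
  have h3 := (h2 t (x : ℂ) ht (by
    rw [Complex.norm_real, Real.norm_eq_abs, abs_of_nonneg (by linarith)]; exact hxR)).2
    (by rw [Complex.ofReal_re]; exact hx)
  unfold GG
  rw [iteratedDeriv_zero]
  exact h3.2.2.trans (le_abs_self K)

theorem mem_re (t x : ℝ) : (I * (t : ℂ) + (x : ℂ)).re = x := by simp

theorem mem_im (t x : ℝ) : (I * (t : ℂ) + (x : ℂ)).im = t := by simp

theorem ex_zero (n : ℕ) (t : ℝ)
    (hz : ∀ ρ, iteratedDeriv n XX ρ = 0 → 100 < |ρ.im - t|) :
    (GG n (I * t + (10 : ℝ))).re ≤ 42 * ((GG n (I * t + (100 : ℝ))).re / (199 / 2)) := by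
  obtain ⟨Z, c, h⟩ := ap n
  have r1 := mem_re t 10
  have r2 := mem_re t 100
  have i1 := mem_im t 10
  have i2 := mem_im t 100
  set z : ℂ := I * t + (10 : ℝ) with hzd
  set z' : ℂ := I * t + (100 : ℝ) with hzd'
  have h1 := (Complex.continuous_re.tendsto _).comp
    (gs_lim h (ff_ne (n := n) (z := z) (by rw [r1]; norm_num)))
  have h2 := (Complex.continuous_re.tendsto _).comp
    (gs_lim h (ff_ne (n := n) (z := z') (by rw [r2]; norm_num)))
  refine le_of_tendsto_of_tendsto h1 ((h2.div_const (199 / 2)).const_mul 42)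
    (Eventually.of_forall fun N => ?_)
  have a1 := le_as (h.strp N) z
  have a2 := as_le (h.strp N) z'
  rw [r1] at a1
  rw [r2] at a2
  have a3 : As (Z N) z ≤ 4 * As (Z N) z' := by
    unfold As
    rw [← Multiset.sum_map_mul_left]
    refine Multiset.sum_map_le_sum_map _ _ fun ρ hρ => ?_
    have b1 := hz ρ (h.zero N ρ hρ)
    have b2 : 100 < ‖z - ρ‖ := by
      have := Complex.abs_im_le_norm (z - ρ)
      rw [Complex.sub_im, i1, abs_sub_comm] at this
      linarith
    have b3 : ‖z' - ρ‖ ≤ 2 * ‖z - ρ‖ := by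
      have : z' - ρ = (z - ρ) + 90 := by
        rw [hzd, hzd']
        push_cast
        ring
      rw [this]
      refine (norm_add_le _ _).trans ?_
      have : ‖(90 : ℂ)‖ = 90 := by simp
      rw [this]
      linarith
    have b4 : 0 < ‖z' - ρ‖ := by
      have b5 := Complex.abs_im_le_norm (z' - ρ)
      rw [Complex.sub_im, i2, abs_sub_comm] at b5
      linarith
    have b5 : ‖z' - ρ‖ ^ 2 ≤ 4 * ‖z - ρ‖ ^ 2 := by nlinarith
    have b6 : 0 < ‖z - ρ‖ ^ 2 := by positivity
    rw [mul_one_div, div_le_div_iff₀ b6 (by positivity)]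
    linarith
  simp only [Function.comp_apply]
  have a4 := as_nonneg (Z N) z'
  have a5 : As (Z N) z' ≤ (gs (Z N) z').re / (199 / 2) := by
    rw [le_div_iff₀ (by norm_num)]
    linarith
  linarith

/-- In every interval of length 200 up to height `exp (κ n)` there is a zero. -/
theorem zero_near {κ : ℝ} (hκ : 1 ≤ κ) : ∃ n1 : ℕ, ∀ n : ℕ, n1 ≤ n → ∀ t : ℝ,
    Real.exp (κ * n) / 200 ≤ t → t ≤ Real.exp (κ * n) →
    ∃ ρ, iteratedDeriv n XX ρ = 0 ∧ |ρ.im - t| ≤ 100 := by
  obtain ⟨K, T0, hK, hT0, hb⟩ := base 100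
  refine ⟨⌈100 + 10 * K + Real.log (200 * T0)⌉₊, fun n hn t ht1 ht2 => ?_⟩
  by_contra hcon
  push Not at hcon
  have hn' : 100 + 10 * K + Real.log (200 * T0) ≤ n := by
    have := Nat.le_ceil (100 + 10 * K + Real.log (200 * T0))
    have h2 : ((⌈100 + 10 * K + Real.log (200 * T0)⌉₊ : ℕ) : ℝ) ≤ n := by exact_mod_cast hn
    linarith
  have hl0 : 0 ≤ Real.log (200 * T0) := Real.log_nonneg (by linarith)
  have hn0 : (0 : ℝ) ≤ n := Nat.cast_nonneg n
  set m : ℝ := κ * n with hm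
  have hmn : (n : ℝ) ≤ m := by rw [hm]; nlinarith
  have hexp : Real.exp (Real.log (200 * T0)) ≤ Real.exp m := Real.exp_le_exp.2 (by linarith)
  rw [Real.exp_log (by linarith)] at hexp
  have htT : T0 ≤ t := by linarith
  have ht0 : 0 < t := by linarith
  have hl1 : Real.log t ≤ m := by
    rw [Real.log_le_iff_le_exp ht0]
    exact ht2
  have hl2 : m - 6 ≤ Real.log t := by
    rw [Real.le_log_iff_exp_le ht0]
    refine le_trans ?_ ht1
    rw [Real.exp_sub]
    apply div_le_div_of_nonneg_left (Real.exp_pos _).le (by norm_num)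
    have h6 : (27 / 10 : ℝ) ≤ Real.exp 1 := by
      have := Real.exp_one_gt_d9
      linarith
    have h := pow_le_pow_left₀ (by norm_num) h6 6
    rw [← Real.exp_nat_mul] at h
    norm_num at h
    linarith
  have key := ex_zero n t hcon
  have c1 := GG_sub_le n (z := I * t + (10 : ℝ)) (by rw [mem_re]; norm_num)
  have c2 := GG_sub_le n (z := I * t + (100 : ℝ)) (by rw [mem_re]; norm_num)
  rw [mem_re] at c1 c2
  have d1 := hb t 10 htT le_rfl (by norm_num)
  have d2 := hb t 100 htT (by norm_num) le_rfl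
  have e1 := (Complex.abs_re_le_norm _).trans c1
  have e2 := (Complex.abs_re_le_norm _).trans c2
  have e3 := (Complex.abs_re_le_norm _).trans d1
  have e4 := (Complex.abs_re_le_norm _).trans d2
  rw [Complex.sub_re] at e1 e2
  rw [Complex.sub_re, Complex.ofReal_re] at e3 e4
  have f1 := (abs_le.1 e1).1
  have f2 := (abs_le.1 e2).2
  have f3 := (abs_le.1 e3).1
  have f4 := (abs_le.1 e4).2
  have g1 : (n : ℝ) / (10 - 1 / 2) ≤ m / (19 / 2) := by
    have : (10 : ℝ) - 1 / 2 = 19 / 2 := by norm_num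
    rw [this]
    exact div_le_div_of_nonneg_right hmn (by norm_num)
  have g2 : (n : ℝ) / (100 - 1 / 2) ≤ m / (199 / 2) := by
    have : (100 : ℝ) - 1 / 2 = 199 / 2 := by norm_num
    rw [this]
    exact div_le_div_of_nonneg_right hmn (by norm_num)
  linarith

end Pool.Agent.K3h51.Li
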