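import Pool.Agent.K3h51.Li.Pair
import Pool.Agent.TH803.LG.RHq

set_option autoImplicit false

/-!
# The Riemann hypothesis and the Li coefficients
-/

namespace Pool.Agent.K3h51.Li

open Complex Filter Topology Metric Set
open Pool.Agent.H24R2.JP (XX)
open Pool.Agent.H24R2.JP.B1h (iter_conj XX_diff)

theorem ff_neg {n : ℕ} {z : ℂ} (h : iteratedDeriv n XX z = 0) : iteratedDeriv n XX (-z) = 0 := by
  obtain ⟨G, -, hG⟩ := splitG n
  rw [hG] at h ⊢
  rw [neg_sq]
  rcases mul_eq_zero.1 h with h | h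
  · have h1 : z = 0 := by
      by_contra hne
      exact (pow_ne_zero _ hne) h
    rw [h1] at h ⊢
    rw [neg_zero, h, zero_mul]
  · rw [h, mul_zero]

theorem ff_conj_zero {n : ℕ} {z : ℂ} (h : iteratedDeriv n XX z = 0) :
    iteratedDeriv n XX ((starRingEnd ℂ) z) = 0 := by
  rw [ff_conj, h, map_zero]

/-- every derivative of `XX` has a zero -/
theorem ex_zero' (n : ℕ) : ∃ ρ, iteratedDeriv n XX ρ = 0 := by
  by_contra hcon
  push Not at hcon
  obtain ⟨Z, c, h⟩ := ap n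
  have hZ : ∀ N, Z N = 0 := by
    intro N
    rw [Multiset.eq_zero_iff_forall_notMem]
    intro ρ hρ
    exact hcon ρ (h.zero N ρ hρ)
  have h1 := gs_lim h (hcon 1)
  have h2 : ∀ N, gs (Z N) 1 = 0 := by
    intro N
    rw [hZ N]
    simp [gs]
  simp only [h2] at h1
  have h3 := tendsto_nhds_unique h1 tendsto_const_nhds
  exact GG_ne n (z := 1) (by norm_num) h3

theorem line_succ {n : ℕ} (h : ∀ ρ, iteratedDeriv n XX ρ = 0 → ρ.re = 0) :
    ∀ ρ, iteratedDeriv (n + 1) XX ρ = 0 → ρ.re = 0 := by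
  have key : ∀ z, iteratedDeriv (n + 1) XX z = 0 → ¬ 0 < z.re := by
    intro z hz hre
    have h0 : iteratedDeriv n XX z ≠ 0 := fun h1 => by
      have := h z h1
      linarith
    obtain ⟨ρ1, hρ1⟩ := ex_zero' n
    obtain ⟨Z, c, hA⟩ := ap n
    have h1 := (Complex.continuous_re.tendsto _).comp (gs_lim hA h0)
    have h2 : (logDeriv (iteratedDeriv n XX) z).re = 0 := by
      rw [logDeriv_apply, ← iteratedDeriv_succ, hz, zero_div, Complex.zero_re]
    rw [h2] at h1
    have hne : z ≠ ρ1 := fun h3 => h0 (by rw [h3]; exact hρ1)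
    have hpos : 0 < z.re * (1 / ‖z - ρ1‖ ^ 2) := by
      have : 0 < ‖z - ρ1‖ := norm_pos_iff.2 (sub_ne_zero.2 hne)
      positivity
    have h3 : z.re * (1 / ‖z - ρ1‖ ^ 2) ≤ 0 := by
      refine ge_of_tendsto h1 ?_
      filter_upwards [hA.ex ρ1 hρ1] with N hN
      simp only [Function.comp_apply]
      rw [gs_re]
      have h4 : ((Z N).map fun ρ => (z.re - ρ.re) * (1 / ‖z - ρ‖ ^ 2)) =
          (Z N).map fun ρ => z.re * (1 / ‖z - ρ‖ ^ 2) := by
        apply Multiset.map_congr rfl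
        intro ρ hρ
        rw [h ρ (hA.zero N ρ hρ), sub_zero]
      rw [h4]
      refine Multiset.single_le_sum (fun x hx => ?_) _ (Multiset.mem_map.2 ⟨ρ1, hN, rfl⟩)
      obtain ⟨ρ, _, rfl⟩ := Multiset.mem_map.1 hx
      positivity
    linarith
  intro ρ hρ
  have h1 := key ρ hρ
  have h2 := key (-ρ) (ff_neg hρ)
  rw [Complex.neg_re] at h2
  linarith

theorem rh_line (hRH : RiemannHypothesis) (n : ℕ) : ∀ ρ, iteratedDeriv n XX ρ = 0 → ρ.re = 0 := by
  induction n with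
  | zero =>
    intro ρ hρ
    rw [iteratedDeriv_zero] at hρ
    exact Pool.Agent.TH803.LG.re_zero hRH ρ hρ
  | succ n ih => exact line_succ ih

theorem rh_nonneg (hRH : RiemannHypothesis) (n : ℕ) {k : ℕ} : 0 ≤ (lc n k).re := by
  obtain ⟨Z, c, h⟩ := ap n
  have h1 := (Complex.continuous_re.tendsto _).comp (lc_lim h k)
  refine ge_of_tendsto' h1 fun N => ?_
  simp only [Function.comp_apply]
  rw [Ss_pair (h.neg N)]
  refine mul_nonneg (by norm_num) (Multiset.sum_nonneg fun x hx => ?_)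
  obtain ⟨ρ, hρ, rfl⟩ := Multiset.mem_map.1 hx
  exact EE_nonneg _ (rh_line hRH n ρ (h.zero N ρ hρ))

/-! ## The converse -/

noncomputable def FF' (n : ℕ) (w : ℂ) : ℂ := iteratedDeriv n XX (zw w)

theorem FF'_conj (n : ℕ) (w : ℂ) : FF' n ((starRingEnd ℂ) w) = (starRingEnd ℂ) (FF' n w) := by
  unfold FF' zw
  rw [← ff_conj]
  congr 1
  simp only [map_sub, map_div₀, map_one, map_ofNat]

theorem La_conj (n : ℕ) (w : ℂ) :
    logDeriv (FF' n) ((starRingEnd ℂ) w) = (starRingEnd ℂ) (logDeriv (FF' n) w) := by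
  rw [logDeriv_apply, logDeriv_apply, map_div₀, FF'_conj]
  congr 1
  have := iter_conj (FF' n) (FF'_conj n) 1 w
  rwa [iteratedDeriv_one] at this

theorem lc_real (n k : ℕ) : (((lc n k).re : ℝ) : ℂ) = lc n k := by
  apply Complex.conj_eq_iff_re.1
  rw [lc_eq, map_div₀]
  have h := iter_conj (logDeriv (FF' n)) (La_conj n) (k - 1) 0
  rw [map_zero] at h
  have h2 : (starRingEnd ℂ) ((k - 1).factorial : ℂ) = ((k - 1).factorial : ℂ) := by
    simp
  rw [h2]
  congr 1
  exact h.symm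

theorem zw_diff {w : ℂ} (hw : w ≠ 1) : DifferentiableAt ℂ zw w := by
  have : 1 - w ≠ 0 := sub_ne_zero.2 (Ne.symm hw)
  unfold zw
  exact ((differentiableAt_const _).div (by fun_prop) this).sub_const _

theorem FF'_diff (n : ℕ) {w : ℂ} (hw : w ≠ 1) : DifferentiableAt ℂ (FF' n) w :=
  (ff_diff n _).comp w (zw_diff hw)

/-- A function whose logarithmic derivative is bounded on the open disc does not vanish on
the circle. -/
theorem no_zero {F : ℂ → ℂ} {w0 : ℂ} {M : ℝ}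
    (hd : ∀ w, ‖w‖ ≤ ‖w0‖ → DifferentiableAt ℂ F w) (hc : ContinuousAt (deriv F) w0)
    (hb : ∀ w, ‖w‖ < ‖w0‖ → ‖deriv F w‖ ≤ M * ‖F w‖) (h0 : F w0 = 0) (hw0 : w0 ≠ 0) : F 0 = 0 := by
  have hn0 : 0 < ‖w0‖ := norm_pos_iff.2 hw0
  have hd0 : ‖deriv F w0‖ ≤ M * ‖F w0‖ := by
    have hF : ContinuousAt F w0 := (hd w0 le_rfl).continuousAt
    have ht : Tendsto (fun t : ℝ => ((1 - t : ℝ) : ℂ) * w0) (𝓝[>] 0) (𝓝 w0) := by
      have : Tendsto (fun t : ℝ => ((1 - t : ℝ) : ℂ) * w0) (𝓝 0) (𝓝 (((1 - 0 : ℝ) : ℂ) * w0)) := by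
        refine Tendsto.mul_const _ ?_
        exact (Complex.continuous_ofReal.tendsto _).comp (tendsto_const_nhds.sub tendsto_id)
      simp only [sub_zero, Complex.ofReal_one, one_mul] at this
      exact this.mono_left nhdsWithin_le_nhds
    have h1 := (hc.tendsto.comp ht).norm
    have h2 := ((hF.tendsto.comp ht).norm).const_mul M
    refine le_of_tendsto_of_tendsto h1 h2 ?_
    have : ∀ᶠ t : ℝ in 𝓝[>] 0, t < 1 := by
      exact (eventually_lt_nhds (by norm_num : (0 : ℝ) < 1)).filter_mono nhdsWithin_le_nhds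
    filter_upwards [this, self_mem_nhdsWithin] with t ht1 ht0
    rw [mem_Ioi] at ht0
    apply hb
    rw [norm_mul, Complex.norm_real, Real.norm_eq_abs, abs_of_pos (by linarith)]
    nlinarith
  set y : ℝ → ℂ := fun t => F (((1 - t : ℝ) : ℂ) * w0) with hy
  have hder : ∀ t ∈ Icc (0 : ℝ) 1, HasDerivAt y (-w0 * deriv F (((1 - t : ℝ) : ℂ) * w0)) t := by
    intro t ht
    have h1 : HasDerivAt (fun t : ℝ => ((1 - t : ℝ) : ℂ) * w0) (-w0) t := by
      have h2 : HasDerivAt (fun t : ℝ => ((1 - t : ℝ) : ℂ)) (-1) t := by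
        have := ((hasDerivAt_id t).const_sub 1).ofReal_comp
        simpa using this
      simpa using h2.mul_const w0
    have h3 : DifferentiableAt ℂ F (((1 - t : ℝ) : ℂ) * w0) := by
      apply hd
      rw [norm_mul, Complex.norm_real, Real.norm_eq_abs, abs_of_nonneg (by linarith [ht.2])]
      have := ht.1
      nlinarith
    have h4 := h3.hasDerivAt.comp_of_eq t h1 rfl
    refine HasDerivAt.congr_deriv h4 ?_
    ring
  have hb' : ∀ t ∈ Ico (0 : ℝ) 1, ‖-w0 * deriv F (((1 - t : ℝ) : ℂ) * w0)‖ ≤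
      (‖w0‖ * M) * ‖y t‖ + 0 := by
    intro t ht
    rw [norm_mul, norm_neg, add_zero, mul_assoc]
    refine mul_le_mul_of_nonneg_left ?_ hn0.le
    rcases ht.1.eq_or_lt with h1 | h1
    · rw [hy]
      simp only
      rw [← h1]
      simp only [sub_zero, Complex.ofReal_one, one_mul]
      exact hd0
    · apply hb
      rw [norm_mul, Complex.norm_real, Real.norm_eq_abs, abs_of_pos (by linarith [ht.2])]
      nlinarith
  have h5 := norm_le_gronwallBound_of_norm_deriv_right_le (f := y)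
    (f' := fun t => -w0 * deriv F (((1 - t : ℝ) : ℂ) * w0)) (δ := 0) (K := ‖w0‖ * M) (ε := 0)
    (a := 0) (b := 1)
    (fun t ht => (hder t ht).continuousAt.continuousWithinAt)
    (fun t ht => (hder t ⟨ht.1, ht.2.le⟩).hasDerivWithinAt)
    (by rw [hy]; simp [h0]) hb' 1 (right_mem_Icc.2 zero_le_one)
  have h6 : gronwallBound 0 (‖w0‖ * M) 0 (1 - 0) = 0 := by
    unfold gronwallBound
    split_ifs <;> simp
  rw [h6] at h5
  have h7 : y 1 = 0 := norm_le_zero_iff.1 h5
  rw [hy] at h7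
  simpa using h7

/-- Non-negativity of all Li coefficients: no zeros to the right. -/
theorem li_line {n : ℕ} (h : ∀ k : ℕ, 1 ≤ k → 0 ≤ (lc n k).re) :
    ∀ z, iteratedDeriv n XX z = 0 → ¬ 0 < z.re := by
  intro z1 hz1 hre
  set F : ℂ → ℂ := FF' n with hF
  have hsne : z1 + 1 / 2 ≠ 0 := by
    intro h0
    have := congrArg Complex.re h0
    simp at this
    linarith
  set w1 : ℂ := (z1 - 1 / 2) / (z1 + 1 / 2) with hw1
  have hzw1 : zw w1 = z1 := by
    unfold zw
    have e : 1 - w1 = 1 / (z1 + 1 / 2) := by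
      rw [eq_div_iff hsne]
      have e0 : w1 * (z1 + 1 / 2) = z1 - 1 / 2 := div_mul_cancel₀ _ hsne
      linear_combination -e0
    rw [e, one_div_one_div]
    ring
  have hw1n : ‖w1‖ < 1 := by
    rw [hw1, norm_div, div_lt_one (norm_pos_iff.2 hsne)]
    refine lt_of_pow_lt_pow_left₀ 2 (norm_nonneg _) ?_
    rw [← Complex.normSq_eq_norm_sq, ← Complex.normSq_eq_norm_sq, Complex.normSq_apply,
      Complex.normSq_apply]
    simp
    nlinarith
  have hF1 : F w1 = 0 := by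
    show iteratedDeriv n XX (zw w1) = 0
    rw [hzw1]
    exact hz1
  have hne1 : ∀ w : ℂ, ‖w‖ ≤ ‖w1‖ → w ≠ 1 := by
    rintro w hw rfl
    rw [norm_one] at hw
    linarith
  have hFd : ∀ w : ℂ, ‖w‖ ≤ ‖w1‖ → DifferentiableAt ℂ F w := fun w hw => FF'_diff n (hne1 w hw)
  -- the zero of minimal modulus
  obtain ⟨w0, hw0m, hw0min⟩ : ∃ w0 ∈ closedBall (0 : ℂ) ‖w1‖ ∩ F ⁻¹' {0},
      ∀ w ∈ closedBall (0 : ℂ) ‖w1‖ ∩ F ⁻¹' {0}, ‖w0‖ ≤ ‖w‖ := by
    have hcomp : IsCompact (closedBall (0 : ℂ) ‖w1‖ ∩ F ⁻¹' {0}) := by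
      refine IsCompact.of_isClosed_subset (isCompact_closedBall (0 : ℂ) ‖w1‖) ?_ inter_subset_left
      refine ContinuousOn.preimage_isClosed_of_isClosed (fun w hw => ?_) isClosed_closedBall
        isClosed_singleton
      exact (hFd w (by simpa using hw)).continuousAt.continuousWithinAt
    obtain ⟨w0, h1, h2⟩ := hcomp.exists_isMinOn (f := fun w => ‖w‖)
      ⟨w1, by simp, hF1⟩ continuous_norm.continuousOn
    exact ⟨w0, h1, fun w hw => h2 hw⟩
  have hw01 : ‖w0‖ ≤ ‖w1‖ := by simpa using hw0m.1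
  have hF0 : F w0 = 0 := hw0m.2
  have hFne : ∀ w : ℂ, ‖w‖ < ‖w0‖ → F w ≠ 0 := by
    intro w hw hw'
    have := hw0min w ⟨by simpa using (hw.le.trans hw01), hw'⟩
    linarith
  have hF00 : F 0 ≠ 0 := half_ne n
  have hw0ne : w0 ≠ 0 := by
    rintro rfl
    exact hF00 hF0
  have hr0 : 0 < ‖w0‖ := norm_pos_iff.2 hw0ne
  have hU : IsOpen {w : ℂ | w ≠ 1} := isOpen_ne
  have hdF : DifferentiableOn ℂ (deriv F) {w : ℂ | w ≠ 1} :=
    DifferentiableOn.deriv (fun w hw => (FF'_diff n hw).differentiableWithinAt) hU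
  set La : ℂ → ℂ := logDeriv F with hLa
  have hLd : DifferentiableOn ℂ La (ball 0 ‖w0‖) := by
    intro w hw
    have hw' : ‖w‖ < ‖w0‖ := by simpa using hw
    have h1 := hne1 w (hw'.le.trans hw01)
    have h2 : DifferentiableAt ℂ (deriv F) w := (hdF w h1).differentiableAt (hU.mem_nhds h1)
    exact (h2.div (FF'_diff n h1) (hFne w hw')).differentiableWithinAt
  have hcoef : ∀ k : ℕ, iteratedDeriv k La 0 = (((k.factorial : ℝ) * (lc n (k + 1)).re : ℝ) : ℂ) := by
    intro k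
    have h1 := lc_eq n (k + 1)
    rw [Nat.add_sub_cancel] at h1
    have h2 : (k.factorial : ℂ) ≠ 0 := by exact_mod_cast k.factorial_ne_zero
    push_cast
    rw [lc_real, h1]
    field_simp
    rfl
  have hsum : ∀ w : ℂ, ‖w‖ < ‖w0‖ →
      HasSum (fun k : ℕ => (((lc n (k + 1)).re : ℝ) : ℂ) * w ^ k) (La w) := by
    intro w hw
    have h1 := hasSum_taylorSeries_on_ball hLd (z := w) (by simpa using hw)
    refine Pool.Agent.H24R2.JP.B1h.hcongr h1 fun k => ?_
    rw [hcoef]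
    have h2 : (k.factorial : ℂ) ≠ 0 := by exact_mod_cast k.factorial_ne_zero
    simp only [smul_eq_mul, sub_zero]
    push_cast
    field_simp
  -- bound on the segment
  obtain ⟨M, hM⟩ : ∃ M : ℝ, ∀ r ∈ Icc (0 : ℝ) ‖w0‖, ‖La (r : ℂ)‖ ≤ M := by
    refine isCompact_Icc.exists_bound_of_continuousOn (f := fun r : ℝ => La (r : ℂ)) ?_
    intro r hr
    have h1 : ((r : ℝ) : ℂ) ≠ 1 := hne1 _ (by
      rw [Complex.norm_real, Real.norm_eq_abs, abs_of_nonneg hr.1]
      exact hr.2.trans hw01)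
    have h2 : ContinuousAt (deriv F) (r : ℂ) :=
      ((hdF _ h1).differentiableAt (hU.mem_nhds h1)).continuousAt
    have h3 : F (r : ℂ) ≠ 0 := by
      show iteratedDeriv n XX (zw r) ≠ 0
      have e : zw (r : ℂ) = ((1 / (1 - r) - 1 / 2 : ℝ) : ℂ) := by
        unfold zw
        push_cast
        ring
      rw [e]
      apply pos_ne
      have h4 : r < 1 := by linarith [hr.2]
      have h5 : 1 ≤ 1 / (1 - r) := by
        rw [le_div_iff₀ (by linarith)]
        linarith [hr.1]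
      linarith
    have h4 : ContinuousAt La (r : ℂ) := h2.div (FF'_diff n h1).continuousAt h3
    exact (h4.comp Complex.continuous_ofReal.continuousAt).continuousWithinAt
  have hM0 : 0 ≤ M := (norm_nonneg _).trans (hM 0 ⟨le_rfl, norm_nonneg _⟩)
  have hbd : ∀ w : ℂ, ‖w‖ < ‖w0‖ → ‖deriv F w‖ ≤ M * ‖F w‖ := by
    intro w hw
    have h1 := hsum w hw
    have h2 := hsum (‖w‖ : ℂ) (by
      rw [Complex.norm_real, Real.norm_eq_abs, abs_of_nonneg (norm_nonneg _)]
      exact hw)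
    have h3 := Complex.hasSum_re h2
    have h4 : ∀ k : ℕ, ‖(((lc n (k + 1)).re : ℝ) : ℂ) * w ^ k‖ ≤
        ((((lc n (k + 1)).re : ℝ) : ℂ) * (‖w‖ : ℂ) ^ k).re := by
      intro k
      have h5 := h (k + 1) (by omega)
      rw [← Complex.ofReal_pow, ← Complex.ofReal_mul, Complex.ofReal_re, norm_mul, norm_pow,
        Complex.norm_real, Real.norm_eq_abs, abs_of_nonneg h5]
    have h5 : ‖La w‖ ≤ (La (‖w‖ : ℂ)).re := by
      have h6 := h1.norm_le_of_bounded h3 h4
      exact h6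
    have h6 : ‖La w‖ ≤ M :=
      (h5.trans (Complex.re_le_norm _)).trans (hM ‖w‖ ⟨norm_nonneg _, hw.le⟩)
    have h7 : La w = deriv F w / F w := logDeriv_apply F w
    rw [h7, norm_div, div_le_iff₀ (norm_pos_iff.2 (hFne w hw))] at h6
    exact h6
  refine hF00 (no_zero (M := M) (fun w hw => hFd w (hw.trans hw01)) ?_ hbd hF0 hw0ne)
  have h1 := hne1 w0 hw01
  exact ((hdF _ h1).differentiableAt (hU.mem_nhds h1)).continuousAt

theorem rh_of_nonneg (h : ∀ k : ℕ, 1 ≤ k → 0 ≤ (lc 0 k).re) : RiemannHypothesis := by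
  refine Pool.Agent.TH803.LG.RH_of fun s hs hs1 h0 => ?_
  have hX : XX (s - 1 / 2) = 0 := by
    have e1 : (1 / 2 + (s - 1 / 2) : ℂ) = s := by ring
    have hne0 : s ≠ 0 := by
      intro h
      rw [h] at hs
      norm_num at hs
    rw [Pool.Agent.H24R2.JP.Zer.XX_eq _ (by rw [e1]; exact hne0) (by
      rw [e1]; exact sub_ne_zero.2 (Ne.symm hs1)), e1]
    have h2 := riemannZeta_def_of_ne_zero hne0
    rw [h0] at h2
    have h3 : Gammaℝ s ≠ 0 := Gammaℝ_ne_zero_of_re_pos (by linarith)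
    have h4 : completedRiemannZeta s = 0 := by
      rcases div_eq_zero_iff.1 h2.symm with h | h
      · exact h
      · exact absurd h h3
    rw [h4, mul_zero]
  refine li_line (n := 0) h (s - 1 / 2) (by rw [iteratedDeriv_zero]; exact hX) ?_
  simp
  linarith

end Pool.Agent.K3h51.Li
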