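import Pool.Agent.K3h51.Li.Core2
import Pool.Agent.K3h51.Li.RHp
import Pool.Agent.K3h51.Li.Conv2

set_option autoImplicit false

/-!
# The converse: positivity beyond `exp (8 n)` gives a zero-free half-plane
-/

namespace Pool.Agent.K3h51.Li

open Complex Filter Topology Metric Set
open Pool.Agent.H24R2.JP (XX)
open Pool.Agent.H24R2.DZ (bad)

/-- The extremal zero. -/
theorem extremal {n : ℕ} {s : ℂ} (hs : iteratedDeriv n XX s = 0) (hre : 0 < s.re) :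
    ∃ ρ0 : ℂ, iteratedDeriv n XX ρ0 = 0 ∧ 0 < ρ0.re ∧ 0 ≤ ρ0.im ∧
      2 * s.re / ‖s + 1 / 2‖ ^ 2 ≤ 2 * ρ0.re / ‖ρ0 + 1 / 2‖ ^ 2 ∧
      ∀ ρ, iteratedDeriv n XX ρ = 0 → 2 * ρ.re ≤ 2 * ρ0.re / ‖ρ0 + 1 / 2‖ ^ 2 * ‖ρ + 1 / 2‖ ^ 2 := by
  have hpos : ∀ ρ : ℂ, 0 < ρ.re → 0 < ‖ρ + 1 / 2‖ := by
    intro ρ hρ
    rw [norm_pos_iff]
    intro h0
    have := congrArg Complex.re h0
    simp at this
    linarith
  obtain ⟨h, hh⟩ : ∃ h : ℝ, h = 2 * s.re / ‖s + 1 / 2‖ ^ 2 := ⟨_, rfl⟩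
  have hs0 := hpos s hre
  have hh0 : 0 < h := by rw [hh]; positivity
  have hhs : h * ‖s + 1 / 2‖ ^ 2 = 2 * s.re := by
    rw [hh, div_mul_cancel₀ _ (ne_of_gt (pow_pos hs0 2))]
  set S : Set ℂ := {ρ | iteratedDeriv n XX ρ = 0 ∧ h * ‖ρ + 1 / 2‖ ^ 2 ≤ 2 * ρ.re} with hS
  have hSs : s ∈ S := ⟨hs, hhs.le⟩
  have hSre : ∀ ρ ∈ S, 0 < ρ.re := by
    rintro ρ ⟨h1, h2⟩
    by_contra hc
    have h3 : 0 ≤ h * ‖ρ + 1 / 2‖ ^ 2 := by positivity
    have h4 : ρ.re = 0 := by linarith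
    rw [h4, mul_zero] at h2
    have h5 : ‖ρ + 1 / 2‖ ^ 2 = 0 := by
      have : h * ‖ρ + 1 / 2‖ ^ 2 = 0 := le_antisymm h2 h3
      rcases mul_eq_zero.1 this with h | h
      · linarith
      · exact h
    have h6 : ρ + 1 / 2 = 0 := norm_eq_zero.1 (pow_eq_zero_iff (two_ne_zero) |>.1 h5)
    have := congrArg Complex.re h6
    simp [h4] at this
  have hScl : IsClosed S := by
    have h1 : IsClosed {ρ : ℂ | iteratedDeriv n XX ρ = 0} :=
      isClosed_eq (ff_diff n).continuous continuous_const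
    have h2 : IsClosed {ρ : ℂ | h * ‖ρ + 1 / 2‖ ^ 2 ≤ 2 * ρ.re} := by
      refine isClosed_le ?_ ?_
      · fun_prop
      · exact continuous_const.mul Complex.continuous_re
    exact h1.inter h2
  have hSb : S ⊆ closedBall (0 : ℂ) (1 / h + 2) := by
    intro ρ hρ
    have h1 := abs_le.1 (ff_strip hρ.1)
    have h2 := hρ.2
    rw [mem_closedBall, dist_zero_right]
    have h3 : ‖ρ + 1 / 2‖ ^ 2 ≤ 1 / h := by
      rw [le_div_iff₀ hh0]
      linarith [h1.2]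
    have h4 : ‖ρ + 1 / 2‖ ≤ 1 / h + 1 := by
      have := sq_nonneg (‖ρ + 1 / 2‖ - 1)
      nlinarith [norm_nonneg (ρ + 1 / 2)]
    have h5 : ρ = (ρ + 1 / 2) - 1 / 2 := by ring
    rw [h5]
    refine (norm_sub_le _ _).trans ?_
    have : ‖(1 / 2 : ℂ)‖ = 1 / 2 := by simp
    rw [this]
    linarith
  have hSc : IsCompact S := (isCompact_closedBall _ _).of_isClosed_subset hScl hSb
  obtain ⟨ρ1, h1, h2⟩ := hSc.exists_isMaxOn (f := fun ρ => 2 * ρ.re / ‖ρ + 1 / 2‖ ^ 2) ⟨s, hSs⟩ (by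
    intro ρ hρ
    have := hpos ρ (hSre ρ hρ)
    refine ContinuousAt.continuousWithinAt ?_
    refine ContinuousAt.div (by fun_prop) (by fun_prop) (by positivity))
  have hρ1 := hSre ρ1 h1
  have hn1 := hpos ρ1 hρ1
  have hmax : ∀ ρ, iteratedDeriv n XX ρ = 0 →
      2 * ρ.re ≤ 2 * ρ1.re / ‖ρ1 + 1 / 2‖ ^ 2 * ‖ρ + 1 / 2‖ ^ 2 := by
    intro ρ hρ
    by_cases hρS : ρ ∈ S
    · have h3 : 2 * ρ.re / ‖ρ + 1 / 2‖ ^ 2 ≤ 2 * ρ1.re / ‖ρ1 + 1 / 2‖ ^ 2 := h2 hρS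
      have h4 := hpos ρ (hSre ρ hρS)
      rwa [div_le_iff₀ (by positivity)] at h3
    · have h3 : ¬ h * ‖ρ + 1 / 2‖ ^ 2 ≤ 2 * ρ.re := fun h4 => hρS ⟨hρ, h4⟩
      push Not at h3
      have h4 : h ≤ 2 * ρ1.re / ‖ρ1 + 1 / 2‖ ^ 2 := by
        rw [hh]
        exact h2 hSs
      exact h3.le.trans (mul_le_mul_of_nonneg_right h4 (by positivity))
  have hsle : 2 * s.re / ‖s + 1 / 2‖ ^ 2 ≤ 2 * ρ1.re / ‖ρ1 + 1 / 2‖ ^ 2 := h2 hSs
  rcases le_total 0 ρ1.im with him | him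
  · exact ⟨ρ1, h1.1, hρ1, him, hsle, hmax⟩
  · refine ⟨(starRingEnd ℂ) ρ1, ff_conj_zero h1.1, by simpa using hρ1, by simpa using him, ?_, ?_⟩
    · have e : ‖(starRingEnd ℂ) ρ1 + 1 / 2‖ = ‖ρ1 + 1 / 2‖ := by
        have : (starRingEnd ℂ) ρ1 + 1 / 2 = (starRingEnd ℂ) (ρ1 + 1 / 2) := by
          rw [map_add, map_div₀, map_one, map_ofNat]
        rw [this, Complex.norm_conj]
      rw [e, Complex.conj_re]
      exact hsle
    · have e : ‖(starRingEnd ℂ) ρ1 + 1 / 2‖ = ‖ρ1 + 1 / 2‖ := by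
        have : (starRingEnd ℂ) ρ1 + 1 / 2 = (starRingEnd ℂ) (ρ1 + 1 / 2) := by
          rw [map_add, map_div₀, map_one, map_ofNat]
        rw [this, Complex.norm_conj]
      rw [e, Complex.conj_re]
      exact hmax

theorem pow_beats (A c : ℝ) (k : ℕ) (hc : 0 < c) :
    ∃ m1 : ℝ, 1 ≤ m1 ∧ ∀ m : ℝ, m1 ≤ m → A * m ^ k < Real.exp (c * m) := by
  have h1 := Real.tendsto_exp_div_pow_atTop k
  have h2 : Tendsto (fun m : ℝ => c * m) atTop atTop := tendsto_id.const_mul_atTop hc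
  have h3 := (h1.comp h2).eventually_gt_atTop (|A| / c ^ k)
  obtain ⟨m1, hm1⟩ := eventually_atTop.1 h3
  refine ⟨max m1 1, le_max_right _ _, fun m hm => ?_⟩
  have h4 := hm1 m ((le_max_left _ _).trans hm)
  have hm0 : 1 ≤ m := (le_max_right _ _).trans hm
  simp only [Function.comp_apply] at h4
  rw [div_lt_div_iff₀ (by positivity) (by positivity), mul_pow] at h4
  have h5 : |A| * m ^ k < Real.exp (c * m) := by
    have : |A| * (c ^ k * m ^ k) = (|A| * m ^ k) * c ^ k := by ring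
    rw [this] at h4
    exact lt_of_mul_lt_mul_right h4 (by positivity)
  have h6 : A * m ^ k ≤ |A| * m ^ k := mul_le_mul_of_nonneg_right (le_abs_self A) (by positivity)
  linarith

theorem exp_beats' (A : ℝ) : ∃ N : ℕ, ∀ n : ℕ, N ≤ n → A ≤ Real.exp n := by
  refine ⟨⌈A⌉₊, fun n hn => ?_⟩
  have h1 := Nat.le_ceil A
  have h2 : ((⌈A⌉₊ : ℕ) : ℝ) ≤ n := by exact_mod_cast hn
  have h3 := Real.add_one_le_exp (n : ℝ)
  linarith

/-- Numerical facts. -/
theorem numeric {δ ε C : ℝ} (hε : 0 < ε) : ∃ m1 : ℝ, 1 ≤ m1 ∧ ∀ m : ℝ, m1 ≤ m →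
    C ≤ m ∧ 200 / δ ≤ Real.exp m ∧ 16200000 * m ^ 10 < Real.exp (3 * m) ∧
    2 * m ^ 2 * (60 * m ^ 3 + 1) ^ 2 ≤ Real.exp m ∧
    400000 / δ * m ^ 4 ≤ Real.exp (2 * ε * m) := by
  obtain ⟨a1, a1', h1⟩ := pow_beats (200 / δ) 1 0 one_pos
  obtain ⟨a2, a2', h2⟩ := pow_beats 16200000 3 10 (by norm_num)
  obtain ⟨a3, a3', h3⟩ := pow_beats 7442 1 8 one_pos
  obtain ⟨a4, a4', h4⟩ := pow_beats (400000 / δ) (2 * ε) 4 (by positivity)
  refine ⟨max (max (max a1 a2) (max a3 a4)) (max C 1), ?_, fun m hm => ?_⟩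
  · exact le_trans (le_max_right _ _) (le_max_right _ _)
  have hma1 : a1 ≤ m := le_trans (le_trans (le_trans (le_max_left _ _) (le_max_left _ _))
    (le_max_left _ _)) hm
  have hma2 : a2 ≤ m := le_trans (le_trans (le_trans (le_max_right _ _) (le_max_left _ _))
    (le_max_left _ _)) hm
  have hma3 : a3 ≤ m := le_trans (le_trans (le_trans (le_max_left _ _) (le_max_right _ _))
    (le_max_left _ _)) hm
  have hma4 : a4 ≤ m := le_trans (le_trans (le_trans (le_max_right _ _) (le_max_right _ _))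
    (le_max_left _ _)) hm
  have hmC : C ≤ m := le_trans (le_trans (le_max_left _ _) (le_max_right _ _)) hm
  have hm1 : 1 ≤ m := le_trans (le_trans (le_max_right _ _) (le_max_right _ _)) hm
  have b1 := h1 m hma1
  have b2 := h2 m hma2
  have b3 := h3 m hma3
  have b4 := h4 m hma4
  rw [pow_zero, mul_one, one_mul] at b1
  rw [one_mul] at b3
  refine ⟨hmC, b1.le, b2, ?_, b4.le⟩
  refine le_trans ?_ b3.le
  have hm3 : 1 ≤ m ^ 3 := one_le_pow₀ hm1
  have c1 : (60 * m ^ 3 + 1) ^ 2 ≤ (61 * m ^ 3) ^ 2 := pow_le_pow_left₀ (by positivity) (by linarith) 2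
  calc 2 * m ^ 2 * (60 * m ^ 3 + 1) ^ 2 ≤ 2 * m ^ 2 * (61 * m ^ 3) ^ 2 := by gcongr
    _ = 7442 * m ^ 8 := by ring


/-- The numerical tail bound. -/
theorem tail_num {h δ ε m Y : ℝ} {J K P : ℕ} (hm1 : 1 ≤ m) (hh0 : 0 < h) (hh1 : h ≤ 1 / 1000000)
    (hδ0 : 0 < δ) (hhδ : δ * Real.exp (-(2 * m)) ≤ h)
    (f1 : 200 / δ ≤ Real.exp m) (f2 : 2 * m ^ 2 * (60 * m ^ 3 + 1) ^ 2 ≤ Real.exp m)
    (f3 : 400000 / δ * m ^ 4 ≤ Real.exp (2 * ε * m)) (hY : Y = m ^ 2) (hJ : (J : ℝ) ≤ 4 * m)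
    (hK : Real.exp ((2 + 2 * ε) * m) - 1 ≤ K) (hP1 : 1 ≤ P) (hP : (P : ℝ) ≤ 15 * J * Y) :
    2 * Y * ((P : ℝ) + 1) ^ 2 * 2 ^ P * (1 - h / 200) ^ (K - (P - 1)) * (200 / h) ^ (P + 2) ≤ 1 := by
  have hm0 : 0 < m := by linarith
  have hP60 : (P : ℝ) ≤ 60 * m ^ 3 := by
    rw [hY] at hP
    calc (P : ℝ) ≤ 15 * J * m ^ 2 := hP
      _ ≤ 15 * (4 * m) * m ^ 2 := by gcongr
      _ = _ := by ring
  have hP0 : (0 : ℝ) ≤ P := Nat.cast_nonneg P
  have a1 : 2 * Y * ((P : ℝ) + 1) ^ 2 ≤ Real.exp m := by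
    refine le_trans ?_ f2
    rw [hY]
    gcongr
  have a2 : (2 : ℝ) ^ P ≤ Real.exp P := by
    have : (2 : ℝ) ≤ Real.exp 1 := by
      have := Real.add_one_le_exp (1 : ℝ)
      linarith
    calc (2 : ℝ) ^ P ≤ Real.exp 1 ^ P := pow_le_pow_left₀ (by norm_num) this P
      _ = Real.exp P := by rw [← Real.exp_nat_mul, mul_one]
  have a3 : (1 - h / 200) ^ (K - (P - 1)) ≤ Real.exp (-(h / 200 * (K - P))) := by
    have b1 : 1 - h / 200 ≤ Real.exp (-(h / 200)) := by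
      have := Real.add_one_le_exp (-(h / 200))
      linarith
    calc (1 - h / 200) ^ (K - (P - 1)) ≤ Real.exp (-(h / 200)) ^ (K - (P - 1)) :=
          pow_le_pow_left₀ (by linarith) b1 _
      _ = Real.exp (((K - (P - 1) : ℕ) : ℝ) * -(h / 200)) := by rw [← Real.exp_nat_mul]
      _ ≤ _ := by
          apply Real.exp_le_exp.2
          have b2 : (K : ℝ) - P ≤ ((K - (P - 1) : ℕ) : ℝ) := by
            have : K ≤ (K - (P - 1)) + P := by omega
            have h2 : (K : ℝ) ≤ ((K - (P - 1) : ℕ) : ℝ) + P := by exact_mod_cast this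
            linarith
          have b3 : 0 < h / 200 := by positivity
          nlinarith
  have a4 : 200 / h ≤ Real.exp (3 * m) := by
    have b1 : 200 / h ≤ 200 / (δ * Real.exp (-(2 * m))) := by gcongr
    have b2 : 200 / (δ * Real.exp (-(2 * m))) = 200 / δ * Real.exp (2 * m) := by
      rw [Real.exp_neg]
      field_simp
    have b3 : Real.exp (3 * m) = Real.exp m * Real.exp (2 * m) := by
      rw [← Real.exp_add]
      congr 1
      ring
    rw [b2] at b1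
    rw [b3]
    exact b1.trans (mul_le_mul_of_nonneg_right f1 (Real.exp_pos _).le)
  have a5 : (200 / h) ^ (P + 2) ≤ Real.exp (3 * m * (P + 2)) := by
    calc (200 / h) ^ (P + 2) ≤ Real.exp (3 * m) ^ (P + 2) := pow_le_pow_left₀ (by positivity) a4 _
      _ = Real.exp (3 * m * (P + 2)) := by
          rw [← Real.exp_nat_mul]
          congr 1
          push_cast
          ring
  have a6 : 2000 * m ^ 4 - 1 ≤ h / 200 * K := by
    have b1 : δ * Real.exp (-(2 * m)) / 200 * (Real.exp ((2 + 2 * ε) * m) - 1) ≤ h / 200 * K := by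
      have b2 : 0 ≤ Real.exp ((2 + 2 * ε) * m) - 1 ∨ Real.exp ((2 + 2 * ε) * m) - 1 < 0 := le_or_gt _ _
      have b4 : δ * Real.exp (-(2 * m)) / 200 ≤ h / 200 := by gcongr
      rcases b2 with b2 | b2
      · calc _ ≤ h / 200 * (Real.exp ((2 + 2 * ε) * m) - 1) := mul_le_mul_of_nonneg_right b4 b2
          _ ≤ _ := mul_le_mul_of_nonneg_left hK (by positivity)
      · have b5 : δ * Real.exp (-(2 * m)) / 200 * (Real.exp ((2 + 2 * ε) * m) - 1) ≤ 0 :=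
          mul_nonpos_of_nonneg_of_nonpos (by positivity) b2.le
        have b6 : 0 ≤ h / 200 * K := by positivity
        linarith
    have b2 : δ * Real.exp (-(2 * m)) / 200 * (Real.exp ((2 + 2 * ε) * m) - 1) =
        δ / 200 * Real.exp (2 * ε * m) - δ / 200 * Real.exp (-(2 * m)) := by
      have : Real.exp (2 * ε * m) = Real.exp (-(2 * m)) * Real.exp ((2 + 2 * ε) * m) := by
        rw [← Real.exp_add]
        congr 1
        ring
      rw [this]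
      ring
    rw [b2] at b1
    have b3 : 2000 * m ^ 4 ≤ δ / 200 * Real.exp (2 * ε * m) := by
      calc 2000 * m ^ 4 = δ / 200 * (400000 / δ * m ^ 4) := by field_simp; ring
        _ ≤ _ := by gcongr
    have b4 : δ / 200 * Real.exp (-(2 * m)) ≤ 1 := by
      have : Real.exp (-(2 * m)) ≤ 1 := by
        rw [Real.exp_le_one_iff]
        linarith
      have h2 := Real.exp_pos (-(2 * m))
      nlinarith
    linarith
  have hm3 : m ^ 3 ≤ m ^ 4 := pow_le_pow_right₀ hm1 (by norm_num)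
  have hm4 : m ≤ m ^ 4 := le_self_pow₀ hm1 (by norm_num)
  have hm40 : 1 ≤ m ^ 4 := one_le_pow₀ hm1
  have hmP : m * P ≤ 60 * m ^ 4 := by
    calc m * P ≤ m * (60 * m ^ 3) := by gcongr
      _ = _ := by ring
  have hhP : h / 200 * P ≤ P := by nlinarith
  have hbase : 0 ≤ 1 - h / 200 := by linarith
  have hY0 : 0 ≤ Y := by rw [hY]; positivity
  calc 2 * Y * ((P : ℝ) + 1) ^ 2 * 2 ^ P * (1 - h / 200) ^ (K - (P - 1)) * (200 / h) ^ (P + 2)
      ≤ Real.exp m * Real.exp P * Real.exp (-(h / 200 * (K - P))) * Real.exp (3 * m * (P + 2)) := by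
        gcongr
    _ = Real.exp (m + P + -(h / 200 * (K - P)) + 3 * m * (P + 2)) := by
        rw [Real.exp_add, Real.exp_add, Real.exp_add]
    _ ≤ 1 := by
        rw [Real.exp_le_one_iff]
        nlinarith

theorem J_num {m : ℝ} (hm1 : 1 ≤ m) (f : 16200000 * m ^ 10 < Real.exp (3 * m)) :
    ∃ J : ℕ, 1 ≤ J ∧ (J : ℝ) ≤ 4 * m ∧
      1012500 * (J : ℝ) ^ 2 * (m ^ 2) ^ 4 * (Real.exp (3 * m)) ^ 2 < 33 ^ J := by
  refine ⟨⌈3 * m⌉₊, ?_, ?_, ?_⟩
  · have := Nat.le_ceil (3 * m)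
    have h2 : (1 : ℝ) ≤ (⌈3 * m⌉₊ : ℝ) := by linarith
    exact_mod_cast h2
  · have := Nat.ceil_lt_add_one (show 0 ≤ 3 * m by linarith)
    linarith
  · obtain ⟨J, hJ⟩ : ∃ J : ℕ, J = ⌈3 * m⌉₊ := ⟨_, rfl⟩
    rw [← hJ]
    have h1 : 3 * m ≤ J := by rw [hJ]; exact Nat.le_ceil _
    have h2 : (J : ℝ) ≤ 4 * m := by
      have := Nat.ceil_lt_add_one (show 0 ≤ 3 * m by linarith)
      rw [← hJ] at this
      linarith
    have h3 : Real.exp (9 * m) ≤ 33 ^ J := by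
      have e3 : Real.exp 3 ≤ 33 := by
        have := Real.exp_one_lt_d9
        have h4 : Real.exp 1 ≤ 3 := by linarith
        have h5 := pow_le_pow_left₀ (Real.exp_pos 1).le h4 3
        rw [← Real.exp_nat_mul] at h5
        norm_num at h5
        linarith
      calc Real.exp (9 * m) ≤ Real.exp (J * 3) := by
            apply Real.exp_le_exp.2
            linarith
        _ = Real.exp 3 ^ J := by rw [Real.exp_nat_mul]
        _ ≤ 33 ^ J := pow_le_pow_left₀ (Real.exp_pos _).le e3 J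
    have h4 : Real.exp (9 * m) = Real.exp (3 * m) * (Real.exp (3 * m)) ^ 2 := by
      rw [← Real.exp_nat_mul, ← Real.exp_add]
      congr 1
      push_cast
      ring
    refine lt_of_lt_of_le ?_ h3
    rw [h4]
    apply mul_lt_mul_of_pos_right _ (by positivity)
    calc 1012500 * (J : ℝ) ^ 2 * (m ^ 2) ^ 4 ≤ 1012500 * (4 * m) ^ 2 * (m ^ 2) ^ 4 := by gcongr
      _ = 16200000 * m ^ 10 := by ring
      _ < _ := f


theorem zw_real (r : ℝ) : zw (r : ℂ) = ((1 / (1 - r) - 1 / 2 : ℝ) : ℂ) := by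
  unfold zw
  push_cast
  ring

theorem level {n : ℕ} {m δ ε C0 K0 T0 : ℝ} (hnm : (n : ℝ) ≤ m) (hm1 : 1 ≤ m) (hδ0 : 0 < δ)
    (hC0 : 1 ≤ C0) (hK0 : 0 ≤ K0)
    (f0 : 200 * (C0 + K0 + 1) ≤ m)
    (f1 : 200 / δ ≤ Real.exp m) (f1' : 16200000 * m ^ 10 < Real.exp (3 * m))
    (f2 : 2 * m ^ 2 * (60 * m ^ 3 + 1) ^ 2 ≤ Real.exp m)
    (f3 : 400000 / δ * m ^ 4 ≤ Real.exp (2 * ε * m))
    (hn1 : 1001 ≤ Real.exp n) (hn2 : T0 + 1 ≤ Real.exp n)
    (hline : ∀ ρ, iteratedDeriv n XX ρ = 0 → |ρ.im| ≤ Real.exp n → ρ.re = 0)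
    (hbase : ∀ t x : ℝ, T0 ≤ t → 10 ≤ x → x ≤ 12 →
      ‖GG 0 (I * t + x) - ((Real.log t / 2 : ℝ) : ℂ)‖ ≤ K0)
    (hGG : ∀ x : ℝ, 10 ≤ x → (GG 0 x).re ≤ C0 * Real.log x)
    (hpos : ∀ k : ℕ, 1 ≤ k → (k : ℝ) ≤ Real.exp ((2 + 2 * ε) * m) → 0 ≤ (lc n k).re)
    {s : ℂ} (hs : iteratedDeriv n XX s = 0) (hre : δ < s.re) (him : |s.im| ≤ Real.exp m) : False := by
  have hm0 : 0 < m := by linarith
  obtain ⟨ρ0, hρ0, hρre, hρim, hρs, hmax⟩ := extremal hs (by linarith)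
  have hρ12 : ρ0.re ≤ 1 / 2 := (abs_le.1 (ff_strip hρ0)).2
  have himb : Real.exp n < ρ0.im := by
    by_contra hc
    have h1 := hline ρ0 hρ0 (by rw [abs_of_nonneg hρim]; exact not_lt.1 hc)
    linarith
  have hbig : ρ0.im ≤ ‖ρ0 + 1 / 2‖ := by
    have := Complex.im_le_norm (ρ0 + 1 / 2)
    simpa using this
  obtain ⟨w0, w, σ, r, -, G⟩ := geo hρre hρ12 (by linarith)
  obtain ⟨h, hh⟩ : ∃ h : ℝ, h = 2 * ρ0.re / ‖ρ0 + 1 / 2‖ ^ 2 := ⟨_, rfl⟩
  rw [← hh] at G hρs hmax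
  have hh0 := G.h0
  have hh1 := G.h1
  -- lower bound for h
  have hhδ : δ * Real.exp (-(2 * m)) ≤ h := by
    refine le_trans ?_ hρs
    have h1 : ‖s + 1 / 2‖ ^ 2 = (s.re + 1 / 2) ^ 2 + s.im ^ 2 := by
      rw [← Complex.normSq_eq_norm_sq, Complex.normSq_apply]
      simp
      ring
    have h2 := (abs_le.1 (ff_strip hs)).2
    have h3 : s.im ^ 2 ≤ Real.exp m ^ 2 := by
      rw [← sq_abs]
      exact pow_le_pow_left₀ (abs_nonneg _) him 2
    have h4 : 1 ≤ Real.exp m := Real.one_le_exp hm0.le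
    have h5 : ‖s + 1 / 2‖ ^ 2 ≤ 2 * Real.exp m ^ 2 := by
      rw [h1]
      nlinarith
    have h6 : 0 < ‖s + 1 / 2‖ ^ 2 := by
      rw [h1]
      nlinarith [sq_nonneg s.im]
    rw [le_div_iff₀ h6]
    have h7 : Real.exp (-(2 * m)) * Real.exp m ^ 2 = 1 := by
      rw [← Real.exp_nat_mul, ← Real.exp_add]
      push_cast
      rw [show -(2 * m) + 2 * m = 0 by ring, Real.exp_zero]
    calc δ * Real.exp (-(2 * m)) * ‖s + 1 / 2‖ ^ 2 ≤ δ * Real.exp (-(2 * m)) * (2 * Real.exp m ^ 2) := by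
          gcongr
      _ = 2 * δ * (Real.exp (-(2 * m)) * Real.exp m ^ 2) := by ring
      _ ≤ 2 * s.re := by rw [h7]; linarith
  have hX : 1 / h ≤ Real.exp (3 * m) := by
    have b1 : 1 / h ≤ 1 / (δ * Real.exp (-(2 * m))) := by gcongr
    have b2 : 1 / (δ * Real.exp (-(2 * m))) = 1 / δ * Real.exp (2 * m) := by
      rw [Real.exp_neg]
      field_simp
    have b3 : Real.exp (3 * m) = Real.exp m * Real.exp (2 * m) := by
      rw [← Real.exp_add]
      congr 1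
      ring
    have b4 : 1 / δ ≤ Real.exp m := by
      refine le_trans ?_ f1
      gcongr
      norm_num
    rw [b2] at b1
    rw [b3]
    exact b1.trans (mul_le_mul_of_nonneg_right b4 (Real.exp_pos _).le)
  have hX4 : 2 / h ≤ Real.exp (4 * m) := by
    have b1 : (2 : ℝ) ≤ Real.exp m := by
      have := Real.add_one_le_exp m
      linarith
    have b3 : Real.exp (4 * m) = Real.exp m * Real.exp (3 * m) := by
      rw [← Real.exp_add]
      congr 1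
      ring
    have b4 : 2 / h = 2 * (1 / h) := by ring
    rw [b3, b4]
    exact mul_le_mul b1 hX (by positivity) (Real.exp_pos _).le
  -- Y
  obtain ⟨Y, hY⟩ : ∃ Y : ℝ, Y = m ^ 2 := ⟨_, rfl⟩
  have hYm : 200 * (C0 + K0 + 1) * m ≤ Y := by
    rw [hY, sq]
    exact mul_le_mul_of_nonneg_right f0 hm0.le
  have hY1 : 1 ≤ Y := by nlinarith
  -- the real point
  have hw0u : ‖w0‖ ≤ 1 := by
    refine le_of_sq_le_sq ?_ (by norm_num)
    rw [G.w0n]
    linarith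
  have hr1 : 1 - r ≤ 2 * h := by
    have h1 : 1 - h ≤ ‖w0‖ := by
      have := G.w0n
      nlinarith [norm_nonneg w0]
    rw [G.rw]
    nlinarith
  have hr0 : 0 < 1 - r := by linarith [G.r1]
  have hxr : 400000 ≤ 1 / (1 - r) - 1 / 2 := by
    have : 500000 ≤ 1 / (1 - r) := by
      rw [le_div_iff₀ hr0]
      linarith
    linarith
  obtain ⟨xr, hxrd⟩ : ∃ xr : ℝ, xr = 1 / (1 - r) - 1 / 2 := ⟨_, rfl⟩
  have hzwr : zw (r : ℂ) = (xr : ℂ) := by rw [zw_real, hxrd]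
  rw [← hxrd] at hxr
  have hlogxr : Real.log xr ≤ 4 * m := by
    rw [Real.log_le_iff_le_exp (by linarith)]
    refine le_trans ?_ hX4
    have := G.rs
    linarith
  have reS : ∀ x : ℝ, 10 ≤ x → ‖GG n (x : ℂ)‖ ≤ C0 * Real.log x + m := by
    intro x hx
    have hxr' : ((x : ℝ) : ℂ).re = x := Complex.ofReal_re x
    have h1 : ‖GG n (x : ℂ)‖ = (GG n (x : ℂ)).re := by
      have h2 := GG_re_nonneg n (z := (x : ℂ)) (by rw [hxr']; linarith)
      rw [← GG_real n x, Complex.norm_real, Real.norm_eq_abs, Complex.ofReal_re, abs_of_nonneg h2]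
    rw [h1]
    have h3 := GG_sub_le n (z := (x : ℂ)) (by rw [hxr']; linarith)
    rw [hxr'] at h3
    have h4 := (abs_le.1 ((Complex.abs_re_le_norm _).trans h3)).2
    rw [Complex.sub_re] at h4
    have h5 := hGG x hx
    have h6 : (n : ℝ) / (x - 1 / 2) ≤ m := by
      rw [div_le_iff₀ (by linarith)]
      nlinarith
    linarith
  have hlog10 : Real.log 10 ≤ 3 := by
    rw [Real.log_le_iff_le_exp (by norm_num)]
    have h6 : (27 / 10 : ℝ) ≤ Real.exp 1 := by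
      have := Real.exp_one_gt_d9
      linarith
    have h := pow_le_pow_left₀ (by norm_num) h6 3
    rw [← Real.exp_nat_mul] at h
    norm_num at h
    linarith
  have hC0m : C0 * m ≤ (C0 + K0 + 1) * m := by nlinarith
  have hK0m : K0 ≤ (C0 + K0 + 1) * m := by nlinarith
  have hmm : m ≤ (C0 + K0 + 1) * m := by nlinarith
  have y2' : ‖GG n (zw r)‖ < Y := by
    rw [hzwr]
    have h1 := reS xr (by linarith)
    have h2 : C0 * Real.log xr ≤ C0 * (4 * m) := mul_le_mul_of_nonneg_left hlogxr (by linarith)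
    nlinarith
  have y4' : ‖GG n ((10 : ℝ) : ℂ)‖ < Y / 26 := by
    have h1 := reS 10 le_rfl
    have h2 : C0 * Real.log 10 ≤ C0 * 3 := mul_le_mul_of_nonneg_left hlog10 (by linarith)
    rw [lt_div_iff₀ (by norm_num)]
    nlinarith
  -- the point near ρ0
  obtain ⟨t, ht⟩ : ∃ t : ℝ, t = (zw w).im := ⟨_, rfl⟩
  obtain ⟨x, hx⟩ : ∃ x : ℝ, x = (zw w).re + 11 := ⟨_, rfl⟩
  have hz2 : zw w + 11 = I * t + x := by
    apply Complex.ext
    · simp [hx]
    · simp [ht]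
  have hzn := G.zn
  have hti : |t - ρ0.im| ≤ 1 / 2 := by
    have := Complex.abs_im_le_norm (zw w - ρ0)
    rw [Complex.sub_im] at this
    rw [ht]
    linarith
  have htr : |(zw w).re - ρ0.re| ≤ 1 / 2 := by
    have := Complex.abs_re_le_norm (zw w - ρ0)
    rw [Complex.sub_re] at this
    linarith
  obtain ⟨ht1, ht2⟩ := abs_le.1 hti
  obtain ⟨ht3, ht4⟩ := abs_le.1 htr
  have hzr := G.zr
  have hx1 : 109 / 10 ≤ x := by rw [hx]; linarith
  have hx2 : x ≤ 12 := by rw [hx]; linarith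
  have htT : T0 ≤ t := by linarith
  have ht0 : 1 ≤ t := by linarith
  have hlogt : Real.log t ≤ 4 * m := by
    rw [Real.log_le_iff_le_exp (by linarith)]
    refine le_trans ?_ hX4
    have h1 : ‖ρ0 + 1 / 2‖ ^ 2 ≤ 1 / h := by
      rw [le_div_iff₀ hh0]
      have h2 : h * ‖ρ0 + 1 / 2‖ ^ 2 = 2 * ρ0.re := by
        rw [hh, div_mul_cancel₀ _ (ne_of_gt (pow_pos (by linarith) 2))]
      linarith
    have h3 : ‖ρ0 + 1 / 2‖ ≤ ‖ρ0 + 1 / 2‖ ^ 2 := by nlinarith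
    have h4 : 2 / h = 1 / h + 1 / h := by ring
    have h5 : 1 / 2 ≤ 1 / h := by
      rw [div_le_div_iff₀ (by norm_num) hh0]
      linarith
    linarith
  have y1' : ‖GG n (zw w + 11)‖ < Y := by
    have hr' : (I * (t : ℂ) + (x : ℂ)).re = x := mem_re t x
    have h1 := GG_sub_le n (z := I * t + x) (by rw [hr']; linarith)
    rw [hr'] at h1
    have h2 := hbase t x htT (by linarith) hx2
    have h3 : (n : ℝ) / (x - 1 / 2) ≤ m := by
      rw [div_le_iff₀ (by linarith)]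
      nlinarith
    have h4 : ‖((Real.log t / 2 : ℝ) : ℂ)‖ ≤ 2 * m := by
      rw [Complex.norm_real, Real.norm_eq_abs, abs_of_nonneg (by
        have := Real.log_nonneg ht0
        positivity)]
      linarith
    have h5 : GG n (I * t + x) = (GG n (I * t + x) - GG 0 (I * t + x)) +
        (GG 0 (I * t + x) - ((Real.log t / 2 : ℝ) : ℂ)) + ((Real.log t / 2 : ℝ) : ℂ) := by ring
    rw [hz2, h5]
    have h6 := norm_add_le ((GG n (I * t + x) - GG 0 (I * t + x)) +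
        (GG 0 (I * t + x) - ((Real.log t / 2 : ℝ) : ℂ))) ((Real.log t / 2 : ℝ) : ℂ)
    have h7 := norm_add_le (GG n (I * t + x) - GG 0 (I * t + x))
        (GG 0 (I * t + x) - ((Real.log t / 2 : ℝ) : ℂ))
    nlinarith
  -- the approximating multiset
  obtain ⟨Z, c, hA⟩ := ap n
  obtain ⟨K, hK⟩ : ∃ K : ℕ, K = ⌊Real.exp ((2 + 2 * ε) * m)⌋₊ := ⟨_, rfl⟩
  have hK1 : (K : ℝ) ≤ Real.exp ((2 + 2 * ε) * m) := by
    rw [hK]
    exact Nat.floor_le (Real.exp_pos _).le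
  have hK2 : Real.exp ((2 + 2 * ε) * m) - 1 ≤ K := by
    have := Nat.lt_floor_add_one (Real.exp ((2 + 2 * ε) * m))
    rw [← hK] at this
    linarith
  have l1 := (gs_lim hA (ff_ne (n := n) (z := zw w + 11) (by
    rw [hz2, mem_re]
    linarith))).norm
  have l2 := (gs_lim hA (ff_ne (n := n) (z := zw r) (by
    rw [hzwr, Complex.ofReal_re]
    linarith))).norm
  have l4 := (gs_lim hA (ff_ne (n := n) (z := ((10 : ℝ) : ℂ)) (by
    rw [Complex.ofReal_re]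
    norm_num))).norm
  have e1 := hA.ex ρ0 hρ0
  have e2 := l1.eventually_lt_const y1'
  have e3 := l2.eventually_lt_const y2'
  have e4 := l4.eventually_lt_const y4'
  have e6 : ∀ᶠ N in atTop, ∀ i ∈ Finset.range K, ‖Ss (Z N) i 0‖ ≤ (Ss (Z N) i 0).re + 1 := by
    rw [Finset.eventually_all]
    intro i hi
    have hi' := Finset.mem_range.1 hi
    have h1 := lc_lim hA (i + 1)
    rw [Nat.add_sub_cancel] at h1
    have h2 := h1.norm.sub ((Complex.continuous_re.tendsto _).comp h1)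
    have h3 : ‖lc n (i + 1)‖ - (lc n (i + 1)).re < 1 := by
      have h4 := hpos (i + 1) (by omega) (le_trans (by exact_mod_cast hi') hK1)
      rw [← lc_real, Complex.norm_real, Real.norm_eq_abs, Complex.ofReal_re, abs_of_nonneg h4]
      linarith
    filter_upwards [h2.eventually_lt_const h3] with N hN
    simp only [Function.comp_apply] at hN
    linarith
  obtain ⟨N, a1, a2, a3, a4, a6⟩ := (e1.and (e2.and (e3.and (e4.and e6)))).exists
  obtain ⟨J, hJ1, hJ2, hJ3⟩ := J_num hm1 f1'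
  have hstrp := hA.strp N
  have hA10 := as_le hstrp ((10 : ℝ) : ℂ)
  rw [Complex.ofReal_re] at hA10
  have hAr := as_le hstrp (zw r)
  rw [hzwr, Complex.ofReal_re] at hAr
  have hAr0 := as_nonneg (Z N) (xr : ℂ)
  refine core (K := K) (X := Real.exp (3 * m)) (Y := Y) (hA.neg N) hstrp a1 ?_
    (fun ρ hρ => hmax ρ (hA.zero N ρ hρ)) G hX hY1 a2.le a3.le ?_ ?_ ?_ ?_ hJ1 ?_ ?_
  · intro ρ hρ
    have hz := hA.zero N ρ hρ
    by_cases hl : |ρ.im| ≤ Real.exp n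
    · have h1 := hline ρ hz hl
      have h2 := Complex.re_le_norm (ρ + 1 / 2)
      have h3 : (ρ + 1 / 2).re = 1 / 2 := by simp [h1]
      rw [h3] at h2
      exact h2
    · push Not at hl
      have h2 := Complex.abs_im_le_norm (ρ + 1 / 2)
      have h3 : (ρ + 1 / 2).im = ρ.im := by simp
      rw [h3] at h2
      linarith
  · rw [hzwr]
    have h1 := Complex.re_le_norm (gs (Z N) (xr : ℂ))
    rw [hzwr] at a3
    nlinarith
  · have h1 := Complex.re_le_norm (gs (Z N) ((10 : ℝ) : ℂ))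
    have h2 : As (Z N) 10 = As (Z N) ((10 : ℝ) : ℂ) := by
      congr 1
    rw [h2]
    linarith
  · intro ρ hρ h1
    have h2 := (abs_le.1 (hstrp ρ hρ)).2
    rw [h1, hzwr, Complex.ofReal_re] at h2
    linarith
  · intro i hi
    exact a6 i (Finset.mem_range.2 hi)
  · rw [hY]
    exact hJ3
  · intro P hP1 hP2
    exact tail_num hm1 hh0 hh1 hδ0 hhδ f1 f2 f3 hY hJ2 hK2 hP1 hP2

/-- **The converse** -/
theorem converse {κ : ℝ} (hκ : 8 < κ)
    (h : ∃ N : ℕ, ∀ n k : ℕ, N ≤ n → 1 ≤ k → (k : ℝ) ≤ Real.exp (κ * n) → 0 ≤ (lc n k).re) :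
    ∃ y : ℝ, y < 1 / 2 ∧ ∀ s : ℂ, 1 / 2 + y < s.re → riemannZeta s ≠ 0 := by
  obtain ⟨N, hN⟩ := h
  obtain ⟨κ', hκ'⟩ : ∃ κ' : ℝ, κ' = (4 + κ / 2) / 2 := ⟨_, rfl⟩
  have hκ1 : 4 < κ' := by rw [hκ']; linarith
  have hκ2 : 2 * κ' < κ := by rw [hκ']; linarith
  obtain ⟨ε, hε⟩ : ∃ ε : ℝ, ε = (κ / κ' - 2) / 2 := ⟨_, rfl⟩
  have hε0 : 0 < ε := by
    have : 2 < κ / κ' := by rw [lt_div_iff₀ (by linarith)]; linarith
    rw [hε]
    linarith
  obtain ⟨δ, hδ, hconv⟩ := conv2T κ' hκ1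
  apply hconv
  obtain ⟨K0, T0, hK0, -, hbase⟩ := base 12
  obtain ⟨C0, hC0, hGG⟩ := GG0_real
  obtain ⟨m1, hm1, hnum⟩ := numeric (δ := δ) (C := 200 * (C0 + K0 + 1)) hε0
  obtain ⟨N1, hN1⟩ := Pool.Agent.H986R2.K4.fwdT (1 / 2) 1 (by norm_num) le_rfl
    Pool.Agent.H986R2.K4.a1 (by norm_num)
  obtain ⟨N2, hN2⟩ := exp_beats' (max 1001 (T0 + 1))
  refine ⟨N + N1 + N2 + ⌈m1⌉₊, fun n hn s hs him => ?_⟩
  obtain ⟨m, hm⟩ : ∃ m : ℝ, m = κ' * n := ⟨_, rfl⟩
  have hn0 : (0 : ℝ) ≤ n := Nat.cast_nonneg n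
  have hnm1 : m1 ≤ n := by
    have h1 := Nat.le_ceil m1
    have h2 : ((⌈m1⌉₊ : ℕ) : ℝ) ≤ n := by
      have : ⌈m1⌉₊ ≤ n := by omega
      exact_mod_cast this
    linarith
  have hnm : (n : ℝ) ≤ m := by rw [hm]; nlinarith
  have hm1m : m1 ≤ m := by linarith
  obtain ⟨g0, g1, g1', g2, g3⟩ := hnum m hm1m
  have hexp := hN2 n (by omega)
  have hline : ∀ ρ, iteratedDeriv n XX ρ = 0 → |ρ.im| ≤ Real.exp n → ρ.re = 0 := by
    intro ρ hρ h1
    by_contra h2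
    exact hN1 n (by omega) ρ (by rw [one_mul]; exact h1) ⟨hρ, Or.inl h2⟩
  have hκm : (2 + 2 * ε) * m = κ * n := by
    rw [hε, hm]
    field_simp
    ring
  have hpos : ∀ k : ℕ, 1 ≤ k → (k : ℝ) ≤ Real.exp ((2 + 2 * ε) * m) → 0 ≤ (lc n k).re := by
    intro k hk1 hk2
    rw [hκm] at hk2
    exact hN n k (by omega) hk1 hk2
  have key : ∀ s : ℂ, iteratedDeriv n XX s = 0 → |s.im| ≤ Real.exp m → s.re ≤ δ := by
    intro s hs him
    by_contra hc
    exact level hnm (by linarith) hδ hC0 hK0 g0 g1 g1' g2 g3 ((le_max_left _ _).trans hexp)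
      ((le_max_right _ _).trans hexp) hline hbase hGG hpos hs (not_le.1 hc) him
  rw [← hm] at him
  rw [abs_le]
  constructor
  · have := key (-s) (ff_neg hs) (by simpa using him)
    rw [Complex.neg_re] at this
    linarith
  · exact key s hs him

end Pool.Agent.K3h51.Li
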