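import Mathlib

set_option autoImplicit false

/-!
# Power sums: if one of the numbers is 1 then one of the first power sums is not small
-/

namespace Pool.Agent.K3h51.Li

open Finset Polynomial

theorem newton (W : Multiset ℂ) (k : ℕ) :
    (k : ℂ) * W.esymm k = (-1) ^ (k + 1) *
      ∑ a ∈ antidiagonal k with a.1 < k, (-1) ^ a.1 * W.esymm a.1 * (W.map fun z => z ^ a.2).sum := by
  obtain ⟨l, rfl⟩ := Quot.exists_rep W
  have hW : (Finset.univ : Finset (Fin l.length)).val.map l.get = (l : Multiset ℂ) := by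
    rw [Fin.univ_val_map, List.ofFn_get]
  have h := congrArg (MvPolynomial.aeval l.get) (MvPolynomial.mul_esymm_eq_sum (Fin l.length) ℂ k)
  rw [map_mul, map_mul, map_sum, map_natCast, map_pow, map_neg, map_one,
    MvPolynomial.aeval_esymm_eq_multiset_esymm, hW] at h
  refine h.trans ?_
  congr 1
  refine Finset.sum_congr rfl fun a _ => ?_
  rw [map_mul, map_mul, map_pow, map_neg, map_one, MvPolynomial.aeval_esymm_eq_multiset_esymm, hW]
  congr 1
  rw [MvPolynomial.psum, map_sum]
  have h2 : ∑ i : Fin l.length, MvPolynomial.aeval l.get (MvPolynomial.X i ^ a.2 :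
      MvPolynomial (Fin l.length) ℂ) = ((Finset.univ : Finset (Fin l.length)).val.map
        fun i => (l.get i) ^ a.2).sum := by
    rw [Finset.sum]
    congr 1
    apply Multiset.map_congr rfl
    intro i _
    rw [map_pow, MvPolynomial.aeval_X]
  rw [h2]
  have h3 : ((Finset.univ : Finset (Fin l.length)).val.map fun i => (l.get i) ^ a.2) =
      ((l : Multiset ℂ)).map fun z => z ^ a.2 := by
    rw [← hW, Multiset.map_map]
    rfl
  rw [h3]
  rfl

theorem turan (W : Multiset ℂ) (h1 : (1 : ℂ) ∈ W) :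
    ∃ l : ℕ, 1 ≤ l ∧ l ≤ Multiset.card W ∧
      1 / (Multiset.card W : ℝ) ≤ ‖(W.map fun z => z ^ l).sum‖ := by
  by_contra hcon
  push Not at hcon
  set L : ℕ := Multiset.card W with hL
  have hL0 : 0 < L := Multiset.card_pos.2 (fun h => by rw [h] at h1; exact Multiset.notMem_zero _ h1)
  have hL0' : (0 : ℝ) < L := by exact_mod_cast hL0
  have hL1 : 1 / (L : ℝ) ≤ 1 := by
    rw [div_le_one hL0']
    exact_mod_cast hL0
  have he0 : W.esymm 0 = 1 := by simp [Multiset.esymm]
  have hstep : ∀ k : ℕ, 1 ≤ k → k ≤ L → (∀ j < k, ‖W.esymm j‖ ≤ 1) → ‖W.esymm k‖ < 1 / (L : ℝ) := by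
    intro k hk1 hkL ih
    have hk0 : (0 : ℝ) < k := by exact_mod_cast hk1
    have hN := congrArg norm (newton W k)
    rw [norm_mul, norm_mul, norm_pow, norm_neg, norm_one, one_pow, one_mul, Complex.norm_natCast] at hN
    have hb : ‖∑ a ∈ antidiagonal k with a.1 < k,
        (-1) ^ a.1 * W.esymm a.1 * (W.map fun z => z ^ a.2).sum‖ < k * (1 / (L : ℝ)) := by
      have e1 : ∑ a ∈ antidiagonal k with a.1 < k,
          (-1) ^ a.1 * W.esymm a.1 * (W.map fun z => z ^ a.2).sum =
          ∑ i ∈ range k, (-1) ^ i * W.esymm i * (W.map fun z => z ^ (k - i)).sum := by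
        rw [Finset.sum_filter, Finset.Nat.sum_antidiagonal_eq_sum_range_succ_mk,
          Finset.sum_range_succ, if_neg (lt_irrefl _), add_zero]
        refine Finset.sum_congr rfl fun i hi => ?_
        rw [if_pos (Finset.mem_range.1 hi)]
      rw [e1]
      have h2 : ∀ i ∈ range k, ‖(-1) ^ i * W.esymm i * (W.map fun z => z ^ (k - i)).sum‖ <
          1 / (L : ℝ) := by
        intro i hi
        have hi' := Finset.mem_range.1 hi
        rw [norm_mul, norm_mul, norm_pow, norm_neg, norm_one, one_pow, one_mul]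
        have h3 := hcon (k - i) (by omega) (by omega)
        calc ‖W.esymm i‖ * ‖(W.map fun z => z ^ (k - i)).sum‖
            ≤ 1 * ‖(W.map fun z => z ^ (k - i)).sum‖ :=
              mul_le_mul_of_nonneg_right (ih i hi') (norm_nonneg _)
          _ < 1 / (L : ℝ) := by rw [one_mul]; exact h3
      refine lt_of_le_of_lt (norm_sum_le _ _) ?_
      have h4 := Finset.sum_lt_sum_of_nonempty (s := range k) ⟨0, Finset.mem_range.2 hk1⟩ h2
      rw [Finset.sum_const, Finset.card_range, nsmul_eq_mul] at h4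
      exact h4
    rw [← hN] at hb
    exact lt_of_mul_lt_mul_left hb hk0.le
  have hall : ∀ k : ℕ, k ≤ L → ‖W.esymm k‖ ≤ 1 := by
    intro k
    induction k using Nat.strong_induction_on with
    | _ k ih =>
      intro hk
      rcases Nat.eq_zero_or_pos k with h0 | h0
      · rw [h0, he0, norm_one]
      · exact ((hstep k h0 hk fun j hj => ih j hj (by omega)).trans_le hL1).le
  have hall2 : ∀ k : ℕ, 1 ≤ k → k ≤ L → ‖W.esymm k‖ < 1 / (L : ℝ) := fun k hk1 hk =>
    hstep k hk1 hk fun j hj => hall j (by omega)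
  have hP := congrArg (Polynomial.eval 1) (Multiset.prod_X_sub_X_eq_sum_esymm W)
  have hl : Polynomial.eval (1 : ℂ) (W.map fun t => X - C t).prod = 0 := by
    rw [Polynomial.eval_multiset_prod, Multiset.prod_eq_zero_iff, Multiset.map_map]
    exact Multiset.mem_map.2 ⟨1, h1, by simp⟩
  rw [hl, Polynomial.eval_finsetSum] at hP
  simp only [Polynomial.eval_mul, Polynomial.eval_pow, Polynomial.eval_neg, Polynomial.eval_one,
    Polynomial.eval_C, Polynomial.eval_X, one_pow, mul_one] at hP
  rw [← hL, Finset.sum_range_succ', he0, pow_zero, one_mul] at hP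
  have h5 : ‖∑ k ∈ range L, (-1) ^ (k + 1) * W.esymm (k + 1)‖ = 1 := by
    have : ∑ k ∈ range L, (-1) ^ (k + 1) * W.esymm (k + 1) = -1 := by linear_combination -hP
    rw [this, norm_neg, norm_one]
  have h6 : ‖∑ k ∈ range L, (-1) ^ (k + 1) * W.esymm (k + 1)‖ < 1 := by
    refine lt_of_le_of_lt (norm_sum_le _ _) ?_
    have h7 : ∀ i ∈ range L, ‖(-1) ^ (i + 1) * W.esymm (i + 1)‖ < 1 / (L : ℝ) := by
      intro i hi
      have hi' := Finset.mem_range.1 hi
      rw [norm_mul, norm_pow, norm_neg, norm_one, one_pow, one_mul]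
      exact hall2 (i + 1) (by omega) (by omega)
    have h8 := Finset.sum_lt_sum_of_nonempty (s := range L) ⟨0, Finset.mem_range.2 hL0⟩ h7
    rw [Finset.sum_const, Finset.card_range, nsmul_eq_mul] at h8
    have h9 : (L : ℝ) * (1 / L) = 1 := by field_simp
    rw [h9] at h8
    exact h8
  linarith

end Pool.Agent.K3h51.Li
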