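import Pool.Agent.K3h51.Li.Pair
import Pool.Agent.K3h51.Li.Turan

set_option autoImplicit false

/-!
# Estimates for the sums `Ss Z j w`
-/

namespace Pool.Agent.K3h51.Li

open Complex Filter Topology Metric

/-! ## Elementary inequalities -/

theorem pow_lin1 (x : ℂ) (p : ℕ) :
    ‖(1 + x) ^ p - 1 - p * x‖ ≤ p ^ 2 * ‖x‖ ^ 2 * (1 + ‖x‖) ^ p := by
  induction p with
  | zero => simp
  | succ p ih =>
    have e : (1 + x) ^ (p + 1) - 1 - ((p + 1 : ℕ) : ℂ) * x =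
        (1 + x) * ((1 + x) ^ p - 1 - p * x) + p * x ^ 2 := by
      push_cast
      ring
    rw [e]
    have h1 : ‖1 + x‖ ≤ 1 + ‖x‖ := by
      refine (norm_add_le _ _).trans ?_
      rw [norm_one]
    have h2 : 1 ≤ (1 + ‖x‖) ^ (p + 1) := one_le_pow₀ (by linarith [norm_nonneg x])
    refine (norm_add_le _ _).trans ?_
    rw [norm_mul, norm_mul, norm_pow, Complex.norm_natCast]
    have h3 : ‖1 + x‖ * ‖(1 + x) ^ p - 1 - p * x‖ ≤
        (1 + ‖x‖) * (p ^ 2 * ‖x‖ ^ 2 * (1 + ‖x‖) ^ p) :=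
      mul_le_mul h1 ih (norm_nonneg _) (by positivity)
    have h4 : (p : ℝ) * ‖x‖ ^ 2 ≤ p * ‖x‖ ^ 2 * (1 + ‖x‖) ^ (p + 1) :=
      le_mul_of_one_le_right (by positivity) h2
    calc _ ≤ (1 + ‖x‖) * (p ^ 2 * ‖x‖ ^ 2 * (1 + ‖x‖) ^ p) +
          p * ‖x‖ ^ 2 * (1 + ‖x‖) ^ (p + 1) := add_le_add h3 h4
      _ = (p ^ 2 + p) * ‖x‖ ^ 2 * (1 + ‖x‖) ^ (p + 1) := by ring
      _ ≤ ((p + 1 : ℕ) : ℝ) ^ 2 * ‖x‖ ^ 2 * (1 + ‖x‖) ^ (p + 1) := by
          have : (p : ℝ) ^ 2 + p ≤ ((p + 1 : ℕ) : ℝ) ^ 2 := by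
            push_cast
            nlinarith [Nat.cast_nonneg (α := ℝ) p]
          gcongr

theorem pow_lin2 {v : ℂ} (hv : ‖v‖ ≤ 1) (p : ℕ) :
    ‖v ^ p - 1 - p * (v - 1)‖ ≤ p ^ 2 * ‖v - 1‖ ^ 2 := by
  induction p with
  | zero => simp
  | succ p ih =>
    have e : v ^ (p + 1) - 1 - ((p + 1 : ℕ) : ℂ) * (v - 1) =
        v * (v ^ p - 1 - p * (v - 1)) + p * (v - 1) ^ 2 := by
      push_cast
      ring
    rw [e]
    refine (norm_add_le _ _).trans ?_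
    rw [norm_mul, norm_mul, norm_pow, Complex.norm_natCast]
    have h3 : ‖v‖ * ‖v ^ p - 1 - p * (v - 1)‖ ≤ 1 * (p ^ 2 * ‖v - 1‖ ^ 2) :=
      mul_le_mul hv ih (norm_nonneg _) (by norm_num)
    calc _ ≤ 1 * (p ^ 2 * ‖v - 1‖ ^ 2) + p * ‖v - 1‖ ^ 2 := by linarith
      _ = (p ^ 2 + p) * ‖v - 1‖ ^ 2 := by ring
      _ ≤ ((p + 1 : ℕ) : ℝ) ^ 2 * ‖v - 1‖ ^ 2 := by
          have : (p : ℝ) ^ 2 + p ≤ ((p + 1 : ℕ) : ℝ) ^ 2 := by
            push_cast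
            nlinarith [Nat.cast_nonneg (α := ℝ) p]
          gcongr

/-- `|1 - v ^ k| ≤ k |1 - v|` for `|v| ≤ 1` -/
theorem pow_sub_one_le {v : ℂ} (hv : ‖v‖ ≤ 1) (k : ℕ) : ‖1 - v ^ k‖ ≤ k * ‖1 - v‖ := by
  induction k with
  | zero => simp
  | succ k ih =>
    have e : 1 - v ^ (k + 1) = v * (1 - v ^ k) + (1 - v) := by ring
    rw [e]
    refine (norm_add_le _ _).trans ?_
    rw [norm_mul]
    have h3 : ‖v‖ * ‖1 - v ^ k‖ ≤ 1 * (k * ‖1 - v‖) :=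
      mul_le_mul hv ih (norm_nonneg _) (by norm_num)
    push_cast
    linarith

/-! ## The expansion at 0 -/

noncomputable def Vv (ρ w : ℂ) : ℂ := (ρ + 1 / 2) / ((ρ - 1 / 2) - (ρ + 1 / 2) * w)

theorem Ss_def (Z : Multiset ℂ) (j : ℕ) (w : ℂ) :
    Ss Z j w = (Z.map fun ρ => (1 / (1 - w)) ^ (j + 1) - (Vv ρ w) ^ (j + 1)).sum := rfl

theorem term_hasSum {ρ w : ℂ} (hρ : ρ - 1 / 2 ≠ 0) (hw : ‖w‖ < 1) (h : ‖uu ρ‖ * ‖w‖ < 1) (j : ℕ) :
    HasSum (fun m : ℕ => ((m + j).choose j : ℂ) * (1 - (uu ρ) ^ (m + j + 1)) * w ^ m)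
      ((1 / (1 - w)) ^ (j + 1) - (Vv ρ w) ^ (j + 1)) := by
  have h1 := hasSum_choose_mul_geometric_of_norm_lt_one j hw
  have h2 := (hasSum_choose_mul_geometric_of_norm_lt_one j (r := uu ρ * w)
    (by rw [norm_mul]; exact h)).mul_left ((uu ρ) ^ (j + 1))
  have h3 := h1.sub h2
  have e : (1 / (1 - w)) ^ (j + 1) - (Vv ρ w) ^ (j + 1) =
      1 / (1 - w) ^ (j + 1) - (uu ρ) ^ (j + 1) * (1 / (1 - uu ρ * w) ^ (j + 1)) := by
    have e1 : Vv ρ w = uu ρ / (1 - uu ρ * w) := by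
      unfold Vv uu
      have e2 : (1 - (ρ + 1 / 2) / (ρ - 1 / 2) * w) =
          ((ρ - 1 / 2) - (ρ + 1 / 2) * w) / (ρ - 1 / 2) := by
        rw [eq_div_iff hρ, sub_mul, one_mul, div_mul_eq_mul_div, div_mul_cancel₀ _ hρ]
      rw [e2, div_div_div_cancel_right₀ hρ]
    rw [e1, div_pow, div_pow, one_pow]
    ring
  rw [e]
  refine Pool.Agent.H24R2.JP.B1h.hcongr h3 fun m => ?_
  rw [mul_pow]
  ring

theorem Ss_hasSum {Z : Multiset ℂ} {w : ℂ} (hw : ‖w‖ < 1) (j : ℕ)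
    (h : ∀ ρ ∈ Z, ρ - 1 / 2 ≠ 0 ∧ ‖uu ρ‖ * ‖w‖ < 1) :
    HasSum (fun m : ℕ => ((m + j).choose j : ℂ) * Ss Z (m + j) 0 * w ^ m) (Ss Z j w) := by
  induction Z using Multiset.induction_on with
  | empty =>
    simp only [Ss, Multiset.map_zero, Multiset.sum_zero, mul_zero, zero_mul]
    exact hasSum_zero
  | cons a Z ih =>
    have h1 := ih fun ρ hρ => h ρ (Multiset.mem_cons_of_mem hρ)
    obtain ⟨h2, h3⟩ := h a (Multiset.mem_cons_self a Z)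
    have h4 := (term_hasSum h2 hw h3 j).add h1
    have e : Ss (a ::ₘ Z) j w = ((1 / (1 - w)) ^ (j + 1) - (Vv a w) ^ (j + 1)) + Ss Z j w := by
      rw [Ss_def, Multiset.map_cons, Multiset.sum_cons, ← Ss_def]
    rw [e]
    refine Pool.Agent.H24R2.JP.B1h.hcongr h4 fun m => ?_
    rw [Ss_zero, Ss_zero, Multiset.map_cons, Multiset.sum_cons]
    ring

/-! ## Size of the coefficients -/

theorem uu_mul (ρ : ℂ) (h : ρ + 1 / 2 ≠ 0) (h' : ρ - 1 / 2 ≠ 0) : uu ρ * uu (-ρ) = 1 := by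
  rw [uu_neg]
  apply mul_inv_cancel₀
  unfold uu
  exact div_ne_zero h h'

theorem half_of_norm {ρ : ℂ} (h : 1 / 2 ≤ ‖ρ + 1 / 2‖) : ρ + 1 / 2 ≠ 0 := by
  intro h0
  rw [h0, norm_zero] at h
  norm_num at h

theorem pair_bound {ρ : ℂ} {B : ℝ} {k : ℕ} (hs : |ρ.re| ≤ 1 / 2) (hB1 : ‖uu ρ‖ ≤ B) (hB2 : ‖uu (-ρ)‖ ≤ B)
    (h1 : 1 / 2 ≤ ‖ρ + 1 / 2‖) (h2 : 1 / 2 ≤ ‖ρ - 1 / 2‖) :
    ‖2 - (uu ρ) ^ k - (uu (-ρ)) ^ k‖ ≤ 484 * k ^ 2 * B ^ k * (1 / ‖(10 : ℂ) - ρ‖ ^ 2) := by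
  have n1 : ρ + 1 / 2 ≠ 0 := half_of_norm h1
  have n2 : ρ - 1 / 2 ≠ 0 := by
    intro h0
    rw [h0, norm_zero] at h2
    norm_num at h2
  have hm := uu_mul ρ n1 n2
  have hm' : (uu ρ) ^ k * (uu (-ρ)) ^ k = 1 := by rw [← mul_pow, hm, one_pow]
  have hB0 : 0 ≤ B := (norm_nonneg _).trans hB1
  have p1 : 0 < ‖ρ + 1 / 2‖ := norm_pos_iff.2 n1
  have p2 : 0 < ‖ρ - 1 / 2‖ := norm_pos_iff.2 n2
  have d1 : ‖(10 : ℂ) - ρ‖ ≤ 22 * ‖ρ + 1 / 2‖ := by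
    have e : (10 : ℂ) - ρ = (21 / 2 : ℂ) - (ρ + 1 / 2) := by ring
    rw [e]
    refine (norm_sub_le _ _).trans ?_
    have : ‖(21 / 2 : ℂ)‖ = 21 / 2 := by simp
    rw [this]
    linarith
  have d2 : ‖(10 : ℂ) - ρ‖ ≤ 22 * ‖ρ - 1 / 2‖ := by
    have e : (10 : ℂ) - ρ = (19 / 2 : ℂ) - (ρ - 1 / 2) := by ring
    rw [e]
    refine (norm_sub_le _ _).trans ?_
    have : ‖(19 / 2 : ℂ)‖ = 19 / 2 := by simp
    rw [this]
    linarith
  have p3 : 0 < ‖(10 : ℂ) - ρ‖ := by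
    have h3 := Complex.re_le_norm ((10 : ℂ) - ρ)
    have h4 := (abs_le.1 hs).2
    rw [Complex.sub_re] at h3
    have h5 : (10 : ℂ).re = 10 := by simp
    rw [h5] at h3
    linarith
  rcases le_total ‖uu (-ρ)‖ 1 with hle | hle
  · have e : 2 - (uu ρ) ^ k - (uu (-ρ)) ^ k = -((uu ρ) ^ k * (1 - (uu (-ρ)) ^ k) ^ 2) := by
      linear_combination ((uu (-ρ)) ^ k - 2) * hm'
    rw [e, norm_neg, norm_mul, norm_pow, norm_pow]
    have h3 := pow_sub_one_le hle k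
    have h4 : 1 - uu (-ρ) = 1 / (ρ + 1 / 2) := by
      rw [uu_neg]
      unfold uu
      rw [inv_div, eq_div_iff n1, sub_mul, div_mul_cancel₀ _ n1]
      ring
    rw [h4, norm_div, norm_one] at h3
    have h5 : 1 / ‖ρ + 1 / 2‖ ^ 2 ≤ 484 * (1 / ‖(10 : ℂ) - ρ‖ ^ 2) := by
      rw [mul_one_div, div_le_div_iff₀ (by positivity) (by positivity)]
      nlinarith [mul_le_mul d1 d1 (norm_nonneg _) (by positivity)]
    calc ‖uu ρ‖ ^ k * ‖1 - uu (-ρ) ^ k‖ ^ 2 ≤ B ^ k * (k * (1 / ‖ρ + 1 / 2‖)) ^ 2 := by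
          gcongr
      _ = B ^ k * k ^ 2 * (1 / ‖ρ + 1 / 2‖ ^ 2) := by
          rw [mul_pow, div_pow, one_pow]
          ring
      _ ≤ B ^ k * k ^ 2 * (484 * (1 / ‖(10 : ℂ) - ρ‖ ^ 2)) := by gcongr
      _ = _ := by ring
  · have hle' : ‖uu ρ‖ ≤ 1 := by
      have h3 := congrArg norm hm
      rw [norm_mul, norm_one] at h3
      by_contra hc
      push Not at hc
      nlinarith
    have e : 2 - (uu ρ) ^ k - (uu (-ρ)) ^ k = -((uu (-ρ)) ^ k * (1 - (uu ρ) ^ k) ^ 2) := by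
      linear_combination ((uu ρ) ^ k - 2) * hm'
    rw [e, norm_neg, norm_mul, norm_pow, norm_pow]
    have h3 := pow_sub_one_le hle' k
    have h4 : 1 - uu ρ = -(1 / (ρ - 1 / 2)) := by
      unfold uu
      rw [← neg_div, eq_div_iff n2, sub_mul, div_mul_cancel₀ _ n2]
      ring
    rw [h4, norm_neg, norm_div, norm_one] at h3
    have h5 : 1 / ‖ρ - 1 / 2‖ ^ 2 ≤ 484 * (1 / ‖(10 : ℂ) - ρ‖ ^ 2) := by
      rw [mul_one_div, div_le_div_iff₀ (by positivity) (by positivity)]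
      nlinarith [mul_le_mul d2 d2 (norm_nonneg _) (by positivity)]
    calc ‖uu (-ρ)‖ ^ k * ‖1 - uu ρ ^ k‖ ^ 2 ≤ B ^ k * (k * (1 / ‖ρ - 1 / 2‖)) ^ 2 := by
          gcongr
      _ = B ^ k * k ^ 2 * (1 / ‖ρ - 1 / 2‖ ^ 2) := by
          rw [mul_pow, div_pow, one_pow]
          ring
      _ ≤ B ^ k * k ^ 2 * (484 * (1 / ‖(10 : ℂ) - ρ‖ ^ 2)) := by gcongr
      _ = _ := by ring


theorem norm_sum_le' (Z : Multiset ℂ) (f : ℂ → ℂ) (g : ℂ → ℝ) (h : ∀ ρ ∈ Z, ‖f ρ‖ ≤ g ρ) :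
    ‖(Z.map f).sum‖ ≤ (Z.map g).sum := by
  refine (norm_multiset_sum_le _).trans ?_
  rw [Multiset.map_map]
  exact Multiset.sum_map_le_sum_map _ _ h

/-- Size of the coefficients. -/
theorem lam_bound {Z : Multiset ℂ} (hZ : Z.map (fun ρ => -ρ) = Z) (hs : Strp Z) {B : ℝ}
    (hB : ∀ ρ ∈ Z, ‖uu ρ‖ ≤ B) (hmin : ∀ ρ ∈ Z, 1 / 2 ≤ ‖ρ + 1 / 2‖) (j : ℕ) :
    ‖Ss Z j 0‖ ≤ 242 * As Z 10 * (j + 1) ^ 2 * B ^ (j + 1) := by
  have hneg : ∀ ρ ∈ Z, -ρ ∈ Z := by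
    intro ρ hρ
    rw [← hZ]
    exact Multiset.mem_map.2 ⟨ρ, hρ, rfl⟩
  have h2 : 2 * Ss Z j 0 = (Z.map fun ρ => 2 - (uu ρ) ^ (j + 1) - (uu (-ρ)) ^ (j + 1)).sum := by
    rw [Ss_zero, two_mul]
    have h1 : (Z.map fun ρ => 1 - (uu ρ) ^ (j + 1)).sum =
        (Z.map fun ρ => 1 - (uu (-ρ)) ^ (j + 1)).sum := by
      conv_lhs => rw [← hZ]
      rw [Multiset.map_map]
      rfl
    nth_rewrite 2 [h1]
    rw [← Multiset.sum_map_add]
    congr 1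
    apply Multiset.map_congr rfl
    intro ρ _
    ring
  have h3 : ‖(Z.map fun ρ => 2 - (uu ρ) ^ (j + 1) - (uu (-ρ)) ^ (j + 1)).sum‖ ≤
      (Z.map fun ρ => 484 * ((j + 1 : ℕ) : ℝ) ^ 2 * B ^ (j + 1) * (1 / ‖(10 : ℂ) - ρ‖ ^ 2)).sum := by
    refine norm_sum_le' _ _ _ fun ρ hρ => ?_
    refine pair_bound (hs ρ hρ) (hB ρ hρ) (hB _ (hneg ρ hρ)) (hmin ρ hρ) ?_
    have := hmin _ (hneg ρ hρ)
    have e : -ρ + 1 / 2 = -(ρ - 1 / 2) := by ring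
    rwa [e, norm_neg] at this
  rw [Multiset.sum_map_mul_left, ← h2, norm_mul] at h3
  have h4 : ‖(2 : ℂ)‖ = 2 := by simp
  rw [h4] at h3
  push_cast at h3
  unfold As
  linarith

theorem choose_bound (m j : ℕ) : ((m + j + 1 : ℕ) : ℝ) ^ 2 * ((m + j).choose j : ℝ) ≤
    ((j : ℝ) + 2) ^ 2 * ((m + (j + 2)).choose (j + 2) : ℝ) := by
  have h1 : ((m + j + 1 : ℕ) : ℝ) * ((m + j).choose j : ℝ) =
      ((m + j + 1).choose (j + 1) : ℝ) * ((j + 1 : ℕ) : ℝ) := by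
    exact_mod_cast Nat.add_one_mul_choose_eq (m + j) j
  have h2 : ((m + j + 1 + 1 : ℕ) : ℝ) * ((m + j + 1).choose (j + 1) : ℝ) =
      ((m + j + 1 + 1).choose (j + 1 + 1) : ℝ) * ((j + 1 + 1 : ℕ) : ℝ) := by
    exact_mod_cast Nat.add_one_mul_choose_eq (m + j + 1) (j + 1)
  have e : m + (j + 2) = m + j + 1 + 1 := by ring
  rw [e]
  have h0 : (0 : ℝ) ≤ ((m + j + 1 + 1).choose (j + 1 + 1) : ℝ) := Nat.cast_nonneg _
  have h00 : (0 : ℝ) ≤ ((m + j + 1).choose (j + 1) : ℝ) := Nat.cast_nonneg _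
  push_cast at h1 h2 ⊢
  have hj : (0 : ℝ) ≤ j := Nat.cast_nonneg j
  have hm : (0 : ℝ) ≤ m := Nat.cast_nonneg m
  calc ((m : ℝ) + j + 1) ^ 2 * ((m + j).choose j : ℝ)
      = (m + j + 1) * ((m + j + 1) * ((m + j).choose j : ℝ)) := by ring
    _ = (m + j + 1) * (((m + j + 1).choose (j + 1) : ℝ) * (j + 1)) := by rw [h1]
    _ ≤ (m + j + 1 + 1) * (((m + j + 1).choose (j + 1) : ℝ) * (j + 1)) := by
        apply mul_le_mul_of_nonneg_right _ (by positivity)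
        linarith
    _ = (j + 1) * ((m + j + 1 + 1) * ((m + j + 1).choose (j + 1) : ℝ)) := by ring
    _ = (j + 1) * (((m + j + 1 + 1).choose (j + 1 + 1) : ℝ) * (j + 1 + 1)) := by rw [h2]
    _ ≤ ((j : ℝ) + 2) ^ 2 * ((m + j + 1 + 1).choose (j + 1 + 1) : ℝ) := by
        have : ((j : ℝ) + 1) * (j + 1 + 1) ≤ (j + 2) ^ 2 := by nlinarith
        nlinarith

/-- Positivity of the coefficients bounds `Ss Z j w` by its value at `|w|`. -/
theorem transfer {Z : Multiset ℂ} {w : ℂ} {r B D p : ℝ} {K : ℕ} (j : ℕ) (hr : r = ‖w‖) (hr1 : r < 1)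
    (hρ : ∀ ρ ∈ Z, ρ - 1 / 2 ≠ 0) (hB : ∀ ρ ∈ Z, ‖uu ρ‖ ≤ B) (hB1 : 1 ≤ B) (hp0 : 0 < p) (hp1 : p < 1)
    (hBp : B * r ≤ p ^ 2) (hD0 : 0 ≤ D)
    (hD : ∀ i : ℕ, ‖Ss Z i 0‖ ≤ D * ((i + 1 : ℕ) : ℝ) ^ 2 * B ^ (i + 1))
    (hpos : ∀ i : ℕ, i + 1 ≤ K → ‖Ss Z i 0‖ ≤ (Ss Z i 0).re + 1) :
    ‖Ss Z j w‖ ≤ (Ss Z j r).re + 1 / (1 - r) ^ (j + 1) +
      2 * D * ((j : ℝ) + 2) ^ 2 * B ^ (j + 1) * p ^ (K - j) * (1 / (1 - p) ^ (j + 3)) := by
  have hr0 : 0 ≤ r := by rw [hr]; exact norm_nonneg _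
  have hrn : ‖(r : ℂ)‖ = r := by rw [Complex.norm_real, Real.norm_eq_abs, abs_of_nonneg hr0]
  have hpp : p ^ 2 < 1 := by nlinarith
  have hlt : ∀ ρ ∈ Z, ‖uu ρ‖ * r < 1 := fun ρ hρ' =>
    lt_of_le_of_lt ((mul_le_mul_of_nonneg_right (hB ρ hρ') hr0).trans hBp) hpp
  have h1 := Ss_hasSum (Z := Z) (w := w) (by rw [← hr]; exact hr1) j
    (fun ρ hρ' => ⟨hρ ρ hρ', by rw [← hr]; exact hlt ρ hρ'⟩)
  have h2 := Ss_hasSum (Z := Z) (w := (r : ℂ)) (by rw [hrn]; exact hr1) j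
    (fun ρ hρ' => ⟨hρ ρ hρ', by rw [hrn]; exact hlt ρ hρ'⟩)
  have h3 := Complex.hasSum_re h2
  have h4 := hasSum_choose_mul_geometric_of_norm_lt_one (𝕜 := ℝ) j (r := r)
    (by rw [Real.norm_eq_abs, abs_of_nonneg hr0]; exact hr1)
  have h5 := (hasSum_choose_mul_geometric_of_norm_lt_one (𝕜 := ℝ) (j + 2) (r := p)
    (by rw [Real.norm_eq_abs, abs_of_pos hp0]; exact hp1)).mul_left
      (2 * D * ((j : ℝ) + 2) ^ 2 * B ^ (j + 1) * p ^ (K - j))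
  have h6 := (h3.add h4).add h5
  refine h1.norm_le_of_bounded h6 fun m => ?_
  have hB0 : 0 ≤ B := by linarith
  set C : ℝ := ((m + j).choose j : ℝ) with hC
  have hC0 : 0 ≤ C := Nat.cast_nonneg _
  set lam : ℂ := Ss Z (m + j) 0 with hlam
  have e1 : ‖((m + j).choose j : ℂ) * lam * w ^ m‖ = C * ‖lam‖ * r ^ m := by
    rw [norm_mul, norm_mul, norm_pow, ← hr, Complex.norm_natCast]
  have e2 : (((m + j).choose j : ℂ) * lam * (r : ℂ) ^ m).re = C * lam.re * r ^ m := by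
    have : ((m + j).choose j : ℂ) * lam * (r : ℂ) ^ m = ((C * r ^ m : ℝ) : ℂ) * lam := by
      rw [Complex.ofReal_mul, hC, Complex.ofReal_natCast]
      push_cast
      ring
    rw [this, Complex.re_ofReal_mul]
    ring
  rw [e1, e2]
  have hrm : 0 ≤ r ^ m := pow_nonneg hr0 m
  have hlast : 0 ≤ 2 * D * ((j : ℝ) + 2) ^ 2 * B ^ (j + 1) * p ^ (K - j) *
      (((m + (j + 2)).choose (j + 2) : ℝ) * p ^ m) := by positivity
  rcases le_or_gt (m + j + 1) K with hle | hgt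
  · have h7 := hpos (m + j) hle
    rw [← hlam] at h7
    have h8 : C * ‖lam‖ * r ^ m ≤ C * (lam.re + 1) * r ^ m := by gcongr
    have h9 : C * (lam.re + 1) * r ^ m = C * lam.re * r ^ m + C * r ^ m := by ring
    linarith
  · have h7 := hD (m + j)
    rw [← hlam] at h7
    have h8 : -‖lam‖ ≤ lam.re := (abs_le.1 (Complex.abs_re_le_norm lam)).1
    have h9 : -(C * ‖lam‖ * r ^ m) ≤ C * lam.re * r ^ m := by
      have : C * (-‖lam‖) * r ^ m ≤ C * lam.re * r ^ m := by gcongr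
      linarith
    have h10 : 2 * (C * ‖lam‖ * r ^ m) ≤ 2 * D * ((j : ℝ) + 2) ^ 2 * B ^ (j + 1) * p ^ (K - j) *
        (((m + (j + 2)).choose (j + 2) : ℝ) * p ^ m) := by
      have h11 := choose_bound m j
      rw [← hC] at h11
      have h12 : (B * r) ^ m ≤ p ^ (K - j) * p ^ m := by
        calc (B * r) ^ m ≤ (p ^ 2) ^ m := pow_le_pow_left₀ (by positivity) hBp m
          _ = p ^ m * p ^ m := by rw [← pow_mul, ← pow_add]; congr 1; ring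
          _ ≤ p ^ (K - j) * p ^ m := by
              apply mul_le_mul_of_nonneg_right _ (by positivity)
              exact pow_le_pow_of_le_one hp0.le hp1.le (by omega)
      calc 2 * (C * ‖lam‖ * r ^ m)
          ≤ 2 * (C * (D * ((m + j + 1 : ℕ) : ℝ) ^ 2 * B ^ (m + j + 1)) * r ^ m) := by gcongr
        _ = 2 * D * B ^ (j + 1) * (((m + j + 1 : ℕ) : ℝ) ^ 2 * C) * (B * r) ^ m := by
            rw [mul_pow]
            ring
        _ ≤ 2 * D * B ^ (j + 1) * (((j : ℝ) + 2) ^ 2 * ((m + (j + 2)).choose (j + 2) : ℝ)) *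
            (p ^ (K - j) * p ^ m) := by gcongr
        _ = _ := by ring
    have h13 : 0 ≤ C * r ^ m := by positivity
    linarith


/-! ## The value at a real point -/

theorem V_eq {ρ w : ℂ} (hw : w ≠ 1) (h : ρ ≠ zw w) :
    Vv ρ w = 1 / (1 - w) * (1 + 1 / (1 - w) / (ρ - zw w)) := by
  have h1 : 1 - w ≠ 0 := sub_ne_zero.2 (Ne.symm hw)
  have h2 : ρ - zw w ≠ 0 := sub_ne_zero.2 h
  have h3 : (ρ - 1 / 2) - (ρ + 1 / 2) * w = (ρ - zw w) * (1 - w) := by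
    unfold zw
    field_simp
    ring
  unfold Vv
  rw [h3]
  have h4 : 1 + 1 / (1 - w) / (ρ - zw w) = (ρ + 1 / 2) / (ρ - zw w) := by
    rw [eq_div_iff h2, add_mul, one_mul, div_mul_cancel₀ _ h2]
    unfold zw
    ring
  rw [h4]
  field_simp

/-- Upper bound at a real point close to 1. -/
theorem upper_r {Z : Multiset ℂ} (hs : Strp Z) {r : ℝ} (hr0 : 1 / 2 ≤ r) (hr1 : r < 1) (j : ℕ)
    (hne : ∀ ρ ∈ Z, ρ ≠ zw r) :
    ‖Ss Z j r‖ ≤ (1 / (1 - r)) ^ (j + 1) * (((j + 1 : ℕ) : ℝ) ^ 2 * (1 / (1 - r)) ^ 2 * As Z (zw r) +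
      ((j + 1 : ℕ) : ℝ) * (1 / (1 - r)) * ‖gs Z (zw r)‖) := by
  have hr2 : 0 < 1 - r := by linarith
  obtain ⟨s, hs'⟩ : ∃ s : ℝ, s = 1 / (1 - r) := ⟨_, rfl⟩
  have hsC : (1 : ℂ) / (1 - (r : ℂ)) = (s : ℂ) := by
    rw [hs']
    push_cast
    ring
  have hs2 : 2 ≤ s := by
    rw [hs', le_div_iff₀ hr2]
    linarith
  have hrne : (r : ℂ) ≠ 1 := by
    intro h
    have : r = 1 := by exact_mod_cast h
    linarith
  have hzw : zw r = ((s - 1 / 2 : ℝ) : ℂ) := by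
    unfold zw
    rw [hsC]
    push_cast
    ring
  rw [← hs', Ss_def]
  set P : ℕ := j + 1 with hP
  -- the terms
  have hterm : ∀ ρ ∈ Z, (1 / (1 - (r : ℂ))) ^ P - (Vv ρ r) ^ P =
      -((s : ℂ) ^ P) * (((1 + s / (ρ - zw r)) ^ P - 1 - P * ((1 + s / (ρ - zw r)) - 1)) +
        P * (s / (ρ - zw r))) := by
    intro ρ hρ
    rw [V_eq hrne (hne ρ hρ), hsC, mul_pow]
    ring
  rw [Multiset.map_congr rfl hterm, Multiset.sum_map_mul_left, norm_mul, norm_neg, norm_pow,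
    Complex.norm_real, Real.norm_eq_abs, abs_of_nonneg (by linarith)]
  refine mul_le_mul_of_nonneg_left ?_ (by positivity)
  rw [Multiset.sum_map_add]
  refine (norm_add_le _ _).trans (add_le_add ?_ ?_)
  · refine (norm_sum_le' _ _ (fun ρ => ((P : ℕ) : ℝ) ^ 2 * s ^ 2 * (1 / ‖zw r - ρ‖ ^ 2)) ?_).trans ?_
    · intro ρ hρ
      have h2 : ρ - zw r ≠ 0 := sub_ne_zero.2 (hne ρ hρ)
      have hv : ‖1 + (s : ℂ) / (ρ - zw r)‖ ≤ 1 := by
        have e : 1 + (s : ℂ) / (ρ - zw r) = (ρ + 1 / 2) / (ρ - zw r) := by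
          rw [eq_div_iff h2, add_mul, one_mul, div_mul_cancel₀ _ h2, hzw]
          push_cast
          ring
        rw [e, norm_div, div_le_one (norm_pos_iff.2 h2)]
        refine le_of_sq_le_sq ?_ (norm_nonneg _)
        obtain ⟨a1, a2⟩ := abs_le.1 (hs ρ hρ)
        rw [← Complex.normSq_eq_norm_sq, ← Complex.normSq_eq_norm_sq, Complex.normSq_apply,
          Complex.normSq_apply, hzw]
        simp only [Complex.add_re, Complex.add_im, Complex.sub_re, Complex.sub_im,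
          Complex.ofReal_re, Complex.ofReal_im, Complex.one_re, Complex.one_im, Complex.div_ofNat_re,
          Complex.div_ofNat_im]
        nlinarith
      refine (pow_lin2 hv P).trans (le_of_eq ?_)
      have e2 : 1 + (s : ℂ) / (ρ - zw r) - 1 = (s : ℂ) / (ρ - zw r) := by ring
      rw [e2, norm_div, Complex.norm_real, Real.norm_eq_abs, abs_of_nonneg (by linarith), div_pow,
        norm_sub_rev ρ]
      ring
    · rw [Multiset.sum_map_mul_left]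
      exact le_rfl
  · rw [Multiset.sum_map_mul_left]
    have e3 : (Z.map fun ρ => (s : ℂ) / (ρ - zw r)).sum = -(s : ℂ) * gs Z (zw r) := by
      unfold gs
      rw [← Multiset.sum_map_mul_left]
      congr 1
      apply Multiset.map_congr rfl
      intro ρ _
      have : ρ - zw r = -(zw r - ρ) := by ring
      rw [this, div_neg]
      ring
    rw [e3, norm_mul, norm_mul, norm_neg, Complex.norm_real, Real.norm_eq_abs,
      abs_of_nonneg (by linarith : (0 : ℝ) ≤ s), Complex.norm_natCast, mul_assoc]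

/-! ## Near and far zeros -/

theorem filter_sum_le (Z : Multiset ℂ) (q : ℂ → Prop) [DecidablePred q] (g : ℂ → ℝ)
    (hg : ∀ ρ ∈ Z, 0 ≤ g ρ) : ((Z.filter q).map g).sum ≤ (Z.map g).sum := by
  have h1 := Multiset.filter_add_not q Z
  have h2 : (Z.map g).sum = ((Z.filter q).map g).sum + ((Z.filter fun a => ¬ q a).map g).sum := by
    conv_lhs => rw [← h1]
    rw [Multiset.map_add, Multiset.sum_add]
  have h3 : 0 ≤ ((Z.filter fun a => ¬ q a).map g).sum := by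
    refine Multiset.sum_nonneg fun x hx => ?_
    obtain ⟨ρ, hρ, rfl⟩ := Multiset.mem_map.1 hx
    exact hg ρ (Multiset.mem_of_mem_filter hρ)
  linarith

/-- The contribution of the far zeros. -/
theorem far_bound {Z : Multiset ℂ} (hs : Strp Z) {w : ℂ} (hw : w ≠ 1) (P : ℕ)
    (hre : -(1 / 10) ≤ (zw w).re) {Y : ℝ} (hY : ‖gs Z (zw w + 11)‖ ≤ Y) :
    ((Z.filter fun ρ => ‖zw w - ρ‖ < 1 / 2).card : ℝ) ≤ 15 * Y ∧
    ‖((Z.filter fun ρ => ¬ ‖zw w - ρ‖ < 1 / 2).map fun ρ => (1 / (1 - w)) ^ P - (Vv ρ w) ^ P).sum‖ ≤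
      ‖1 / (1 - w)‖ ^ P * (60 * P ^ 2 * ‖1 / (1 - w)‖ ^ 2 * (1 + 2 * ‖1 / (1 - w)‖) ^ P * Y +
        40 * P * ‖1 / (1 - w)‖ * Y) := by
  obtain ⟨s, hsd⟩ : ∃ s : ℂ, s = 1 / (1 - w) := ⟨_, rfl⟩
  obtain ⟨z1, hz1⟩ : ∃ z1 : ℂ, z1 = zw w := ⟨_, rfl⟩
  have hV : ∀ ρ, ρ ≠ z1 → Vv ρ w = s * (1 + s / (ρ - z1)) := by
    intro ρ hρ
    rw [hsd, hz1]
    exact V_eq hw (by rw [← hz1]; exact hρ)
  rw [← hsd, ← hz1]
  rw [← hz1] at hre hY
  have hY0 : 0 ≤ Y := (norm_nonneg _).trans hY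
  obtain ⟨z2, hz2⟩ : ∃ z2 : ℂ, z2 = z1 + 11 := ⟨_, rfl⟩
  rw [← hz2] at hY
  have hre2 : 109 / 10 ≤ z2.re := by
    rw [hz2, Complex.add_re]
    have : (11 : ℂ).re = 11 := by simp
    rw [this]
    linarith
  have hA0 := as_nonneg Z z2
  have hA : As Z z2 ≤ Y / (104 / 10) := by
    rw [le_div_iff₀ (by norm_num)]
    have h1 := as_le hs z2
    have h2 := (Complex.re_le_norm (gs Z z2)).trans hY
    nlinarith
  have hd2 : ∀ ρ ∈ Z, 104 / 10 ≤ ‖z2 - ρ‖ := by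
    intro ρ hρ
    have h1 := Complex.re_le_norm (z2 - ρ)
    rw [Complex.sub_re] at h1
    have h2 := (abs_le.1 (hs ρ hρ)).2
    linarith
  -- near
  set Zn := Z.filter fun ρ => ‖z1 - ρ‖ < 1 / 2 with hZn
  set Zf := Z.filter fun ρ => ¬ ‖z1 - ρ‖ < 1 / 2 with hZf
  have h11 : ‖(11 : ℂ)‖ = 11 := by simp
  have hz12 : ∀ ρ, z2 - ρ = (z1 - ρ) + 11 := by
    intro ρ
    rw [hz2]
    ring
  have hcard : (Zn.card : ℝ) ≤ 15 * Y := by
    have h1 : (Zn.card : ℝ) ≤ (Zn.map fun ρ => 529 / 4 * (1 / ‖z2 - ρ‖ ^ 2)).sum := by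
      have h2 : (Zn.card : ℝ) = (Zn.map fun _ => (1 : ℝ)).sum := by simp
      rw [h2]
      refine Multiset.sum_map_le_sum_map _ _ fun ρ hρ => ?_
      obtain ⟨h3, h4⟩ := Multiset.mem_filter.1 hρ
      have h5 := hd2 ρ h3
      have h6 : ‖z2 - ρ‖ ≤ 23 / 2 := by
        rw [hz12]
        refine (norm_add_le _ _).trans ?_
        rw [h11]
        linarith
      rw [mul_one_div, le_div_iff₀ (by positivity)]
      nlinarith
    have h2 := filter_sum_le Z (fun ρ => ‖z1 - ρ‖ < 1 / 2) (fun ρ => 529 / 4 * (1 / ‖z2 - ρ‖ ^ 2))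
      (fun ρ _ => by positivity)
    have h3 : (Z.map fun ρ => 529 / 4 * (1 / ‖z2 - ρ‖ ^ 2)).sum = 529 / 4 * As Z z2 := by
      rw [Multiset.sum_map_mul_left]
      rfl
    rw [h3] at h2
    have h4 : 529 / 4 * As Z z2 ≤ 15 * Y := by
      have : Y / (104 / 10) = 10 / 104 * Y := by ring
      rw [this] at hA
      nlinarith
    linarith
  refine ⟨hcard, ?_⟩
  have hfar : ∀ ρ ∈ Zf, ρ ∈ Z ∧ 1 / 2 ≤ ‖z1 - ρ‖ := by
    intro ρ hρ
    obtain ⟨h3, h4⟩ := Multiset.mem_filter.1 hρ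
    exact ⟨h3, not_lt.1 h4⟩
  have hne : ∀ ρ ∈ Zf, ρ ≠ z1 := by
    intro ρ hρ h0
    have := (hfar ρ hρ).2
    rw [h0, sub_self, norm_zero] at this
    norm_num at this
  have hcmp : ∀ ρ ∈ Zf, ‖z2 - ρ‖ ≤ 23 * ‖z1 - ρ‖ := by
    intro ρ hρ
    have := (hfar ρ hρ).2
    rw [hz12]
    refine (norm_add_le _ _).trans ?_
    rw [h11]
    linarith
  have hfarA : (Zf.map fun ρ => 1 / ‖z2 - ρ‖ ^ 2).sum ≤ As Z z2 :=
    filter_sum_le Z _ (fun ρ => 1 / ‖z2 - ρ‖ ^ 2) (fun ρ _ => by positivity)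
  have hterm : ∀ ρ ∈ Zf, s ^ P - (Vv ρ w) ^ P =
      -(s ^ P) * (((1 + s / (ρ - z1)) ^ P - 1 - P * (s / (ρ - z1))) + P * (s / (ρ - z1))) := by
    intro ρ hρ
    rw [hV ρ (hne ρ hρ), mul_pow]
    ring
  rw [Multiset.map_congr rfl hterm, Multiset.sum_map_mul_left, norm_mul, norm_neg, norm_pow]
  refine mul_le_mul_of_nonneg_left ?_ (by positivity)
  rw [Multiset.sum_map_add]
  refine (norm_add_le _ _).trans (add_le_add ?_ ?_)
  · refine (norm_sum_le' _ _ (fun ρ => ((P : ℕ) : ℝ) ^ 2 * ‖s‖ ^ 2 * (1 + 2 * ‖s‖) ^ P * 529 *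
      (1 / ‖z2 - ρ‖ ^ 2)) ?_).trans ?_
    · intro ρ hρ
      obtain ⟨h3, h4⟩ := hfar ρ hρ
      have h5 := hcmp ρ hρ
      have h6 := hd2 ρ h3
      have h7 : ‖s / (ρ - z1)‖ = ‖s‖ / ‖z1 - ρ‖ := by rw [norm_div, norm_sub_rev ρ]
      have h8 : ‖s / (ρ - z1)‖ ≤ 2 * ‖s‖ := by
        rw [h7, div_le_iff₀ (by linarith)]
        nlinarith [norm_nonneg s]
      have h9 : ‖s / (ρ - z1)‖ ^ 2 ≤ ‖s‖ ^ 2 * (529 * (1 / ‖z2 - ρ‖ ^ 2)) := by
        rw [h7, div_pow, div_eq_mul_one_div]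
        refine mul_le_mul_of_nonneg_left ?_ (by positivity)
        rw [mul_one_div, div_le_div_iff₀ (by positivity) (by positivity)]
        nlinarith [mul_le_mul h5 h5 (norm_nonneg _) (by positivity)]
      refine (pow_lin1 _ P).trans ?_
      calc ((P : ℕ) : ℝ) ^ 2 * ‖s / (ρ - z1)‖ ^ 2 * (1 + ‖s / (ρ - z1)‖) ^ P
          ≤ ((P : ℕ) : ℝ) ^ 2 * (‖s‖ ^ 2 * (529 * (1 / ‖z2 - ρ‖ ^ 2))) * (1 + 2 * ‖s‖) ^ P := by
            gcongr
        _ = _ := by ring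
    · rw [Multiset.sum_map_mul_left]
      have h1 : (529 : ℝ) * (Zf.map fun ρ => 1 / ‖z2 - ρ‖ ^ 2).sum ≤ 60 * Y := by
        have : Y / (104 / 10) = 10 / 104 * Y := by ring
        rw [this] at hA
        nlinarith
      calc ((P : ℕ) : ℝ) ^ 2 * ‖s‖ ^ 2 * (1 + 2 * ‖s‖) ^ P * 529 *
            (Zf.map fun ρ => 1 / ‖z2 - ρ‖ ^ 2).sum
          = ((P : ℕ) : ℝ) ^ 2 * ‖s‖ ^ 2 * (1 + 2 * ‖s‖) ^ P *
            (529 * (Zf.map fun ρ => 1 / ‖z2 - ρ‖ ^ 2).sum) := by ring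
        _ ≤ ((P : ℕ) : ℝ) ^ 2 * ‖s‖ ^ 2 * (1 + 2 * ‖s‖) ^ P * (60 * Y) := by gcongr
        _ = _ := by ring
  · rw [Multiset.sum_map_mul_left]
    have e3 : (Zf.map fun ρ => s / (ρ - z1)).sum = -s * (Zf.map fun ρ => 1 / (z1 - ρ)).sum := by
      rw [← Multiset.sum_map_mul_left]
      congr 1
      apply Multiset.map_congr rfl
      intro ρ _
      have : ρ - z1 = -(z1 - ρ) := by ring
      rw [this, div_neg]
      ring
    have hsum : ‖(Zf.map fun ρ => 1 / (z1 - ρ)).sum‖ ≤ 40 * Y := by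
      have e4 : (Zf.map fun ρ => 1 / (z1 - ρ)).sum =
          (Zf.map fun ρ => 1 / (z1 - ρ) - 1 / (z2 - ρ)).sum + (Zf.map fun ρ => 1 / (z2 - ρ)).sum := by
        rw [← Multiset.sum_map_add]
        congr 1
        apply Multiset.map_congr rfl
        intro ρ _
        ring
      have e5 : (Zf.map fun ρ => 1 / (z2 - ρ)).sum =
          gs Z z2 - (Zn.map fun ρ => 1 / (z2 - ρ)).sum := by
        have h1 := Multiset.filter_add_not (fun ρ => ‖z1 - ρ‖ < 1 / 2) Z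
        have h2 : gs Z z2 = (Zn.map fun ρ => 1 / (z2 - ρ)).sum +
            (Zf.map fun ρ => 1 / (z2 - ρ)).sum := by
          unfold gs
          conv_lhs => rw [← h1]
          rw [Multiset.map_add, Multiset.sum_add]
        rw [h2]
        ring
      have b1 : ‖(Zf.map fun ρ => 1 / (z1 - ρ) - 1 / (z2 - ρ)).sum‖ ≤ 253 * As Z z2 := by
        refine (norm_sum_le' _ _ (fun ρ => 253 * (1 / ‖z2 - ρ‖ ^ 2)) ?_).trans ?_
        · intro ρ hρ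
          obtain ⟨h3, h4⟩ := hfar ρ hρ
          have h5 := hcmp ρ hρ
          have h6 := hd2 ρ h3
          have n1 : z1 - ρ ≠ 0 := sub_ne_zero.2 (Ne.symm (hne ρ hρ))
          have n2 : z2 - ρ ≠ 0 := by
            intro h0
            rw [h0, norm_zero] at h6
            norm_num at h6
          have e6 : 1 / (z1 - ρ) - 1 / (z2 - ρ) = 11 / ((z1 - ρ) * (z2 - ρ)) := by
            rw [div_sub_div _ _ n1 n2]
            congr 1
            rw [hz12]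
            ring
          rw [e6, norm_div, norm_mul, h11, mul_one_div, div_le_div_iff₀ (by positivity)
            (by positivity)]
          nlinarith [mul_le_mul_of_nonneg_right h5 (norm_nonneg (z2 - ρ))]
        · rw [Multiset.sum_map_mul_left]
          exact mul_le_mul_of_nonneg_left hfarA (by norm_num)
      have b2 : ‖(Zn.map fun ρ => 1 / (z2 - ρ)).sum‖ ≤ Zn.card * (10 / 104) := by
        refine (norm_sum_le' _ _ (fun _ => (10 / 104 : ℝ)) ?_).trans ?_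
        · intro ρ hρ
          have h6 := hd2 ρ (Multiset.mem_of_mem_filter hρ)
          rw [norm_div, norm_one, div_le_div_iff₀ (by positivity) (by norm_num)]
          linarith
        · rw [Multiset.map_const', Multiset.sum_replicate, nsmul_eq_mul]
      rw [e4, e5]
      refine (norm_add_le _ _).trans ?_
      have b3 := norm_sub_le (gs Z z2) (Zn.map fun ρ => 1 / (z2 - ρ)).sum
      have : Y / (104 / 10) = 10 / 104 * Y := by ring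
      rw [this] at hA
      linarith
    rw [e3, norm_mul, norm_mul, norm_neg, Complex.norm_natCast]
    calc (P : ℝ) * (‖s‖ * ‖(Zf.map fun ρ => 1 / (z1 - ρ)).sum‖) ≤ P * (‖s‖ * (40 * Y)) := by gcongr
      _ = _ := by ring

end Pool.Agent.K3h51.Li
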