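import Pool.Agent.K3h51.Li.Core

set_option autoImplicit false

/-!
# The contradiction for a finite multiset
-/

namespace Pool.Agent.K3h51.Li

open Complex Filter Topology Metric

/-- The geometry of the extremal zero. -/
structure Geo (ρ0 w0 w s : ℂ) (h r : ℝ) : Prop where
  h0 : 0 < h
  h1 : h ≤ 1 / 1000000
  w0n : ‖w0‖ ^ 2 = 1 - h
  w0l : 99 / 100 ≤ ‖w0‖
  rd : r = ‖w‖
  rw : r = ‖w0‖ * (1 - h / 100)
  r1 : r < 1
  r2 : 1 / 2 ≤ r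
  rs : 1 / (1 - r) ≤ 2 / h
  sd : s = 1 / (1 - w)
  w1 : w ≠ 1
  ss : ‖s - (ρ0 + 1 / 2)‖ ≤ 1 / 50
  s1 : ‖s‖ * (1 + 2 * ‖s‖) ≤ 3 / h
  s2 : ‖s‖ ^ 2 ≤ 2 / h
  s3 : 1 ≤ ‖s‖
  V0 : 100 / h ≤ ‖Vv ρ0 w‖
  zr : -(1 / 10) ≤ (zw w).re
  zn : ‖zw w - ρ0‖ < 1 / 2

theorem geo {ρ0 : ℂ} (hre : 0 < ρ0.re) (hre2 : ρ0.re ≤ 1 / 2) (hbig : 1000 ≤ ‖ρ0 + 1 / 2‖) :
    ∃ w0 w s : ℂ, ∃ r : ℝ, w0 = (ρ0 - 1 / 2) / (ρ0 + 1 / 2) ∧
      Geo ρ0 w0 w s (2 * ρ0.re / ‖ρ0 + 1 / 2‖ ^ 2) r := by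
  obtain ⟨a, ha⟩ : ∃ a : ℝ, a = ‖ρ0 + 1 / 2‖ := ⟨_, rfl⟩
  rw [← ha] at hbig ⊢
  have ha0 : 0 < a := by linarith
  obtain ⟨h, hh⟩ : ∃ h : ℝ, h = 2 * ρ0.re / a ^ 2 := ⟨_, rfl⟩
  rw [← hh]
  have hha : h * a ^ 2 = 2 * ρ0.re := by rw [hh]; field_simp
  have h0 : 0 < h := by rw [hh]; positivity
  have hha1 : h * a ^ 2 ≤ 1 := by linarith
  have ha2 : 1000000 ≤ a ^ 2 := by nlinarith
  have h1 : h ≤ 1 / 1000000 := by
    rw [le_div_iff₀ (by norm_num)]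
    nlinarith
  have hs0 : ρ0 + 1 / 2 ≠ 0 := by
    intro h2
    rw [h2, norm_zero] at ha
    linarith
  obtain ⟨w0, hw0⟩ : ∃ w0 : ℂ, w0 = (ρ0 - 1 / 2) / (ρ0 + 1 / 2) := ⟨_, rfl⟩
  have e1 : ‖ρ0 - 1 / 2‖ ^ 2 = a ^ 2 - 2 * ρ0.re := by
    rw [ha, ← Complex.normSq_eq_norm_sq, ← Complex.normSq_eq_norm_sq, Complex.normSq_apply,
      Complex.normSq_apply]
    simp
    ring
  have w0n : ‖w0‖ ^ 2 = 1 - h := by
    rw [hw0, norm_div, div_pow, e1, ← ha, ← hha]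
    field_simp
  have w0l : 99 / 100 ≤ ‖w0‖ := by
    refine le_of_sq_le_sq ?_ (norm_nonneg _)
    rw [w0n]
    linarith
  have w0u : ‖w0‖ ≤ 1 - h / 2 := by
    refine le_of_sq_le_sq ?_ (by linarith)
    rw [w0n]
    nlinarith [sq_nonneg h]
  have w0p : 0 < ‖w0‖ := by linarith
  obtain ⟨w, hw⟩ : ∃ w : ℂ, w = w0 * ((1 - h / 100 : ℝ) : ℂ) := ⟨_, rfl⟩
  obtain ⟨r, hr⟩ : ∃ r : ℝ, r = ‖w‖ := ⟨_, rfl⟩
  have hrw : r = ‖w0‖ * (1 - h / 100) := by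
    rw [hr, hw, norm_mul, Complex.norm_real, Real.norm_eq_abs, abs_of_nonneg (by linarith)]
  have hr1 : r ≤ 1 - h / 2 := by
    rw [hrw]
    nlinarith
  have hr2 : 1 / 2 ≤ r := by
    rw [hrw]
    nlinarith
  have hr3 : r < 1 := by linarith
  have hrs : 1 / (1 - r) ≤ 2 / h := by
    rw [div_le_div_iff₀ (by linarith) h0]
    linarith
  have hw1 : w ≠ 1 := by
    intro h2
    rw [h2, norm_one] at hr
    linarith
  have h1w : 1 - w ≠ 0 := sub_ne_zero.2 (Ne.symm hw1)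
  obtain ⟨s, hs⟩ : ∃ s : ℂ, s = 1 / (1 - w) := ⟨_, rfl⟩
  obtain ⟨s0, hs0d⟩ : ∃ s0 : ℂ, s0 = ρ0 + 1 / 2 := ⟨_, rfl⟩
  rw [← hs0d] at hs0 ha hw0
  have hw0' : w0 * s0 = s0 - 1 := by
    rw [hw0, div_mul_cancel₀ _ hs0, hs0d]
    ring
  -- s - s0
  have hss : (s - s0) * (1 - w) = -(((h / 100 : ℝ) : ℂ) * (w0 * s0)) := by
    have e2 : s * (1 - w) = 1 := by rw [hs]; exact div_mul_cancel₀ _ h1w
    have e3 : s0 * (1 - w) = 1 + ((h / 100 : ℝ) : ℂ) * (w0 * s0) := by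
      rw [hw]
      push_cast
      linear_combination -hw0'
    rw [sub_mul, e2, e3]
    ring
  have hs0w : ‖s0 * (1 - w)‖ ≥ 99 / 100 := by
    have e3 : s0 * (1 - w) = 1 + ((h / 100 : ℝ) : ℂ) * (w0 * s0) := by
      rw [hw]
      push_cast
      linear_combination -hw0'
    have e4 : ‖((h / 100 : ℝ) : ℂ) * (w0 * s0)‖ ≤ 1 / 100 := by
      rw [norm_mul, norm_mul, Complex.norm_real, Real.norm_eq_abs, abs_of_pos (by positivity), ← ha]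
      have : h / 100 * (‖w0‖ * a) ≤ h / 100 * (1 * a) := by gcongr; linarith
      nlinarith
    have e5 : (1 : ℂ) = s0 * (1 - w) - ((h / 100 : ℝ) : ℂ) * (w0 * s0) := by rw [e3]; ring
    have e6 := congrArg norm e5
    rw [norm_one] at e6
    have e7 := norm_sub_le (s0 * (1 - w)) (((h / 100 : ℝ) : ℂ) * (w0 * s0))
    linarith
  have h1wn : 99 / 100 / a ≤ ‖1 - w‖ := by
    rw [norm_mul, ← ha] at hs0w
    rw [div_le_iff₀ ha0]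
    linarith
  have hssn : ‖s - s0‖ ≤ 1 / 50 := by
    have e4 := congrArg norm hss
    rw [norm_mul, norm_neg, norm_mul, norm_mul, Complex.norm_real, Real.norm_eq_abs,
      abs_of_pos (by positivity), ← ha] at e4
    have e5 : ‖s - s0‖ * (99 / 100 / a) ≤ h / 100 * (‖w0‖ * a) := by
      rw [← e4]
      exact mul_le_mul_of_nonneg_left h1wn (norm_nonneg _)
    have e6 : h / 100 * (‖w0‖ * a) ≤ h / 100 * (1 * a) := by gcongr; linarith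
    have e7 : ‖s - s0‖ * (99 / 100) ≤ h / 100 * (1 * a) * a := by
      have : ‖s - s0‖ * (99 / 100) = ‖s - s0‖ * (99 / 100 / a) * a := by field_simp
      rw [this]
      exact mul_le_mul_of_nonneg_right (e5.trans e6) ha0.le
    nlinarith
  have hsn1 : ‖s‖ ≤ a + 1 / 50 := by
    have : s = s0 + (s - s0) := by ring
    rw [this, ha]
    exact (norm_add_le _ _).trans (by linarith)
  have hsn2 : a - 1 / 50 ≤ ‖s‖ := by
    have e4 : s0 = s - (s - s0) := by ring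
    have e5 := norm_sub_le s (s - s0)
    rw [← e4, ← ha] at e5
    linarith
  have hsn0 := norm_nonneg s
  have hzw : zw w = s - 1 / 2 := by rw [hs]; rfl
  have hzwρ : zw w - ρ0 = s - s0 := by rw [hzw, hs0d]; ring
  refine ⟨w0, w, s, r, by rw [hw0, hs0d], ?_⟩
  refine ⟨h0, h1, w0n, w0l, hr, hrw, hr3, hr2, hrs, hs, hw1, ?_, ?_, ?_, ?_, ?_, ?_, ?_⟩
  · rw [← hs0d]; exact hssn
  · rw [le_div_iff₀ h0]
    have : ‖s‖ * (1 + 2 * ‖s‖) ≤ 3 * a ^ 2 := by nlinarith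
    nlinarith
  · rw [le_div_iff₀ h0]
    have : ‖s‖ ^ 2 ≤ 2 * a ^ 2 := by nlinarith
    nlinarith
  · linarith
  · have e4 : Vv ρ0 w = 1 / (w0 * ((h / 100 : ℝ) : ℂ)) := by
      unfold Vv
      have e5 : (ρ0 - 1 / 2) - (ρ0 + 1 / 2) * w = s0 * (w0 * ((h / 100 : ℝ) : ℂ)) := by
        rw [hw, ← hs0d]
        have : ρ0 = s0 - 1 / 2 := by rw [hs0d]; ring
        rw [this]
        push_cast
        linear_combination -hw0'
      rw [e5, ← hs0d, div_mul_eq_div_div, div_self hs0]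
    rw [e4, norm_div, norm_one, norm_mul, Complex.norm_real, Real.norm_eq_abs,
      abs_of_pos (by positivity), div_le_div_iff₀ h0 (by positivity)]
    nlinarith
  · have e4 := Complex.abs_re_le_norm (zw w - ρ0)
    rw [hzwρ] at e4
    have e5 := (abs_le.1 (e4.trans hssn)).1
    rw [← hzwρ, Complex.sub_re] at e5
    linarith
  · rw [hzwρ]
    linarith


theorem near_sum {Zn : Multiset ℂ} {ρ0 w : ℂ} (hmem : ρ0 ∈ Zn) (hV0 : Vv ρ0 w ≠ 0) (J : ℕ) :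
    ∃ l : ℕ, 1 ≤ l ∧ l ≤ Zn.card ∧
      ‖Vv ρ0 w‖ ^ (J * l) ≤ Zn.card * ‖(Zn.map fun ρ => (Vv ρ w) ^ (J * l)).sum‖ := by
  have h1 : (1 : ℂ) ∈ Zn.map fun ρ => (Vv ρ w / Vv ρ0 w) ^ J := by
    refine Multiset.mem_map.2 ⟨ρ0, hmem, ?_⟩
    rw [div_self hV0, one_pow]
  obtain ⟨l, h2, h3, h4⟩ := turan _ h1
  rw [Multiset.card_map] at h3 h4
  refine ⟨l, h2, h3, ?_⟩
  have hc : (0 : ℝ) < Zn.card := by
    have : 0 < Zn.card := Multiset.card_pos_iff_exists_mem.2 ⟨ρ0, hmem⟩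
    exact_mod_cast this
  have e : (Zn.map fun ρ => (Vv ρ w) ^ (J * l)).sum = (Vv ρ0 w) ^ (J * l) *
      ((Zn.map fun ρ => (Vv ρ w / Vv ρ0 w) ^ J).map fun z => z ^ l).sum := by
    rw [Multiset.map_map, ← Multiset.sum_map_mul_left]
    congr 1
    apply Multiset.map_congr rfl
    intro ρ _
    simp only [Function.comp_apply]
    rw [← pow_mul, div_pow, mul_div_cancel₀ _ (pow_ne_zero _ hV0)]
  rw [e, norm_mul, norm_pow]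
  rw [div_le_iff₀ hc] at h4
  have h5 : 0 ≤ ‖Vv ρ0 w‖ ^ (J * l) := by positivity
  calc ‖Vv ρ0 w‖ ^ (J * l) = ‖Vv ρ0 w‖ ^ (J * l) * 1 := by ring
    _ ≤ ‖Vv ρ0 w‖ ^ (J * l) *
        (‖((Zn.map fun ρ => (Vv ρ w / Vv ρ0 w) ^ J).map fun z => z ^ l).sum‖ * Zn.card) :=
        mul_le_mul_of_nonneg_left h4 h5
    _ = _ := by ring

theorem core {Z : Multiset ℂ} {ρ0 w0 w s : ℂ} {h r X Y : ℝ} {J K : ℕ}
    (hneg : Z.map (fun ρ => -ρ) = Z) (hs : Strp Z) (hmem : ρ0 ∈ Z)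
    (hmin : ∀ ρ ∈ Z, 1 / 2 ≤ ‖ρ + 1 / 2‖) (hmax : ∀ ρ ∈ Z, 2 * ρ.re ≤ h * ‖ρ + 1 / 2‖ ^ 2)
    (G : Geo ρ0 w0 w s h r) (hX : 1 / h ≤ X) (hY1 : 1 ≤ Y)
    (y1 : ‖gs Z (zw w + 11)‖ ≤ Y) (y2 : ‖gs Z (zw r)‖ ≤ Y) (y3 : As Z (zw r) ≤ Y)
    (y4 : 242 * As Z 10 ≤ Y) (hne : ∀ ρ ∈ Z, ρ ≠ zw r)
    (hpos : ∀ i : ℕ, i + 1 ≤ K → ‖Ss Z i 0‖ ≤ (Ss Z i 0).re + 1) (hJ1 : 1 ≤ J)
    (hJ : 1012500 * (J : ℝ) ^ 2 * Y ^ 4 * X ^ 2 < 33 ^ J)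
    (hT : ∀ P : ℕ, 1 ≤ P → (P : ℝ) ≤ 15 * J * Y →
      2 * Y * ((P : ℝ) + 1) ^ 2 * 2 ^ P * (1 - h / 200) ^ (K - (P - 1)) * (200 / h) ^ (P + 2) ≤ 1) :
    False := by
  have h0 := G.h0
  have h1 := G.h1
  have hX0 : 0 < 1 / h := by positivity
  have hX1 : 1 ≤ X := by
    refine le_trans ?_ hX
    rw [le_div_iff₀ h0]
    linarith
  have hs3 : ‖s‖ ≤ 3 / h := by
    have := G.s1
    nlinarith [G.s3, norm_nonneg s]
  have hY0 : 0 < Y := by linarith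
  -- near zeros
  obtain ⟨hcard, -⟩ := far_bound hs G.w1 1 G.zr y1
  set Zn := Z.filter fun ρ => ‖zw w - ρ‖ < 1 / 2 with hZn
  have hρn : ρ0 ∈ Zn := Multiset.mem_filter.2 ⟨hmem, G.zn⟩
  have hV0 : Vv ρ0 w ≠ 0 := by
    intro h2
    have := G.V0
    rw [h2, norm_zero] at this
    have h3 : 0 < 100 / h := by positivity
    linarith
  obtain ⟨l, hl1, hl2, hl3⟩ := near_sum hρn hV0 J
  obtain ⟨P, hP⟩ : ∃ P : ℕ, P = J * l := ⟨_, rfl⟩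
  rw [← hP] at hl3
  have hP1 : 1 ≤ P := by rw [hP]; exact Nat.one_le_iff_ne_zero.2 (by positivity)
  have hJP : J ≤ P := by rw [hP]; exact Nat.le_mul_of_pos_right J hl1
  have hJ1' : (1 : ℝ) ≤ J := by exact_mod_cast hJ1
  have hPY : (P : ℝ) ≤ 15 * J * Y := by
    have : (l : ℝ) ≤ Zn.card := by exact_mod_cast hl2
    rw [hP]
    push_cast
    calc (J : ℝ) * l ≤ J * (15 * Y) := by gcongr; linarith
      _ = _ := by ring
  have hP1' : (1 : ℝ) ≤ P := by exact_mod_cast hP1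
  obtain ⟨-, hfar⟩ := far_bound hs G.w1 P G.zr y1
  rw [← G.sd] at hfar
  -- splitting
  have hsplit : Ss Z (P - 1) w = (Zn.card : ℂ) * s ^ P - (Zn.map fun ρ => (Vv ρ w) ^ P).sum +
      ((Z.filter fun ρ => ¬ ‖zw w - ρ‖ < 1 / 2).map fun ρ => s ^ P - (Vv ρ w) ^ P).sum := by
    rw [Ss_def, Nat.sub_add_cancel hP1, ← G.sd]
    conv_lhs => rw [← Multiset.filter_add_not (fun ρ => ‖zw w - ρ‖ < 1 / 2) Z]
    rw [Multiset.map_add, Multiset.sum_add]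
    congr 1
    rw [Multiset.sum_map_sub, Multiset.map_const', Multiset.sum_replicate, nsmul_eq_mul]
  have hnear : ‖(Zn.map fun ρ => (Vv ρ w) ^ P).sum‖ ≤ ‖Ss Z (P - 1) w‖ + Zn.card * ‖s‖ ^ P +
      ‖s‖ ^ P * (60 * P ^ 2 * ‖s‖ ^ 2 * (1 + 2 * ‖s‖) ^ P * Y + 40 * P * ‖s‖ * Y) := by
    have e : (Zn.map fun ρ => (Vv ρ w) ^ P).sum = (Zn.card : ℂ) * s ^ P +
        ((Z.filter fun ρ => ¬ ‖zw w - ρ‖ < 1 / 2).map fun ρ => s ^ P - (Vv ρ w) ^ P).sum -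
        Ss Z (P - 1) w := by
      rw [hsplit]
      ring
    rw [e]
    refine (norm_sub_le _ _).trans ?_
    have h2 := norm_add_le ((Zn.card : ℂ) * s ^ P)
      ((Z.filter fun ρ => ¬ ‖zw w - ρ‖ < 1 / 2).map fun ρ => s ^ P - (Vv ρ w) ^ P).sum
    rw [norm_mul, norm_pow, Complex.norm_natCast] at h2
    linarith
  -- the other side
  have hB : ∀ ρ ∈ Z, ‖uu ρ‖ ≤ 1 / ‖w0‖ := by
    intro ρ hρ
    have a1 := hmin ρ hρ
    have a2 := hmax ρ hρ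
    have a3 : ‖ρ - 1 / 2‖ ^ 2 = ‖ρ + 1 / 2‖ ^ 2 - 2 * ρ.re := by
      rw [← Complex.normSq_eq_norm_sq, ← Complex.normSq_eq_norm_sq, Complex.normSq_apply,
        Complex.normSq_apply]
      simp
      ring
    have a4 : (1 - h) * ‖ρ + 1 / 2‖ ^ 2 ≤ ‖ρ - 1 / 2‖ ^ 2 := by rw [a3]; linarith
    have a5 : 0 < ‖ρ + 1 / 2‖ := by linarith
    have a6 : 0 < ‖ρ - 1 / 2‖ := by
      have : 0 < ‖ρ - 1 / 2‖ ^ 2 := lt_of_lt_of_le (mul_pos (by linarith) (by positivity)) a4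
      by_contra hc
      have h2 : ‖ρ - 1 / 2‖ = 0 := le_antisymm (not_lt.1 hc) (norm_nonneg _)
      rw [h2] at this
      norm_num at this
    have a7 := G.w0l
    unfold uu
    rw [norm_div, div_le_div_iff₀ a6 (by linarith)]
    refine le_of_sq_le_sq ?_ (by positivity)
    rw [mul_pow, G.w0n, one_mul]
    linarith
  have hρ12 : ∀ ρ ∈ Z, ρ - 1 / 2 ≠ 0 := by
    intro ρ hρ h2
    have h3 : -ρ ∈ Z := by
      rw [← hneg]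
      exact Multiset.mem_map.2 ⟨ρ, hρ, rfl⟩
    have h4 := hmin _ h3
    have e : -ρ + 1 / 2 = -(ρ - 1 / 2) := by ring
    rw [e, h2, neg_zero, norm_zero] at h4
    norm_num at h4
  have hw0l := G.w0l
  have hB1 : 1 ≤ 1 / ‖w0‖ := by
    rw [le_div_iff₀ (by linarith), one_mul]
    refine le_of_sq_le_sq ?_ (by norm_num)
    rw [G.w0n]
    linarith
  have hB2 : 1 / ‖w0‖ ≤ 2 := by
    rw [div_le_iff₀ (by linarith)]
    linarith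
  have hBp : 1 / ‖w0‖ * r ≤ (1 - h / 200) ^ 2 := by
    rw [G.rw]
    have : 1 / ‖w0‖ * (‖w0‖ * (1 - h / 100)) = 1 - h / 100 := by
      have : ‖w0‖ ≠ 0 := by linarith
      field_simp
    rw [this]
    nlinarith [sq_nonneg h]
  have hA10 := as_nonneg Z 10
  have hD : ∀ i : ℕ, ‖Ss Z i 0‖ ≤ Y * ((i + 1 : ℕ) : ℝ) ^ 2 * (1 / ‖w0‖) ^ (i + 1) := by
    intro i
    refine (lam_bound hneg hs hB hmin i).trans ?_
    push_cast
    gcongr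
  have htr := transfer (Z := Z) (w := w) (r := r) (B := 1 / ‖w0‖) (D := Y) (p := 1 - h / 200)
    (K := K) (P - 1) G.rd G.r1 hρ12 hB hB1 (by linarith) (by linarith) hBp hY0.le hD hpos
  have hup := upper_r hs G.r2 G.r1 (P - 1) hne
  rw [Nat.sub_add_cancel hP1] at htr hup
  have hP3 : P - 1 + 3 = P + 2 := by omega
  rw [hP3] at htr
  have hPc : ((P - 1 : ℕ) : ℝ) = (P : ℝ) - 1 := by
    push_cast [Nat.cast_sub hP1]
    ring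
  rw [hPc] at htr
  -- the tail
  have htail : 2 * Y * ((P : ℝ) - 1 + 2) ^ 2 * (1 / ‖w0‖) ^ P * (1 - h / 200) ^ (K - (P - 1)) *
      (1 / (1 - (1 - h / 200)) ^ (P + 2)) ≤ 1 := by
    refine le_trans ?_ (hT P hP1 hPY)
    have e1 : (P : ℝ) - 1 + 2 = P + 1 := by ring
    have e2 : 1 / (1 - (1 - h / 200)) ^ (P + 2) = (200 / h) ^ (P + 2) := by
      have : 1 - (1 - h / 200) = h / 200 := by ring
      rw [this, ← one_div_pow]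
      congr 1
      field_simp
    rw [e1, e2]
    have h2 : 0 ≤ 1 - h / 200 := by linarith
    gcongr
  -- powers
  obtain ⟨Q, hQ⟩ : ∃ Q : ℝ, Q = (3 / h) ^ P := ⟨_, rfl⟩
  have h3h : 1 ≤ 3 / h := by
    rw [le_div_iff₀ h0]
    linarith
  have hQ1 : 1 ≤ Q := by rw [hQ]; exact one_le_pow₀ h3h
  have hq1 : (1 / (1 - r)) ^ P ≤ Q := by
    rw [hQ]
    have h2 : 0 < 1 - r := by linarith [G.r1]
    apply pow_le_pow_left₀ (by positivity)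
    refine G.rs.trans ?_
    gcongr
    norm_num
  have hq2 : ‖s‖ ^ P ≤ Q := by
    rw [hQ]
    exact pow_le_pow_left₀ (norm_nonneg _) hs3 P
  have hq3 : ‖s‖ ^ P * (1 + 2 * ‖s‖) ^ P ≤ Q := by
    rw [hQ, ← mul_pow]
    exact pow_le_pow_left₀ (by positivity) G.s1 P
  have hq4 : 1 / (1 - r) ^ P ≤ Q := by
    rw [← one_div_pow]
    exact hq1
  have hhX : 2 / h ≤ 2 * X := by
    have : 2 / h = 2 * (1 / h) := by ring
    rw [this]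
    linarith
  have hrX : 1 / (1 - r) ≤ 2 * X := G.rs.trans hhX
  have hr00 : 0 < 1 - r := by linarith [G.r1]
  have hr0 : 0 < 1 / (1 - r) := by positivity
  have hsX : ‖s‖ ^ 2 ≤ 2 * X := G.s2.trans hhX
  have hsX' : ‖s‖ ≤ 2 * X := by nlinarith [G.s3]
  have hXX : X ≤ X ^ 2 := by nlinarith
  have hPP : (P : ℝ) ≤ P ^ 2 := by nlinarith
  have t1 : ‖Ss Z (P - 1) r‖ ≤ Q * (8 * (P ^ 2 * X ^ 2 * Y)) := by
    refine hup.trans ?_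
    have hAr := as_nonneg Z (zw r)
    refine mul_le_mul hq1 ?_ ?_ (by linarith)
    · have b1 : (P : ℝ) ^ 2 * (1 / (1 - r)) ^ 2 * As Z (zw r) ≤ P ^ 2 * (2 * X) ^ 2 * Y := by
        gcongr
      have b2 : (P : ℝ) * (1 / (1 - r)) * ‖gs Z (zw r)‖ ≤ P ^ 2 * (2 * X ^ 2) * Y := by
        gcongr
        linarith
      calc _ ≤ (P : ℝ) ^ 2 * (2 * X) ^ 2 * Y + P ^ 2 * (2 * X ^ 2) * Y := add_le_add b1 b2
        _ = 6 * (P ^ 2 * X ^ 2 * Y) := by ring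
        _ ≤ _ := by
            have : 0 ≤ (P : ℝ) ^ 2 * X ^ 2 * Y := by positivity
            linarith
    · have := as_nonneg Z (zw r)
      positivity
  have t2 : ‖s‖ ^ P * (60 * P ^ 2 * ‖s‖ ^ 2 * (1 + 2 * ‖s‖) ^ P * Y + 40 * P * ‖s‖ * Y) ≤
      Q * (200 * (P ^ 2 * X ^ 2 * Y)) := by
    have b1 : ‖s‖ ^ P * (60 * P ^ 2 * ‖s‖ ^ 2 * (1 + 2 * ‖s‖) ^ P * Y) ≤
        Q * (60 * P ^ 2 * (2 * X ^ 2) * Y) := by
      calc ‖s‖ ^ P * (60 * P ^ 2 * ‖s‖ ^ 2 * (1 + 2 * ‖s‖) ^ P * Y) =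
          (‖s‖ ^ P * (1 + 2 * ‖s‖) ^ P) * (60 * P ^ 2 * ‖s‖ ^ 2 * Y) := by ring
        _ ≤ Q * (60 * P ^ 2 * (2 * X ^ 2) * Y) := by
            gcongr
            linarith
    have b2 : ‖s‖ ^ P * (40 * P * ‖s‖ * Y) ≤ Q * (40 * P ^ 2 * (2 * X ^ 2) * Y) := by
      gcongr
      linarith
    calc _ = ‖s‖ ^ P * (60 * P ^ 2 * ‖s‖ ^ 2 * (1 + 2 * ‖s‖) ^ P * Y) +
          ‖s‖ ^ P * (40 * P * ‖s‖ * Y) := by ring
      _ ≤ _ := add_le_add b1 b2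
      _ = Q * (200 * (P ^ 2 * X ^ 2 * Y)) := by ring
  have hPXY : 1 ≤ (P : ℝ) ^ 2 * X ^ 2 * Y := by
    have b1 : 1 ≤ (P : ℝ) ^ 2 := one_le_pow₀ hP1'
    have b2 : 1 ≤ X ^ 2 := one_le_pow₀ hX1
    nlinarith [mul_le_mul b1 b2 (by norm_num) (by positivity)]
  have hYP : Y ≤ (P : ℝ) ^ 2 * X ^ 2 * Y := by
    have b1 : 1 ≤ (P : ℝ) ^ 2 := one_le_pow₀ hP1'
    have b2 : 1 ≤ X ^ 2 := one_le_pow₀ hX1
    nlinarith [mul_le_mul b1 b2 (by norm_num) (by positivity)]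
  obtain ⟨U, hU⟩ : ∃ U : ℝ, U = (P : ℝ) ^ 2 * X ^ 2 * Y := ⟨_, rfl⟩
  rw [← hU] at t1 t2 hPXY hYP
  have t3 : (Zn.card : ℝ) * ‖s‖ ^ P ≤ Q * (15 * U) := by
    calc (Zn.card : ℝ) * ‖s‖ ^ P ≤ (15 * U) * Q := by
          gcongr
          linarith
      _ = _ := by ring
  have t4 : ‖Ss Z (P - 1) w‖ ≤ Q * (10 * U) := by
    have b1 := (Complex.re_le_norm (Ss Z (P - 1) r)).trans t1
    have b2 : Q ≤ Q * U := le_mul_of_one_le_right (by linarith) hPXY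
    calc ‖Ss Z (P - 1) w‖ ≤ Q * (8 * U) + Q + 1 := by linarith
      _ ≤ Q * (10 * U) := by linarith
  have hall : ‖(Zn.map fun ρ => (Vv ρ w) ^ P).sum‖ ≤ Q * (225 * U) := by linarith
  have hV : (100 / h) ^ P ≤ 15 * Y * (Q * (225 * U)) := by
    calc (100 / h) ^ P ≤ ‖Vv ρ0 w‖ ^ P := pow_le_pow_left₀ (by positivity) G.V0 P
      _ ≤ _ := hl3
      _ ≤ 15 * Y * (Q * (225 * U)) := by gcongr
  have hV2 : (100 / h) ^ P = (100 / 3) ^ P * Q := by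
    rw [hQ, ← mul_pow]
    congr 1
    field_simp
  rw [hV2] at hV
  have hV3 : (100 / 3 : ℝ) ^ P ≤ 3375 * Y * U := by
    have : (100 / 3 : ℝ) ^ P * Q ≤ (3375 * Y * U) * Q := by
      calc _ ≤ _ := hV
        _ = _ := by ring
    exact le_of_mul_le_mul_right this (by linarith)
  have hV4 : (33 : ℝ) ^ J ≤ (100 / 3 : ℝ) ^ P :=
    calc (33 : ℝ) ^ J ≤ 33 ^ P := pow_le_pow_right₀ (by norm_num) hJP
      _ ≤ _ := pow_le_pow_left₀ (by norm_num) (by norm_num) P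
  have hV5 : 3375 * Y * U ≤ 1012500 * (J : ℝ) ^ 2 * Y ^ 4 * X ^ 2 := by
    rw [hU]
    have b1 : (P : ℝ) ^ 2 ≤ (15 * J * Y) ^ 2 := pow_le_pow_left₀ (by linarith) hPY 2
    calc 3375 * Y * ((P : ℝ) ^ 2 * X ^ 2 * Y) ≤ 3375 * Y * ((15 * J * Y) ^ 2 * X ^ 2 * Y) := by gcongr
      _ = 759375 * ((J : ℝ) ^ 2 * Y ^ 4 * X ^ 2) := by ring
      _ ≤ 1012500 * (J : ℝ) ^ 2 * Y ^ 4 * X ^ 2 := by
          have : 0 ≤ (J : ℝ) ^ 2 * Y ^ 4 * X ^ 2 := by positivity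
          linarith
  linarith

end Pool.Agent.K3h51.Li
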