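import Pool.Agent.K3h51.Li.Pos
import Pool.Agent.K3h51.Li.Conv3

set_option autoImplicit false

/-!
# Li coefficients of the derivatives of xi: assembly
-/

namespace Pool.Agent.K3h51.Li

open Complex Filter Topology
open Pool.Agent.H986R2.K4 (ZB a1 a2 sab fwdT xi)

noncomputable def li (n k : ℕ) : ℝ :=
  (iteratedDeriv (k - 1) (logDeriv (fun w : ℂ => iteratedDeriv n xi (1 / (1 - w)))) 0).re /
    ((k - 1).factorial : ℝ)

theorem li_eq (n k : ℕ) : li n k = (lc n k).re := by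
  unfold li lc
  rw [← Complex.ofReal_natCast, Complex.div_ofReal_re]

def UpTo (κ : ℝ) (N : ℕ) : Prop :=
  ∀ n k : ℕ, N ≤ n → 1 ≤ k → (k : ℝ) ≤ Real.exp (κ * n) → 0 < li n k

def Rest (κ : ℝ) (N : ℕ) : Prop :=
  ∀ n k : ℕ, 1 ≤ k → (n < N ∨ Real.exp (κ * n) < k) → 0 ≤ li n k

def ZeroFree (θ : ℝ) : Prop := ∀ s : ℂ, θ < s.re → riemannZeta s ≠ 0

theorem upTo_of {y κ : ℝ} (hy0 : 0 ≤ y) (hy1 : y ≤ 1 / 2) (hZ : ZB y) (hκ : κ * y < 4) :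
    ∃ N : ℕ, UpTo κ N := by
  -- choose `κ' ≥ 1` with `κ < 2 κ'` and `κ' y < 2`
  obtain ⟨κ', h1, h2, h3⟩ : ∃ κ' : ℝ, 1 ≤ κ' ∧ κ < 2 * κ' ∧ κ' * y < 2 := by
    rcases hy0.eq_or_lt with h0 | h0
    · refine ⟨max 1 (κ + 1), le_max_left _ _, ?_, by rw [← h0]; norm_num⟩
      have h4 : κ + 1 ≤ max 1 (κ + 1) := le_max_right _ _
      have h5 : 1 ≤ max 1 (κ + 1) := le_max_left _ _
      linarith
    · have h4 : κ / 2 < 2 / y := by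
        rw [lt_div_iff₀ h0]
        linarith
      have h5 : 1 < 2 / y := by
        rw [lt_div_iff₀ h0]
        linarith
      obtain ⟨κ', h6, h7⟩ := exists_between (max_lt h4 h5)
      refine ⟨κ', ((le_max_right _ _).trans_lt h6).le, ?_, ?_⟩
      · have := (le_max_left _ _).trans_lt h6
        linarith
      · rwa [lt_div_iff₀ h0] at h7
  obtain ⟨N, hN⟩ := forward h1 (fwdT y κ' hy0 hy1 hZ h3) h2
  exact ⟨N, fun n k hn hk1 hk => by rw [li_eq]; exact hN n k hn hk1 hk⟩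

theorem upTo_theta {θ κ : ℝ} (h1 : 1 / 2 ≤ θ) (h2 : θ < 1) (h3 : ZeroFree θ)
    (hκ : κ * (θ - 1 / 2) < 4) : ∃ N : ℕ, UpTo κ N := by
  refine upTo_of (y := θ - 1 / 2) (by linarith) (by linarith) ?_ hκ
  refine a2 sab a1 (θ - 1 / 2) (by linarith) (by linarith) fun s hs => h3 s ?_
  linarith

theorem final :
    (∀ κ : ℝ, κ < 8 → ∃ N : ℕ, UpTo κ N ∧ (RiemannHypothesis ↔ Rest κ N)) ∧
    (∀ θ : ℝ, 1 / 2 ≤ θ → θ < 1 → ZeroFree θ → ∀ κ : ℝ, κ * (θ - 1 / 2) < 4 → ∃ N : ℕ, UpTo κ N) ∧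
    ((∃ κ : ℝ, 8 < κ ∧ ∃ N : ℕ, ∀ n k : ℕ, N ≤ n → 1 ≤ k → (k : ℝ) ≤ Real.exp (κ * n) → 0 ≤ li n k) ↔
      ∃ θ : ℝ, θ < 1 ∧ ZeroFree θ) := by
  refine ⟨fun κ hκ => ?_, fun θ h1 h2 h3 κ hκ => upTo_theta h1 h2 h3 hκ, ?_, ?_⟩
  · obtain ⟨N, hN⟩ := upTo_of (y := 1 / 2) (κ := κ) (by norm_num) le_rfl a1 (by linarith)
    refine ⟨N, hN, fun hRH n k _ _ => ?_, fun h => ?_⟩
    · rw [li_eq]
      exact rh_nonneg hRH n
    · refine rh_of_nonneg fun k hk => ?_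
      rw [← li_eq]
      rcases lt_or_ge 0 N with h1 | h1
      · exact h 0 k hk (Or.inl h1)
      · rcases lt_or_ge (Real.exp (κ * (0 : ℕ))) (k : ℝ) with h2 | h2
        · exact h 0 k hk (Or.inr h2)
        · exact (hN 0 k h1 hk h2).le
  · rintro ⟨κ, hκ, N, hN⟩
    obtain ⟨y, hy, hs⟩ := converse hκ ⟨N, fun n k hn hk1 hk => by
      rw [← li_eq]
      exact hN n k hn hk1 hk⟩
    exact ⟨1 / 2 + y, by linarith, hs⟩
  · rintro ⟨θ, hθ, h⟩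
    obtain ⟨θ', h1, h2, h3⟩ : ∃ θ' : ℝ, 1 / 2 ≤ θ' ∧ θ' < 1 ∧ θ ≤ θ' :=
      ⟨max (1 / 2) θ, le_max_left _ _, max_lt (by norm_num) hθ, le_max_right _ _⟩
    obtain ⟨κ, hκ8, hκ⟩ : ∃ κ : ℝ, 8 < κ ∧ κ * (θ' - 1 / 2) < 4 := by
      rcases (show 0 ≤ θ' - 1 / 2 by linarith).eq_or_lt with h4 | h4
      · exact ⟨9, by norm_num, by rw [← h4]; norm_num⟩
      · have h5 : 8 < 4 / (θ' - 1 / 2) := by
          rw [lt_div_iff₀ h4]
          linarith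
        obtain ⟨κ, h6, h7⟩ := exists_between h5
        exact ⟨κ, h6, by rwa [lt_div_iff₀ h4] at h7⟩
    obtain ⟨N, hN⟩ := upTo_theta h1 h2 (fun s hs => h s (by linarith)) hκ
    exact ⟨κ, hκ8, N, fun n k hn hk1 hk => (hN n k hn hk1 hk).le⟩

end Pool.Agent.K3h51.Li
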