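import Pool.Agent.H986R2.K4.All

set_option autoImplicit false

/-!
# Growth of the logarithmic derivative when all zeros near height `t` are close to the line
-/

namespace Pool.Agent.K3h51.Li

open Complex Filter Topology MeasureTheory Set
open Pool.Agent.H24R2.JP (XX HH Om)
open Pool.Agent.H986R2.K4 (S_SAB S_RG S_UB S_HH S_LR S_PL S_TAY S_VDC S_V0)
open Pool.Agent.H986R2.K4.GRAux

def S_GR' : Prop := ∀ r0 r1 η0 η : ℝ, 0 < r0 → r0 ≤ r1 → r1 ≤ 1 / 2 → 0 < η0 → η0 ≤ 1 / 4 → 0 < η →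
  ∃ T0 : ℝ, 2 ≤ T0 ∧ ∀ (t : ℝ) (n : ℕ), T0 ≤ t → r0 * Om t ≤ n → (n : ℝ) ≤ r1 * Om t →
  (∀ s : ℂ, iteratedDeriv n XX s = 0 → |s.im - t| ≤ 20 → |s.re| ≤ η0 / 4) →
  ∀ u : ℂ, η0 ≤ u.re → u.re ≤ 1 → |u.im| ≤ 1 →
    iteratedDeriv n XX (I * t + u) ≠ 0 ∧
    ‖logDeriv (iteratedDeriv n XX) (I * t + u) - (Om t : ℂ)‖ ≤ η * Om t ∧
    t ^ (-η) * (Om t ^ n * ‖HH (I * t + u)‖) ≤ ‖iteratedDeriv n XX (I * t + u)‖

theorem gr2 (h1 : S_SAB) (h2 : S_RG) (h3 : S_UB) (h4 : S_HH) : S_GR' := by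
  intro r0 r1 η0 η hr0 hr01 hr1 hη0 hη0' hη
  obtain ⟨K, hK, hHH⟩ := h4
  obtain ⟨TH, hTH, hHH⟩ := hHH 15 (by norm_num)
  obtain ⟨KU, TU, hKU, hTU, hUB⟩ := h3 r0 r1 hr0 hr01 (by linarith)
  obtain ⟨ε, hε, hS⟩ := h1 (η0 / 2) (η / 8) (KU + 15 * K) (by linarith) (by linarith)
    (by positivity) (by positivity)
  obtain ⟨TR, hTR, hRG⟩ := h2 r0 r1 ε hr0 hr01 hr1 hε
  refine ⟨max (max TH TU) (max TR (Real.exp (max 1 (4 * K / η)))), ?_, ?_⟩
  · exact le_trans hTH (le_trans (le_max_left _ _) (le_max_left _ _))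
  intro t n ht hn0 hn1 hz
  have htH : TH ≤ t := le_trans (le_trans (le_max_left _ _) (le_max_left _ _)) ht
  have htU : TU ≤ t := le_trans (le_trans (le_max_right _ _) (le_max_left _ _)) ht
  have htR : TR ≤ t := le_trans (le_trans (le_max_left _ _) (le_max_right _ _)) ht
  have htE : Real.exp (max 1 (4 * K / η)) ≤ t :=
    le_trans (le_trans (le_max_right _ _) (le_max_right _ _)) ht
  have ht0 : 0 < t := lt_of_lt_of_le (Real.exp_pos _) htE
  have hlog : max 1 (4 * K / η) ≤ Real.log t := (Real.le_log_iff_exp_le ht0).mpr htE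
  have hL1 : 1 ≤ Real.log t := le_trans (le_max_left _ _) hlog
  have hLK : 4 * K / η ≤ Real.log t := le_trans (le_max_right _ _) hlog
  have hOm : Om t = Real.log t / 2 := rfl
  have hOm0 : 0 < Om t := by rw [hOm]; linarith
  have hKO : K ≤ η / 2 * Om t := by
    rw [div_le_iff₀ hη] at hLK
    rw [hOm]; nlinarith
  have hc : ((Om t : ℂ) ^ n) ≠ 0 := by
    apply pow_ne_zero
    exact_mod_cast hOm0.ne'
  have hcn : ‖((Om t : ℂ) ^ n)‖ = Om t ^ n := by
    rw [norm_pow, Complex.norm_real, Real.norm_of_nonneg hOm0.le]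
  have hcpos : 0 < Om t ^ n := pow_pos hOm0 n
  set F : ℂ → ℂ := iteratedDeriv n XX with hF
  set g : ℂ → ℂ := fun v => F (I * t + v) / ((Om t : ℂ) ^ n * HH (I * t + v)) with hg
  have hFd : Differentiable ℂ F := diff_iter n
  -- non-vanishing
  have hF0 : ∀ u : ℂ, η0 / 4 < u.re → |u.im| ≤ 10 → F (I * t + u) ≠ 0 := by
    intro u hu hu2 h0
    have := hz (I * t + u) h0 (by
      have : (I * (t : ℂ) + u).im - t = u.im := by simp
      rw [this]; linarith)
    simp at this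
    have h5 := (abs_le.1 this).2
    linarith
  have hH0 : ∀ u : ℂ, |u.re| ≤ 10 → |u.im| ≤ 10 → DifferentiableAt ℂ HH (I * t + u) ∧
      HH (I * t + u) ≠ 0 ∧ ‖logDeriv HH (I * t + u) - (Om t : ℂ)‖ ≤ K ∧
      Real.exp (Om t * u.re - K * 15) * ‖HH (I * t)‖ ≤ ‖HH (I * t + u)‖ := by
    intro u hu hu2
    obtain ⟨a, b, c, d, _⟩ := hHH t u htH (norm_le hu hu2)
    exact ⟨a, b, c, d⟩
  have hgn : ∀ u : ℂ, ‖g u‖ = ‖F (I * t + u)‖ / (Om t ^ n * ‖HH (I * t + u)‖) := by
    intro u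
    rw [hg]; simp only
    rw [norm_div, norm_mul, hcn]
  have hgd : ∀ u : ℂ, η0 / 4 < u.re → u.re ≤ 10 → |u.im| ≤ 10 → DifferentiableAt ℂ g u ∧ g u ≠ 0 ∧
      ‖g u‖ ≤ Real.exp ((KU + 15 * K) * Real.log t) := by
    intro u hu1 hu2 hu3
    have hur : |u.re| ≤ 10 := by rw [abs_of_nonneg (by linarith)]; linarith
    obtain ⟨a1, a2, a3, a4⟩ := hH0 u hur hu3
    have hFu := hF0 u hu1 hu3
    refine ⟨?_, ?_, ?_⟩
    · have hd : DifferentiableAt ℂ (fun v : ℂ => I * t + v) u := differentiableAt_id.const_add _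
      have b1 : DifferentiableAt ℂ (fun v : ℂ => F (I * t + v)) u :=
        DifferentiableAt.comp u hFd.differentiableAt hd
      have b2 : DifferentiableAt ℂ (fun v : ℂ => HH (I * t + v)) u :=
        DifferentiableAt.comp u a1 hd
      exact b1.div (b2.const_mul _) (mul_ne_zero hc a2)
    · exact div_ne_zero hFu (mul_ne_zero hc a2)
    · rw [hgn, div_le_iff₀ (by positivity)]
      have b1 := hUB t n htU hn0 hn1 u hur hu3
      refine le_trans b1 ?_
      have b2 : Real.exp (-(K * 15)) * ‖HH (I * t)‖ ≤ ‖HH (I * t + u)‖ := by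
        refine le_trans ?_ a4
        apply mul_le_mul_of_nonneg_right _ (norm_nonneg _)
        apply Real.exp_le_exp.mpr
        nlinarith
      have b3 : ‖HH (I * t)‖ ≤ Real.exp (K * 15) * ‖HH (I * t + u)‖ := by
        have := mul_le_mul_of_nonneg_left b2 (Real.exp_pos (K * 15)).le
        rwa [← mul_assoc, ← Real.exp_add, add_neg_cancel, Real.exp_zero, one_mul] at this
      have b4 : t ^ KU = Real.exp (KU * Real.log t) := by
        rw [Real.rpow_def_of_pos ht0, mul_comm]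
      have b5 : Real.exp (K * 15) ≤ Real.exp (15 * K * Real.log t) := by
        apply Real.exp_le_exp.mpr
        nlinarith
      calc t ^ KU * (Om t ^ n * ‖HH (I * t)‖)
          ≤ t ^ KU * (Om t ^ n * (Real.exp (K * 15) * ‖HH (I * t + u)‖)) := by gcongr
        _ ≤ t ^ KU * (Om t ^ n * (Real.exp (15 * K * Real.log t) * ‖HH (I * t + u)‖)) := by gcongr
        _ = Real.exp ((KU + 15 * K) * Real.log t) * (Om t ^ n * ‖HH (I * t + u)‖) := by
          rw [b4, add_mul, Real.exp_add]; ring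
  -- the affine change of variable
  set δ : ℝ := η0 / 4 with hδ
  set a : ℝ := 1 - δ / 10 with ha
  have hδ0 : 0 < δ := by positivity
  have hδ1 : δ ≤ 1 / 16 := by rw [hδ]; linarith
  have ha1 : 9 / 10 ≤ a := by rw [ha]; linarith
  have ha2 : a < 1 := by rw [ha]; linarith
  have ha0 : 0 < a := by linarith
  set A : ℂ → ℂ := fun u => (δ : ℂ) + (a : ℂ) * u with hA
  have hAre : ∀ u, (A u).re = δ + a * u.re := by
    intro u
    rw [hA]
    simp
  have hAim : ∀ u, (A u).im = a * u.im := by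
    intro u
    rw [hA]
    simp
  have hAd : ∀ u, HasDerivAt A (a : ℂ) u := by
    intro u
    rw [hA]
    simpa using ((hasDerivAt_id u).const_mul (a : ℂ)).const_add (δ : ℂ)
  have key := hS (Real.log t) (g ∘ A) hL1 ?_ ?_
  · intro v hv1 hv2 hv3
    have hur : |v.re| ≤ 10 := by rw [abs_of_nonneg (by linarith)]; linarith
    have hui : |v.im| ≤ 10 := by linarith
    obtain ⟨a1, a2, a3, a4⟩ := hH0 v hur hui
    have hFu := hF0 v (by linarith) hui
    set u : ℂ := (v - δ) / a with hu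
    have haC : (a : ℂ) ≠ 0 := by exact_mod_cast ha0.ne'
    have hAu : A u = v := by
      rw [hA, hu]
      simp only
      field_simp
      ring
    have hure : u.re = (v.re - δ) / a := by
      rw [hu, Complex.div_ofReal_re]
      simp
    have huim : u.im = v.im / a := by
      rw [hu, Complex.div_ofReal_im]
      simp
    have c1 : η0 / 2 ≤ u.re := by
      rw [hure, le_div_iff₀ ha0]
      nlinarith
    have c2 : u.re ≤ 3 := by
      rw [hure, div_le_iff₀ ha0]
      linarith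
    have c3 : |u.im| ≤ 3 := by
      rw [huim, abs_div, abs_of_pos ha0, div_le_iff₀ ha0]
      linarith
    obtain ⟨k1, k2, k3⟩ := key u c1 c2 c3
    have hgdv := (hgd v (by linarith) (by linarith) hui).1
    have hld : logDeriv (g ∘ A) u = logDeriv g v * a := by
      rw [logDeriv_comp (by rw [hAu]; exact hgdv) (hAd u).differentiableAt, (hAd u).deriv, hAu]
    have hk1 : ‖logDeriv g v‖ ≤ η / 4 * Real.log t := by
      rw [hld, norm_mul, Complex.norm_real, Real.norm_eq_abs, abs_of_pos ha0] at k1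
      nlinarith [norm_nonneg (logDeriv g v)]
    have hk2 : Real.exp (-(η / 8 * Real.log t)) ≤ ‖g v‖ := by
      rw [Function.comp_apply, hAu] at k2
      exact k2
    refine ⟨hFu, ?_, ?_⟩
    · have e1 := logDeriv_quot (p := I * t) (u := v) hc hFd.differentiableAt hFu a1 a2
      have e2 : logDeriv F (I * t + v) - (Om t : ℂ) =
          logDeriv g v + (logDeriv HH (I * t + v) - (Om t : ℂ)) := by
        rw [hg, e1]; ring
      rw [e2]
      calc _ ≤ ‖logDeriv g v‖ + ‖logDeriv HH (I * t + v) - (Om t : ℂ)‖ := norm_add_le _ _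
        _ ≤ η / 4 * Real.log t + K := add_le_add hk1 a3
        _ ≤ η * Om t := by rw [hOm] at hKO ⊢; linarith
    · rw [hgn, le_div_iff₀ (by positivity)] at hk2
      refine le_trans ?_ hk2
      apply mul_le_mul_of_nonneg_right _ (by positivity)
      rw [Real.rpow_def_of_pos ht0]
      apply Real.exp_le_exp.mpr
      nlinarith
  · intro u hu1 hu2 hu3
    have c1 : η0 / 4 < (A u).re := by
      rw [hAre]
      nlinarith
    have c2 : (A u).re ≤ 10 := by
      rw [hAre, ha]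
      nlinarith
    have c3 : |(A u).im| ≤ 10 := by
      rw [hAim, abs_mul, abs_of_pos ha0]
      nlinarith [abs_nonneg u.im]
    obtain ⟨b1, b2, b3⟩ := hgd (A u) c1 c2 c3
    exact ⟨b1.comp u (hAd u).differentiableAt, b2, b3⟩
  · intro u hu1 hu2 hu3
    have c1 : 3 / 2 ≤ (A u).re := by
      rw [hAre, ha]
      nlinarith
    have c2 : (A u).re ≤ 10 := by
      rw [hAre, ha]
      nlinarith
    have c3 : |(A u).im| ≤ 10 := by
      rw [hAim, abs_mul, abs_of_pos ha0]
      nlinarith [abs_nonneg u.im]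
    have hur : |(A u).re| ≤ 10 := by rw [abs_of_nonneg (by linarith)]; linarith
    obtain ⟨a1, a2, a3, a4⟩ := hH0 (A u) hur c3
    obtain ⟨d1, d2⟩ := hRG t n htR hn0 hn1 (A u) c1 c2 c3
    rw [Function.comp_apply, hgn, le_div_iff₀ (by positivity), div_le_iff₀ (by positivity)]
    rw [Real.rpow_def_of_pos ht0] at d1 d2
    have e1 : -(ε * Real.log t) = Real.log t * -ε := by ring
    have e2 : ε * Real.log t = Real.log t * ε := by ring
    rw [e1, e2]
    exact ⟨d1, d2⟩

theorem gr2T : S_GR' :=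
  gr2 Pool.Agent.H986R2.K4.sab
    (Pool.Agent.H986R2.K4.rg Pool.Agent.H986R2.K4.ll Pool.Agent.H986R2.K4.hh Pool.Agent.H986R2.K4.a1)
    Pool.Agent.H986R2.K4.ub Pool.Agent.H986R2.K4.hh

end Pool.Agent.K3h51.Li
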