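import Pool.Agent.K3h51.Li.Base
import Pool.Agent.H986R2.K4.Xi

set_option autoImplicit false

/-!
# The Li coefficients as limits of symmetric sums
-/

namespace Pool.Agent.K3h51.Li

open Complex Filter Topology Metric
open Pool.Agent.H24R2.JP (XX)
open Pool.Agent.H986R2.K4 (xi)

/-- The complex Li coefficient of `ξ^(n)`. -/
noncomputable def lc (n k : ℕ) : ℂ :=
  iteratedDeriv (k - 1) (logDeriv (fun w => iteratedDeriv n xi (1 / (1 - w)))) 0 /
    ((k - 1).factorial : ℂ)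

theorem lc_eq (n k : ℕ) : lc n k =
    iteratedDeriv (k - 1) (logDeriv (fun w => iteratedDeriv n XX (zw w))) 0 /
      ((k - 1).factorial : ℂ) := by
  unfold lc
  have e : logDeriv (fun w => iteratedDeriv n xi (1 / (1 - w))) =
      logDeriv (fun w => iteratedDeriv n XX (zw w)) := by
    funext w
    have e1 : (fun w : ℂ => iteratedDeriv n xi (1 / (1 - w))) =
        fun w => (1 / 8 : ℂ) * iteratedDeriv n XX (zw w) := by
      funext v
      rw [Pool.Agent.H986R2.K4.XiAux.iter]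
      rfl
    rw [e1, logDeriv_const_mul _ _ (by norm_num)]
  rw [e]

theorem zw_zero : zw 0 = ((1 / 2 : ℝ) : ℂ) := by
  unfold zw
  push_cast
  norm_num

theorem der_zero (j : ℕ) : iteratedDeriv j XX 0 = (((iteratedDeriv j XX 0).re : ℝ) : ℂ) ∧
    0 ≤ (iteratedDeriv j XX 0).re ∧ (Even j → 0 < (iteratedDeriv j XX 0).re) := by
  have hev : ∀ k, 0 < (iteratedDeriv (2 * k) XX 0).re := by
    intro k
    have h1 := Pool.Agent.H24R2.JP.gamT.1 k
    unfold Pool.Agent.H24R2.JP.gam at h1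
    exact pos_of_mul_pos_right h1 (by positivity)
  rcases Nat.even_or_odd' j with ⟨k, rfl | rfl⟩
  · exact ⟨(Pool.Agent.H24R2.JP.B1h.even_real k).symm, (hev k).le, fun _ => hev k⟩
  · rw [Pool.Agent.H24R2.JP.B1h.odd_zero k]
    refine ⟨by simp, by simp, fun h => ?_⟩
    exact absurd h (by simp)

theorem pos_re (n : ℕ) {x : ℝ} (hx : 0 < x) : 0 < (iteratedDeriv n XX x).re := by
  have h := hasSum_taylorSeries_of_entire (ff_diff n) 0 (x : ℂ)
  have h1 := Complex.hasSum_re h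
  have e : ∀ k, (((k.factorial : ℂ)⁻¹ • ((x : ℂ) - 0) ^ k •
      iteratedDeriv k (iteratedDeriv n XX) 0)).re =
      x ^ k / k.factorial * (iteratedDeriv (k + n) XX 0).re := by
    intro k
    have e1 : iteratedDeriv k (iteratedDeriv n XX) = iteratedDeriv (k + n) XX := by
      rw [iteratedDeriv_eq_iterate, iteratedDeriv_eq_iterate, iteratedDeriv_eq_iterate,
        Function.iterate_add_apply]
    rw [e1, (der_zero (k + n)).1]
    simp only [smul_eq_mul, sub_zero, Complex.ofReal_re]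
    have e2 : ((k.factorial : ℂ)⁻¹ * ((x : ℂ) ^ k * (((iteratedDeriv (k + n) XX 0).re : ℝ) : ℂ))) =
        ((x ^ k / k.factorial * (iteratedDeriv (k + n) XX 0).re : ℝ) : ℂ) := by
      push_cast
      ring
    rw [e2, Complex.ofReal_re]
  simp only [e] at h1
  have h2 : ∀ k, 0 ≤ x ^ k / k.factorial * (iteratedDeriv (k + n) XX 0).re := fun k =>
    mul_nonneg (by positivity) (der_zero (k + n)).2.1
  have h3 := le_hasSum h1 n (fun k _ => h2 k)
  have h4 : 0 < x ^ n / n.factorial * (iteratedDeriv (n + n) XX 0).re :=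
    mul_pos (by positivity) ((der_zero (n + n)).2.2 ⟨n, rfl⟩)
  linarith

theorem pos_ne (n : ℕ) {x : ℝ} (hx : 0 < x) : iteratedDeriv n XX x ≠ 0 := by
  intro h
  have := pos_re n hx
  rw [h] at this
  simp at this

theorem half_ne (n : ℕ) : iteratedDeriv n XX (zw 0) ≠ 0 := by
  rw [zw_zero]
  exact pos_ne n (by norm_num)

theorem lc_lim {n : ℕ} {Z : ℕ → Multiset ℂ} {c : ℕ → ℂ} (h : Ap (iteratedDeriv n XX) Z c) (k : ℕ) :
    Tendsto (fun N => Ss (Z N) (k - 1) 0) atTop (𝓝 (lc n k)) := by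
  rw [lc_eq]
  exact Ss_lim h (k - 1) (by norm_num) (half_ne n)

/-! ## Pairs -/

noncomputable def uu (ρ : ℂ) : ℂ := (ρ + 1 / 2) / (ρ - 1 / 2)

theorem uu_neg (ρ : ℂ) : uu (-ρ) = (uu ρ)⁻¹ := by
  unfold uu
  rw [inv_div]
  have e1 : -ρ + 1 / 2 = -(ρ - 1 / 2) := by ring
  have e2 : -ρ - 1 / 2 = -(ρ + 1 / 2) := by ring
  rw [e1, e2, neg_div_neg_eq]

/-- `2 - 2 Re` of the pair -/
noncomputable def EE (k : ℕ) (ρ : ℂ) : ℝ := 2 - ((uu ρ) ^ k).re - ((uu (-ρ)) ^ k).re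

theorem Ss_zero (Z : Multiset ℂ) (j : ℕ) :
    Ss Z j 0 = (Z.map fun ρ => 1 - (uu ρ) ^ (j + 1)).sum := by
  unfold Ss uu
  congr 1
  apply Multiset.map_congr rfl
  intro ρ _
  simp

theorem Ss_pair {Z : Multiset ℂ} (hZ : Z.map (fun ρ => -ρ) = Z) (j : ℕ) :
    (Ss Z j 0).re = 1 / 2 * (Z.map (EE (j + 1))).sum := by
  rw [Ss_zero, re_sum]
  set F : ℂ → ℝ := fun ρ => (1 - (uu ρ) ^ (j + 1)).re with hF
  have h1 : (Z.map F).sum = (Z.map fun ρ => F (-ρ)).sum := by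
    conv_lhs => rw [← hZ]
    rw [Multiset.map_map]
    rfl
  have h2 : (Z.map (EE (j + 1))).sum = (Z.map F).sum + (Z.map fun ρ => F (-ρ)).sum := by
    rw [← Multiset.sum_map_add]
    congr 1
    apply Multiset.map_congr rfl
    intro ρ _
    rw [hF]
    unfold EE
    simp only [Complex.sub_re, Complex.one_re]
    ring
  rw [h2, ← h1]
  ring

theorem uu_norm {ρ : ℂ} (h : ρ.re = 0) : ‖uu ρ‖ = 1 := by
  unfold uu
  rw [norm_div]
  have h1 : ‖ρ + 1 / 2‖ ^ 2 = ‖ρ - 1 / 2‖ ^ 2 := by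
    rw [← Complex.normSq_eq_norm_sq, ← Complex.normSq_eq_norm_sq, Complex.normSq_apply,
      Complex.normSq_apply]
    simp [h]
  have h2 : ‖ρ + 1 / 2‖ = ‖ρ - 1 / 2‖ := by
    have := (pow_left_inj₀ (norm_nonneg _) (norm_nonneg _) two_ne_zero).1 h1
    exact this
  rw [h2]
  apply div_self
  rw [norm_ne_zero_iff]
  intro h3
  have := congrArg Complex.re h3
  simp [h] at this

theorem EE_nonneg (k : ℕ) {ρ : ℂ} (h : ρ.re = 0) : 0 ≤ EE k ρ := by
  unfold EE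
  have h1 : ((uu ρ) ^ k).re ≤ 1 := by
    refine (Complex.re_le_norm _).trans ?_
    rw [norm_pow, uu_norm h, one_pow]
  have h2 : ((uu (-ρ)) ^ k).re ≤ 1 := by
    refine (Complex.re_le_norm _).trans ?_
    rw [norm_pow, uu_norm (by simp [h]), one_pow]
  linarith

theorem uu_log {ρ : ℂ} (h : |ρ.re| ≤ 1 / 2) (h0 : 0 < |ρ.im|) :
    0 < ‖uu ρ‖ ∧ Real.log ‖uu ρ‖ ≤ 1 / (2 * ρ.im ^ 2) := by
  obtain ⟨h1, h2⟩ := abs_le.1 h
  have h3 : 0 < ρ.im ^ 2 := by
    rw [← sq_abs]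
    positivity
  have e1 : ‖ρ + 1 / 2‖ ^ 2 = (ρ.re + 1 / 2) ^ 2 + ρ.im ^ 2 := by
    rw [← Complex.normSq_eq_norm_sq, Complex.normSq_apply]
    simp
    ring
  have e2 : ‖ρ - 1 / 2‖ ^ 2 = (ρ.re - 1 / 2) ^ 2 + ρ.im ^ 2 := by
    rw [← Complex.normSq_eq_norm_sq, Complex.normSq_apply]
    simp
    ring
  have p1 : 0 < ‖ρ + 1 / 2‖ ^ 2 := by rw [e1]; positivity
  have p2 : 0 < ‖ρ - 1 / 2‖ ^ 2 := by rw [e2]; positivity
  have q1 : 0 < ‖ρ + 1 / 2‖ := by
    have := norm_nonneg (ρ + 1 / 2)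
    rcases this.lt_or_eq with h | h
    · exact h
    · rw [← h] at p1; norm_num at p1
  have q2 : 0 < ‖ρ - 1 / 2‖ := by
    have := norm_nonneg (ρ - 1 / 2)
    rcases this.lt_or_eq with h | h
    · exact h
    · rw [← h] at p2; norm_num at p2
  have q3 : 0 < ‖uu ρ‖ := by
    unfold uu
    rw [norm_div]
    positivity
  refine ⟨q3, ?_⟩
  have h4 : 2 * Real.log ‖uu ρ‖ = Real.log (‖uu ρ‖ ^ 2) := by
    rw [Real.log_pow]
    norm_num
  have h5 : Real.log (‖uu ρ‖ ^ 2) ≤ 1 / ρ.im ^ 2 := by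
    refine (Real.log_le_sub_one_of_pos (by positivity)).trans ?_
    unfold uu
    rw [norm_div, div_pow, sub_le_iff_le_add, div_le_iff₀ p2]
    have h6 : (1 / ρ.im ^ 2 + 1) * ‖ρ - 1 / 2‖ ^ 2 = ‖ρ - 1 / 2‖ ^ 2 / ρ.im ^ 2 + ‖ρ - 1 / 2‖ ^ 2 := by
      ring
    rw [h6]
    have h7 : 1 ≤ ‖ρ - 1 / 2‖ ^ 2 / ρ.im ^ 2 := by
      rw [le_div_iff₀ h3, e2]
      nlinarith [sq_nonneg (ρ.re - 1 / 2)]
    rw [e1, e2] at *
    nlinarith
  have h8 : 1 / (2 * ρ.im ^ 2) = 1 / ρ.im ^ 2 / 2 := by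
    field_simp
  rw [h8]
  linarith

theorem EE_far {k : ℕ} {ρ : ℂ} {T : ℝ} (h : |ρ.re| ≤ 1 / 2) (hT : 1 ≤ T) (hk : (k : ℝ) ≤ T ^ 2)
    (h0 : T ≤ |ρ.im|) : -(k ^ 2 / (2 * ρ.im ^ 4)) ≤ EE k ρ := by
  have hpos : 0 < |ρ.im| := by linarith
  obtain ⟨h1, h2⟩ := uu_log h hpos
  have h3 : |(-ρ).re| ≤ 1 / 2 := by simpa using h
  have h4 : 0 < |(-ρ).im| := by simpa using hpos
  obtain ⟨h5, h6⟩ := uu_log h3 h4
  rw [Complex.neg_im, neg_sq] at h6
  have hTsq : T ^ 2 ≤ ρ.im ^ 2 := by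
    rw [← sq_abs ρ.im]
    exact pow_le_pow_left₀ (by linarith) h0 2
  have himp : 0 < ρ.im ^ 2 := by nlinarith
  set a : ℝ := k * Real.log ‖uu ρ‖ with ha
  have e1 : Real.log ‖uu (-ρ)‖ = -Real.log ‖uu ρ‖ := by
    rw [uu_neg, norm_inv, Real.log_inv]
  rw [e1] at h6
  have hk0 : (0 : ℝ) ≤ k := Nat.cast_nonneg k
  have h7 : |a| ≤ k / (2 * ρ.im ^ 2) := by
    rw [ha, abs_mul, abs_of_nonneg hk0, div_eq_mul_one_div]
    refine mul_le_mul_of_nonneg_left ?_ hk0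
    rw [abs_le]
    constructor <;> linarith
  have h8 : k / (2 * ρ.im ^ 2) ≤ 1 := by
    rw [div_le_one (by positivity)]
    linarith
  have n1 : ‖(uu ρ) ^ k‖ = Real.exp a := by
    rw [norm_pow, ha, Real.exp_nat_mul, Real.exp_log h1]
  have n2 : ‖(uu (-ρ)) ^ k‖ = Real.exp (-a) := by
    rw [norm_pow, ha, ← mul_neg, Real.exp_nat_mul, ← e1, Real.exp_log h5]
  have h9 : Real.exp a + Real.exp (-a) ≤ 2 + 2 * a ^ 2 := by
    have b1 := Real.abs_exp_sub_one_sub_id_le (h7.trans h8)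
    have b2 := Real.abs_exp_sub_one_sub_id_le (x := -a) (by rw [abs_neg]; exact h7.trans h8)
    have b3 := (abs_le.1 b1).2
    have b4 := (abs_le.1 b2).2
    rw [neg_sq] at b4
    linarith
  have h10 : a ^ 2 ≤ (k / (2 * ρ.im ^ 2)) ^ 2 := by
    rw [← sq_abs]
    exact pow_le_pow_left₀ (abs_nonneg _) h7 2
  have h11 : (k / (2 * ρ.im ^ 2)) ^ 2 = k ^ 2 / (4 * ρ.im ^ 4) := by
    rw [div_pow]
    congr 1
    ring
  have h12 : (k : ℝ) ^ 2 / (2 * ρ.im ^ 4) = 2 * (k ^ 2 / (4 * ρ.im ^ 4)) := by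
    ring
  unfold EE
  have c1 := (Complex.re_le_norm ((uu ρ) ^ k)).trans n1.le
  have c2 := (Complex.re_le_norm ((uu (-ρ)) ^ k)).trans n2.le
  rw [h12, ← h11]
  linarith

/-! ## Zeros on the line -/

noncomputable def Th (γ : ℝ) : ℝ := 2 * Real.arctan (1 / (2 * γ))

theorem uu_line {γ : ℝ} (hγ : 0 < γ) : uu (I * γ) = cexp (-(Th γ * I)) := by
  set x : ℝ := 1 / (2 * γ) with hx
  have hx0 : 0 < 1 + x ^ 2 := by positivity
  have hs : Real.sqrt (1 + x ^ 2) ^ 2 = 1 + x ^ 2 := Real.sq_sqrt hx0.le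
  have hs0 : 0 < Real.sqrt (1 + x ^ 2) := Real.sqrt_pos.2 hx0
  have hc : Real.cos (Th γ) = (1 - x ^ 2) / (1 + x ^ 2) := by
    unfold Th
    rw [← hx, Real.cos_two_mul, Real.cos_arctan, div_pow, hs]
    field_simp
    ring
  have hsn : Real.sin (Th γ) = 2 * x / (1 + x ^ 2) := by
    unfold Th
    rw [← hx, Real.sin_two_mul, Real.cos_arctan, Real.sin_arctan]
    have : 2 * (x / Real.sqrt (1 + x ^ 2)) * (1 / Real.sqrt (1 + x ^ 2)) =
        2 * x / Real.sqrt (1 + x ^ 2) ^ 2 := by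
      field_simp
    rw [this, hs]
  have h1 : cexp (-(Th γ * I)) = Complex.cos (Th γ) - Complex.sin (Th γ) * I := by
    rw [← neg_mul, Complex.exp_mul_I, Complex.cos_neg, Complex.sin_neg]
    ring
  rw [h1, ← Complex.ofReal_cos, ← Complex.ofReal_sin, hc, hsn]
  unfold uu
  have hd : (I * (γ : ℂ) - 1 / 2) ≠ 0 := by
    intro h
    have := congrArg Complex.re h
    simp at this
  have hγ2 : γ = 1 / (2 * x) := by
    rw [hx]
    field_simp
  have hxp : 0 < x := by positivity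
  rw [div_eq_iff hd]
  have hxc : (1 + (x : ℂ) ^ 2) ≠ 0 := by
    have : (1 + (x : ℂ) ^ 2) = ((1 + x ^ 2 : ℝ) : ℂ) := by push_cast; ring
    rw [this]
    exact_mod_cast hx0.ne'
  have hxc2 : (x : ℂ) ≠ 0 := by exact_mod_cast hxp.ne'
  rw [hγ2]
  push_cast
  field_simp
  apply Complex.ext
  · simp [pow_two]
    ring
  · simp [pow_two]
    ring

theorem EE_line (k : ℕ) {γ : ℝ} (hγ : 0 < γ) : EE k (I * γ) = 2 - 2 * Real.cos (k * Th γ) := by
  unfold EE
  rw [uu_neg, uu_line hγ, ← Complex.exp_neg, neg_neg, ← Complex.exp_nat_mul, ← Complex.exp_nat_mul]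
  have e1 : (k : ℂ) * -(Th γ * I) = ((-(k * Th γ) : ℝ) : ℂ) * I := by push_cast; ring
  have e2 : (k : ℂ) * (Th γ * I) = ((k * Th γ : ℝ) : ℂ) * I := by push_cast; ring
  rw [e1, e2, Complex.exp_ofReal_mul_I_re, Complex.exp_ofReal_mul_I_re, Real.cos_neg]
  ring

theorem arctan_lip (a b : ℝ) : |Real.arctan a - Real.arctan b| ≤ |a - b| := by
  have h : LipschitzWith 1 Real.arctan := by
    refine lipschitzWith_of_nnnorm_deriv_le Real.differentiable_arctan fun x => ?_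
    rw [← NNReal.coe_le_coe, coe_nnnorm, Real.deriv_arctan]
    simp only [NNReal.coe_one]
    rw [Real.norm_eq_abs, abs_of_nonneg (by positivity)]
    rw [div_le_one (by positivity)]
    nlinarith [sq_nonneg x]
  have := h.dist_le_mul a b
  rw [Real.dist_eq, Real.dist_eq] at this
  simpa using this

theorem Th_lip {a b : ℝ} (ha : 0 < a) (hb : 0 < b) : |Th a - Th b| ≤ |a - b| / (a * b) := by
  unfold Th
  rw [← mul_sub, abs_mul, abs_two]
  have h1 := arctan_lip (1 / (2 * a)) (1 / (2 * b))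
  have h2 : 1 / (2 * a) - 1 / (2 * b) = (b - a) / (2 * (a * b)) := by
    field_simp
  rw [h2, abs_div, abs_of_pos (show 0 < 2 * (a * b) by positivity), abs_sub_comm b a] at h1
  have h3 : |a - b| / (a * b) = 2 * (|a - b| / (2 * (a * b))) := by
    field_simp
  rw [h3]
  linarith

/-- `x / 2 ≤ arctan x` for `0 ≤ x ≤ 1`. -/
theorem half_le_arctan {x : ℝ} (h0 : 0 ≤ x) (h1 : x ≤ 1) : x / 2 ≤ Real.arctan x := by
  have hp := Real.pi_gt_three
  have h2 : Real.tan (x / 2) ≤ x := by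
    rw [Real.tan_eq_sin_div_cos]
    have c := Real.one_sub_sq_div_two_le_cos (x := x / 2)
    have hc : 1 / 2 ≤ Real.cos (x / 2) := by nlinarith
    rw [div_le_iff₀ (by linarith)]
    have s := Real.sin_le (show 0 ≤ x / 2 by linarith)
    nlinarith
  have h3 := Real.arctan_mono h2
  rwa [Real.arctan_tan (by linarith) (by linarith)] at h3

theorem arctan_le {x : ℝ} (h0 : 0 ≤ x) : Real.arctan x ≤ x := by
  have := arctan_lip x 0
  rw [Real.arctan_zero, sub_zero, sub_zero, abs_of_nonneg h0] at this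
  exact (le_abs_self _).trans this

theorem Th_bound {γ : ℝ} (hγ : 1 ≤ γ) : 1 / (2 * γ) ≤ Th γ ∧ Th γ ≤ 1 / γ := by
  unfold Th
  have h0 : 0 < 1 / (2 * γ) := by positivity
  have h1 : 1 / (2 * γ) ≤ 1 := by
    rw [div_le_one (by linarith)]
    linarith
  have h2 := half_le_arctan h0.le h1
  have h3 := arctan_le h0.le
  constructor
  · linarith
  · have : 1 / γ = 2 * (1 / (2 * γ)) := by field_simp
    rw [this]
    linarith

end Pool.Agent.K3h51.Li
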