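import Pool.Agent.K3h51.Li.Ap

set_option autoImplicit false

/-!
# Sums over the approximating multisets and their limits
-/

namespace Pool.Agent.K3h51.Li

open Complex Filter Topology Metric
open Pool.Agent.H24R2.JP (XX)

noncomputable def gs (Z : Multiset ℂ) (z : ℂ) : ℂ := (Z.map fun ρ => 1 / (z - ρ)).sum

noncomputable def As (Z : Multiset ℂ) (z : ℂ) : ℝ := (Z.map fun ρ => 1 / ‖z - ρ‖ ^ 2).sum

/-- the product -/
noncomputable def pr (Z : Multiset ℂ) (z : ℂ) : ℂ := (Z.map fun ρ => z - ρ).prod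

theorem pr_diff (Z : Multiset ℂ) : Differentiable ℂ (pr Z) := by
  induction Z using Multiset.induction_on with
  | empty =>
    unfold pr
    simp
  | cons a Z ih =>
    have e : pr (a ::ₘ Z) = fun z => (z - a) * pr Z z := by
      funext z
      unfold pr
      rw [Multiset.map_cons, Multiset.prod_cons]
    rw [e]
    exact (differentiable_id.sub_const a).mul ih

theorem pr_ne {Z : Multiset ℂ} {z : ℂ} (h : ∀ ρ ∈ Z, z ≠ ρ) : pr Z z ≠ 0 := by
  unfold pr
  rw [Ne, Multiset.prod_eq_zero_iff]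
  intro h0
  obtain ⟨ρ, h1, h2⟩ := Multiset.mem_map.1 h0
  exact h ρ h1 (sub_eq_zero.1 h2)

theorem pr_deriv (Z : Multiset ℂ) : ∀ z, (∀ ρ ∈ Z, z ≠ ρ) →
    HasDerivAt (pr Z) (pr Z z * gs Z z) z := by
  induction Z using Multiset.induction_on with
  | empty =>
    intro z _
    unfold pr gs
    simpa using hasDerivAt_const z (1 : ℂ)
  | cons a Z ih =>
    intro z h
    have e : pr (a ::ₘ Z) = fun z => (z - a) * pr Z z := by
      funext z
      unfold pr
      rw [Multiset.map_cons, Multiset.prod_cons]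
    have h1 := ih z fun ρ hρ => h ρ (Multiset.mem_cons_of_mem hρ)
    have h2 := ((hasDerivAt_id z).sub_const a).mul h1
    have h3 : z - a ≠ 0 := sub_ne_zero.2 (h a (Multiset.mem_cons_self a Z))
    rw [e]
    have e2 : (z - a) * pr Z z * gs (a ::ₘ Z) z = 1 * pr Z z + (id z - a) * (pr Z z * gs Z z) := by
      have : gs (a ::ₘ Z) z = 1 / (z - a) + gs Z z := by
        unfold gs
        rw [Multiset.map_cons, Multiset.sum_cons]
      rw [this]
      simp only [id]
      field_simp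
    show HasDerivAt _ ((z - a) * pr Z z * gs (a ::ₘ Z) z) z
    rw [e2]
    exact h2

theorem logDeriv_pr {Z : Multiset ℂ} {c z : ℂ} (hc : c ≠ 0) (h : ∀ ρ ∈ Z, z ≠ ρ) :
    logDeriv (fun z => c * pr Z z) z = gs Z z := by
  rw [logDeriv_apply, ((pr_deriv Z z h).const_mul c).deriv]
  have := pr_ne h
  field_simp

variable {f : ℂ → ℂ} {Z : ℕ → Multiset ℂ} {c : ℕ → ℂ}

theorem Ap.ne_mem (h : Ap f Z c) {z : ℂ} (hz : f z ≠ 0) (N : ℕ) : ∀ ρ ∈ Z N, z ≠ ρ := by
  rintro ρ hρ rfl
  exact hz (h.zero N z hρ)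

theorem Ap.lim' (h : Ap f Z c) :
    TendstoLocallyUniformly (fun (N : ℕ) (z : ℂ) => c N * pr (Z N) z) f atTop := h.lim

theorem Ap.c_ne (h : Ap f Z c) {z : ℂ} (hz : f z ≠ 0) : ∀ᶠ N in atTop, c N ≠ 0 := by
  have h1 := (tendstoLocallyUniformlyOn_univ.2 h.lim').tendsto_at (Set.mem_univ z)
  filter_upwards [h1.eventually_ne hz] with N hN h0
  apply hN
  rw [h0, zero_mul]

theorem Ap.cont (h : Ap f Z c) : Differentiable ℂ f := by
  have h1 := (tendstoLocallyUniformlyOn_univ.2 h.lim').differentiableOn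
    (Eventually.of_forall fun N => ((pr_diff (Z N)).const_mul (c N)).differentiableOn) isOpen_univ
  exact differentiableOn_univ.1 h1

theorem gs_lim (h : Ap f Z c) {z : ℂ} (hz : f z ≠ 0) :
    Tendsto (fun N => gs (Z N) z) atTop (𝓝 (logDeriv f z)) := by
  have h1 := Complex.logDeriv_tendsto isOpen_univ (Set.mem_univ z)
    (tendstoLocallyUniformlyOn_univ.2 h.lim')
    (Eventually.of_forall fun N => ((pr_diff (Z N)).const_mul (c N)).differentiableOn) hz
  refine h1.congr' ?_
  filter_upwards [h.c_ne hz] with N hN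
  exact logDeriv_pr hN (h.ne_mem hz N)

/-- locally uniform convergence of logarithmic derivatives -/
theorem tlu_logDeriv {F : ℕ → ℂ → ℂ} {g : ℂ → ℂ} {U : Set ℂ} (hU : IsOpen U)
    (hF : TendstoLocallyUniformlyOn F g atTop U) (hd : ∀ N, DifferentiableOn ℂ (F N) U)
    (hne : ∀ z ∈ U, g z ≠ 0) :
    TendstoLocallyUniformlyOn (fun N => logDeriv (F N)) (logDeriv g) atTop U := by
  have hg : DifferentiableOn ℂ g U := hF.differentiableOn (Eventually.of_forall hd) hU
  have h1 := hF.deriv (Eventually.of_forall hd) hU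
  have hg' : ContinuousOn (deriv g) U := (hg.deriv hU).continuousOn
  exact h1.div₀ hF hg' hg.continuousOn hne

theorem gs_hasDeriv (Z : Multiset ℂ) : ∀ z, (∀ ρ ∈ Z, z ≠ ρ) →
    HasDerivAt (gs Z) (-(Z.map fun ρ => 1 / (z - ρ) ^ 2).sum) z := by
  induction Z using Multiset.induction_on with
  | empty =>
    intro z _
    unfold gs
    simpa using hasDerivAt_const z (0 : ℂ)
  | cons a Z ih =>
    intro z h
    have e : gs (a ::ₘ Z) = fun z => 1 / (z - a) + gs Z z := by
      funext z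
      unfold gs
      rw [Multiset.map_cons, Multiset.sum_cons]
    have h1 := ih z fun ρ hρ => h ρ (Multiset.mem_cons_of_mem hρ)
    have h3 : z - a ≠ 0 := sub_ne_zero.2 (h a (Multiset.mem_cons_self a Z))
    have h2 : HasDerivAt (fun z : ℂ => 1 / (z - a)) (-(1 / (z - a) ^ 2)) z := by
      have := ((hasDerivAt_id z).sub_const a).inv h3
      simp only [id] at this
      have e1 : (fun z : ℂ => 1 / (z - a)) = (fun x : ℂ => x - a)⁻¹ := by
        funext x
        simp
      rw [e1]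
      have e2 : -(1 / (z - a) ^ 2) = -1 / (z - a) ^ 2 := by ring
      rw [e2]
      exact this
    rw [e, Multiset.map_cons, Multiset.sum_cons, neg_add]
    exact h2.add h1

theorem dgs_lim (h : Ap f Z c) {z : ℂ} (hz : f z ≠ 0) :
    Tendsto (fun N => -((Z N).map fun ρ => 1 / (z - ρ) ^ 2).sum) atTop
      (𝓝 (deriv (logDeriv f) z)) := by
  have hU : IsOpen {z | f z ≠ 0} := isOpen_ne_fun h.cont.continuous continuous_const
  have h1 := tlu_logDeriv hU ((tendstoLocallyUniformlyOn_univ.2 h.lim').mono (Set.subset_univ _))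
    (fun N => ((pr_diff (Z N)).const_mul (c N)).differentiableOn) (fun z hz => hz)
  have h2 : ∀ᶠ N in atTop, ∀ z ∈ {z | f z ≠ 0},
      logDeriv (fun z => c N * pr (Z N) z) z = gs (Z N) z := by
    filter_upwards [h.c_ne hz] with N hN z hz
    exact logDeriv_pr hN (h.ne_mem hz N)
  have hd : ∀ᶠ N in atTop, DifferentiableOn ℂ (logDeriv (fun z => c N * pr (Z N) z)) {z | f z ≠ 0} := by
    filter_upwards [h2] with N hN
    refine DifferentiableOn.congr (f := gs (Z N)) ?_ hN
    intro w hw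
    exact (gs_hasDeriv _ w (h.ne_mem hw N)).differentiableAt.differentiableWithinAt
  have h3 := (h1.deriv hd hU).tendsto_at (show z ∈ {z | f z ≠ 0} from hz)
  refine h3.congr' ?_
  filter_upwards [h2] with N hN
  have h4 : logDeriv (fun z => c N * pr (Z N) z) =ᶠ[𝓝 z] gs (Z N) := by
    filter_upwards [hU.mem_nhds hz] with w hw
    exact hN w hw
  show deriv (logDeriv (fun z => c N * pr (Z N) z)) z = _
  rw [h4.deriv_eq, (gs_hasDeriv _ z (h.ne_mem hz N)).deriv]

/-! ## The variable `w` -/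

/-- `z(w) = 1 / (1 - w) - 1 / 2` -/
noncomputable def zw (w : ℂ) : ℂ := 1 / (1 - w) - 1 / 2

/-- the sums `∑ (1 / (1 - w) ^ (j + 1) - 1 / (w_ρ - w) ^ (j + 1))` -/
noncomputable def Ss (Z : Multiset ℂ) (j : ℕ) (w : ℂ) : ℂ :=
  (Z.map fun ρ => (1 / (1 - w)) ^ (j + 1) -
    ((ρ + 1 / 2) / ((ρ - 1 / 2) - (ρ + 1 / 2) * w)) ^ (j + 1)).sum

theorem den_ne {ρ w : ℂ} (hw : w ≠ 1) (h : zw w ≠ ρ) : (ρ - 1 / 2) - (ρ + 1 / 2) * w ≠ 0 := by
  intro h0
  apply h
  have h1 : 1 - w ≠ 0 := sub_ne_zero.2 (Ne.symm hw)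
  unfold zw
  field_simp
  linear_combination (-2 : ℂ) * h0

theorem term_deriv (a b : ℂ) (j : ℕ) {w : ℂ} (h : b - a * w ≠ 0) :
    HasDerivAt (fun w => (a / (b - a * w)) ^ (j + 1))
      (((j : ℂ) + 1) * (a / (b - a * w)) ^ (j + 2)) w := by
  have h1 : HasDerivAt (fun w : ℂ => b - a * w) (-a) w := by
    simpa using ((hasDerivAt_id w).const_mul a).const_sub b
  have h2 := ((hasDerivAt_const w a).div h1 h).pow (j + 1)
  refine h2.congr_deriv ?_
  simp only [Nat.add_sub_cancel, Pi.div_apply]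
  push_cast
  rw [pow_succ (a / (b - a * w)) (j + 1), pow_succ (a / (b - a * w)) j]
  field_simp
  ring

theorem Ss_deriv (Z : Multiset ℂ) (j : ℕ) : ∀ w, w ≠ 1 →
    (∀ ρ ∈ Z, (ρ - 1 / 2) - (ρ + 1 / 2) * w ≠ 0) →
    HasDerivAt (Ss Z j) (((j : ℂ) + 1) * Ss Z (j + 1) w) w := by
  induction Z using Multiset.induction_on with
  | empty =>
    intro w _ _
    unfold Ss
    simpa using hasDerivAt_const w (0 : ℂ)
  | cons a Z ih =>
    intro w hw h
    have e : Ss (a ::ₘ Z) j = fun w => ((1 / (1 - w)) ^ (j + 1) -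
        ((a + 1 / 2) / ((a - 1 / 2) - (a + 1 / 2) * w)) ^ (j + 1)) + Ss Z j w := by
      funext z
      unfold Ss
      rw [Multiset.map_cons, Multiset.sum_cons]
    have e2 : Ss (a ::ₘ Z) (j + 1) w = ((1 / (1 - w)) ^ (j + 2) -
        ((a + 1 / 2) / ((a - 1 / 2) - (a + 1 / 2) * w)) ^ (j + 2)) + Ss Z (j + 1) w := by
      unfold Ss
      rw [Multiset.map_cons, Multiset.sum_cons]
    have h1 := ih w hw fun ρ hρ => h ρ (Multiset.mem_cons_of_mem hρ)
    have h2 := term_deriv (a + 1 / 2) (a - 1 / 2) j (h a (Multiset.mem_cons_self a Z))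
    have h3 := term_deriv 1 1 j (w := w) (by rw [one_mul]; exact sub_ne_zero.2 (Ne.symm hw))
    simp only [one_mul] at h3
    rw [e]
    refine ((h3.sub h2).add h1).congr_deriv ?_
    rw [e2]
    ring

theorem iter_Ss {Z : Multiset ℂ} {c : ℂ} (hc : c ≠ 0) {U : Set ℂ} (hU : IsOpen U)
    (h1 : ∀ w ∈ U, w ≠ 1) (h2 : ∀ w ∈ U, ∀ ρ ∈ Z, zw w ≠ ρ) (j : ℕ) : ∀ w ∈ U,
    iteratedDeriv j (logDeriv (fun w => c * pr Z (zw w))) w = (j.factorial : ℂ) * Ss Z j w := by
  induction j with
  | zero =>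
    intro w hw
    have hw1 := h1 w hw
    have hw1' : 1 - w ≠ 0 := sub_ne_zero.2 (Ne.symm hw1)
    rw [iteratedDeriv_zero, Nat.factorial_zero, Nat.cast_one, one_mul]
    have hz : HasDerivAt zw (1 / (1 - w) ^ 2) w := by
      have h0 : HasDerivAt (fun w : ℂ => 1 - w) (-1) w := by
        simpa using (hasDerivAt_id w).const_sub 1
      have h3 := ((hasDerivAt_const w (1 : ℂ)).div h0 hw1').sub_const (1 / 2)
      have h4 : HasDerivAt zw ((0 * (1 - w) - 1 * -1) / (1 - w) ^ 2) w := h3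
      refine h4.congr_deriv ?_
      ring
    have h5 := (HasDerivAt.comp w (pr_deriv Z (zw w) (h2 w hw)) hz).const_mul c
    have h5' : HasDerivAt (fun w => c * pr Z (zw w))
        (c * (pr Z (zw w) * gs Z (zw w) * (1 / (1 - w) ^ 2))) w := h5
    rw [logDeriv_apply, h5'.deriv]
    have h6 := pr_ne (h2 w hw)
    have h7 : c * (pr Z (zw w) * gs Z (zw w) * (1 / (1 - w) ^ 2)) / (c * pr Z (zw w)) =
        gs Z (zw w) * (1 / (1 - w) ^ 2) := by
      field_simp
    rw [h7]
    unfold gs Ss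
    rw [← Multiset.sum_map_mul_right]
    congr 1
    apply Multiset.map_congr rfl
    intro ρ hρ
    have h8 := den_ne hw1 (h2 w hw ρ hρ)
    have h9 : zw w - ρ ≠ 0 := sub_ne_zero.2 (h2 w hw ρ hρ)
    have h10 : (zw w - ρ) * (1 - w) = -((ρ - 1 / 2) - (ρ + 1 / 2) * w) := by
      unfold zw
      field_simp
      ring
    obtain ⟨D, hD⟩ : ∃ D : ℂ, D = (ρ - 1 / 2) - (ρ + 1 / 2) * w := ⟨_, rfl⟩
    rw [← hD] at h8 h10 ⊢
    obtain ⟨X, hX⟩ : ∃ X : ℂ, X = zw w - ρ := ⟨_, rfl⟩
    rw [← hX] at h9 h10 ⊢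
    have hX' : X = -D / (1 - w) := by
      field_simp
      linear_combination h10
    have h12 : D - (ρ + 1 / 2) * (1 - w) = -1 := by
      rw [hD]
      ring
    simp only [zero_add, pow_one]
    rw [div_sub_div _ _ hw1' h8]
    have h13 : 1 * D - (1 - w) * (ρ + 1 / 2) = -1 := by linear_combination h12
    rw [h13, hX']
    field_simp
  | succ j ih =>
    intro w hw
    have h3 : iteratedDeriv j (logDeriv (fun w => c * pr Z (zw w))) =ᶠ[𝓝 w]
        fun w => (j.factorial : ℂ) * Ss Z j w := by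
      filter_upwards [hU.mem_nhds hw] with v hv
      exact ih v hv
    rw [iteratedDeriv_succ, h3.deriv_eq,
      ((Ss_deriv Z j w (h1 w hw) fun ρ hρ => den_ne (h1 w hw) (h2 w hw ρ hρ)).const_mul _).deriv,
      Nat.factorial_succ]
    push_cast
    ring

theorem Ss_lim (h : Ap f Z c) (j : ℕ) {w : ℂ} (hw : w ≠ 1) (hz : f (zw w) ≠ 0) :
    Tendsto (fun N => Ss (Z N) j w) atTop
      (𝓝 (iteratedDeriv j (logDeriv (fun w => f (zw w))) w / (j.factorial : ℂ))) := by
  set U : Set ℂ := {w | w ≠ 1 ∧ f (zw w) ≠ 0} with hUd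
  have hzc : ContinuousOn zw {w | w ≠ 1} := by
    intro v hv
    have : 1 - v ≠ 0 := sub_ne_zero.2 (Ne.symm hv)
    unfold zw
    exact ((continuousAt_const.div (by fun_prop) this).sub continuousAt_const).continuousWithinAt
  have hU : IsOpen U := by
    have h1 : IsOpen {w : ℂ | w ≠ 1} := isOpen_ne
    have h2 := ContinuousOn.isOpen_inter_preimage (h.cont.continuous.comp_continuousOn hzc) h1
      (isOpen_ne (x := (0 : ℂ)))
    exact h2
  have hzd : DifferentiableOn ℂ zw U := by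
    intro v hv
    have : 1 - v ≠ 0 := sub_ne_zero.2 (Ne.symm hv.1)
    unfold zw
    exact (((differentiableAt_const _).div (by fun_prop) this).sub_const _).differentiableWithinAt
  have hlim : TendstoLocallyUniformlyOn (fun N w => c N * pr (Z N) (zw w)) (fun w => f (zw w))
      atTop U := by
    have h1 := (tendstoLocallyUniformlyOn_univ.2 h.lim').comp zw (Set.mapsTo_univ _ U)
      (hzc.mono fun v hv => hv.1)
    exact h1
  have h1 := tlu_logDeriv hU hlim
    (fun N => ((((pr_diff (Z N)).const_mul (c N)).differentiableOn (s := Set.univ)).comp hzd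
      (Set.mapsTo_univ _ U))) (fun v hv => hv.2)
  have hne : ∀ N, ∀ v ∈ U, ∀ ρ ∈ Z N, zw v ≠ ρ := fun N v hv => h.ne_mem hv.2 N
  have hit : ∀ j : ℕ, TendstoLocallyUniformlyOn
      (fun N => iteratedDeriv j (logDeriv (fun w => c N * pr (Z N) (zw w))))
      (iteratedDeriv j (logDeriv (fun w => f (zw w)))) atTop U := by
    intro j
    induction j with
    | zero =>
      simp only [iteratedDeriv_zero]
      exact h1
    | succ j ih =>
      have hd : ∀ᶠ N in atTop, DifferentiableOn ℂ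
          (iteratedDeriv j (logDeriv (fun w => c N * pr (Z N) (zw w)))) U := by
        filter_upwards [h.c_ne hz] with N hN
        refine DifferentiableOn.congr (f := fun w => (j.factorial : ℂ) * Ss (Z N) j w) ?_
          (fun v hv => iter_Ss hN hU (fun v hv => hv.1) (hne N) j v hv)
        intro v hv
        exact ((Ss_deriv (Z N) j v hv.1 fun ρ hρ =>
          den_ne hv.1 (hne N v hv ρ hρ)).const_mul _).differentiableAt.differentiableWithinAt
      have h2 := ih.deriv hd hU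
      simp only [iteratedDeriv_succ]
      exact h2
  have h3 := (hit j).tendsto_at (show w ∈ U from ⟨hw, hz⟩)
  have h4 := h3.div_const (j.factorial : ℂ)
  refine h4.congr' ?_
  filter_upwards [h.c_ne hz] with N hN
  rw [iter_Ss hN hU (fun v hv => hv.1) (hne N) j w ⟨hw, hz⟩]
  have : (j.factorial : ℂ) ≠ 0 := by exact_mod_cast j.factorial_ne_zero
  field_simp

end Pool.Agent.K3h51.Li
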